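import Pool.Agent.H22.Basic

/-!
Partial fractions with the denominators `F_a`, `a ∈ A`.
-/

set_option autoImplicit false
open Polynomial

namespace Pool.Agent.H22

noncomputable section

/-- the product of the other fibre polynomials -/
def Pr (P Q : ℂ[X]) (A : Finset ℂ) (a : ℂ) : ℂ[X] := ∏ b ∈ A.erase a, Fp P Q b

open Classical in
/-- the inverse of `Pr` modulo `F_a` -/
def Ua (P Q : ℂ[X]) (A : Finset ℂ) (a : ℂ) : ℂ[X] :=
  if h : IsCoprime (Fp P Q a) (Pr P Q A a) then h.choose_spec.choose else 0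

/-- the part at `F_a` of the partial fraction decomposition of `M / ∏ F_b` -/
def pf (P Q : ℂ[X]) (A : Finset ℂ) (a : ℂ) (M : ℂ[X]) : ℂ[X] := (M * Ua P Q A a) % Fp P Q a

/-- the sum of the residues of `M / ∏ F_b` at the zeros of `F_a` -/
def cf (d : ℕ) (P Q : ℂ[X]) (A : Finset ℂ) (a : ℂ) (M : ℂ[X]) : ℂ :=
  (pf P Q A a M).coeff (d - 1) / (P.coeff d - a)

lemma rootMultiplicity_of_factor {p q : ℂ[X]} {x : ℂ} {n : ℕ} (h : p = (X - C x) ^ n * q)
    (hq : q.eval x ≠ 0) : rootMultiplicity x p = n := by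
  have hq0 : q ≠ 0 := by rintro rfl; simp at hq
  have hp : (X - C x) ^ n * q ≠ 0 := mul_ne_zero (pow_ne_zero _ (X_sub_C_ne_zero x)) hq0
  rw [h, rootMultiplicity_mul hp, rootMultiplicity_X_sub_C_pow, rootMultiplicity_eq_zero hq, add_zero]

namespace Good

variable {d : ℕ} {P Q : ℂ[X]} {A : Finset ℂ}

lemma coprime_Pr (h : Good d P Q A) {a : ℂ} : IsCoprime (Fp P Q a) (Pr P Q A a) := by
  unfold Pr
  refine IsCoprime.prod_right fun b hb => h.Fp_coprime ?_
  exact (Finset.ne_of_mem_erase hb).symm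

lemma Ua_spec (h : Good d P Q A) (a : ℂ) :
    ∃ u, u * Fp P Q a + Ua P Q A a * Pr P Q A a = 1 := by
  have h1 := h.coprime_Pr (a := a)
  refine ⟨h1.choose, ?_⟩
  have : Ua P Q A a = h1.choose_spec.choose := by
    unfold Ua
    rw [dif_pos h1]
  rw [this]
  exact h1.choose_spec.choose_spec

/-- the defining property of the partial fraction -/
lemma pf_spec (h : Good d P Q A) (a : ℂ) (M : ℂ[X]) :
    Fp P Q a ∣ pf P Q A a M * Pr P Q A a - M := by
  obtain ⟨u, hu⟩ := h.Ua_spec a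
  have h1 : Fp P Q a ∣ M * Ua P Q A a - pf P Q A a M := by
    unfold pf
    exact ⟨(M * Ua P Q A a) / Fp P Q a, by
      have := EuclideanDomain.div_add_mod (M * Ua P Q A a) (Fp P Q a)
      linear_combination -this⟩
  obtain ⟨w, hw⟩ := h1
  refine ⟨-w * Pr P Q A a - M * u, ?_⟩
  linear_combination (-Pr P Q A a) * hw + M * hu

lemma pf_degree (h : Good d P Q A) {a : ℂ} (ha : a ∈ A) (M : ℂ[X]) :
    (pf P Q A a M).degree < d := by
  have h1 := degree_mod_lt (M * Ua P Q A a) (h.Fp_ne (h.inf a ha))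
  refine lt_of_lt_of_le h1 ?_
  rw [degree_eq_natDegree (h.Fp_ne (h.inf a ha)), h.Fp_natDegree (h.inf a ha)]

lemma pf_natDegree (h : Good d P Q A) {a : ℂ} (ha : a ∈ A) (M : ℂ[X]) :
    (pf P Q A a M).natDegree ≤ d - 1 := by
  have h1 := h.pf_degree ha M
  have := h.d_pos
  by_cases h0 : pf P Q A a M = 0
  · simp [h0]
  · rw [degree_eq_natDegree h0] at h1
    have : (pf P Q A a M).natDegree < d := by exact_mod_cast h1
    omega

/-- uniqueness of the partial fraction -/
lemma pf_unique (h : Good d P Q A) {a : ℂ} (ha : a ∈ A) {M T : ℂ[X]} (hT : T.degree < d)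
    (hdvd : Fp P Q a ∣ T * Pr P Q A a - M) : pf P Q A a M = T := by
  have h1 : Fp P Q a ∣ (pf P Q A a M - T) * Pr P Q A a := by
    have := dvd_sub (h.pf_spec a M) hdvd
    have e : pf P Q A a M * Pr P Q A a - M - (T * Pr P Q A a - M) =
      (pf P Q A a M - T) * Pr P Q A a := by ring
    rwa [e] at this
  have h2 : Fp P Q a ∣ pf P Q A a M - T := h.coprime_Pr.dvd_of_dvd_mul_right h1
  by_contra hne
  have h3 : pf P Q A a M - T ≠ 0 := sub_ne_zero.mpr hne
  have h4 := degree_le_of_dvd h2 h3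
  rw [degree_eq_natDegree (h.Fp_ne (h.inf a ha)), h.Fp_natDegree (h.inf a ha)] at h4
  have h5 : (pf P Q A a M - T).degree < d :=
    lt_of_le_of_lt (degree_sub_le _ _) (max_lt (h.pf_degree ha M) hT)
  exact absurd h4 (not_le.mpr h5)

lemma pf_congr (h : Good d P Q A) {a : ℂ} (ha : a ∈ A) {M M' : ℂ[X]}
    (hdvd : Fp P Q a ∣ M - M') : pf P Q A a M = pf P Q A a M' := by
  refine h.pf_unique ha (h.pf_degree ha M') ?_
  have := dvd_sub (h.pf_spec a M') hdvd
  have e : pf P Q A a M' * Pr P Q A a - M' - (M - M') = pf P Q A a M' * Pr P Q A a - M := by ring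
  rwa [e] at this

lemma pf_add (a : ℂ) (M M' : ℂ[X]) :
    pf P Q A a (M + M') = pf P Q A a M + pf P Q A a M' := by
  unfold pf
  rw [add_mul, add_mod]

lemma pf_C_mul (h : Good d P Q A) {a : ℂ} (ha : a ∈ A) (c : ℂ) (M : ℂ[X]) :
    pf P Q A a (C c * M) = C c * pf P Q A a M := by
  refine h.pf_unique ha ?_ ?_
  · refine lt_of_le_of_lt ?_ (h.pf_degree ha M)
    calc (C c * pf P Q A a M).degree ≤ (C c).degree + (pf P Q A a M).degree := degree_mul_le _ _
      _ ≤ 0 + (pf P Q A a M).degree := by gcongr; exact degree_C_le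
      _ = (pf P Q A a M).degree := zero_add _
  · have := (h.pf_spec a M).mul_left (C c)
    have e : C c * (pf P Q A a M * Pr P Q A a - M) = C c * pf P Q A a M * Pr P Q A a - C c * M := by
      ring
    rwa [e] at this

lemma cf_congr (h : Good d P Q A) {a : ℂ} (ha : a ∈ A) {M M' : ℂ[X]}
    (hdvd : Fp P Q a ∣ M - M') : cf d P Q A a M = cf d P Q A a M' := by
  unfold cf
  rw [h.pf_congr ha hdvd]

lemma cf_add (a : ℂ) (M M' : ℂ[X]) :
    cf d P Q A a (M + M') = cf d P Q A a M + cf d P Q A a M' := by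
  unfold cf
  rw [pf_add, coeff_add, add_div]

lemma cf_C_mul (h : Good d P Q A) {a : ℂ} (ha : a ∈ A) (c : ℂ) (M : ℂ[X]) :
    cf d P Q A a (C c * M) = c * cf d P Q A a M := by
  unfold cf
  rw [h.pf_C_mul ha, coeff_C_mul, mul_div_assoc]

/-- the sum of the partial fractions -/
lemma pf_sum (h : Good d P Q A) {M : ℂ[X]} (hM : M.degree < (A.card * d : ℕ)) :
    ∑ a ∈ A, pf P Q A a M * Pr P Q A a = M := by
  by_contra hne
  have h3 : ∑ a ∈ A, pf P Q A a M * Pr P Q A a - M ≠ 0 := sub_ne_zero.mpr hne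
  have hdvd : ∀ a ∈ A, Fp P Q a ∣ ∑ a ∈ A, pf P Q A a M * Pr P Q A a - M := by
    intro a ha
    rw [← Finset.add_sum_erase _ _ ha]
    have e : pf P Q A a M * Pr P Q A a + ∑ b ∈ A.erase a, pf P Q A b M * Pr P Q A b - M =
      (pf P Q A a M * Pr P Q A a - M) + ∑ b ∈ A.erase a, pf P Q A b M * Pr P Q A b := by ring
    rw [e]
    refine dvd_add (h.pf_spec a M) (Finset.dvd_sum fun b hb => ?_)
    refine Dvd.dvd.mul_left ?_ _
    unfold Pr
    refine Finset.dvd_prod_of_mem _ (Finset.mem_erase.mpr ⟨?_, ha⟩)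
    exact (Finset.ne_of_mem_erase hb).symm
  have h4 : (∏ a ∈ A, Fp P Q a) ∣ ∑ a ∈ A, pf P Q A a M * Pr P Q A a - M := by
    refine Finset.prod_dvd_of_coprime ?_ hdvd
    intro a _ b _ hab
    exact h.Fp_coprime hab
  have h5 := degree_le_of_dvd h4 h3
  have h6 : (∏ a ∈ A, Fp P Q a).degree = (A.card * d : ℕ) := by
    rw [degree_prod]
    have : ∀ a ∈ A, (Fp P Q a).degree = (d : WithBot ℕ) := fun a ha => by
      rw [degree_eq_natDegree (h.Fp_ne (h.inf a ha)), h.Fp_natDegree (h.inf a ha)]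
    rw [Finset.sum_congr rfl this]
    simp
  rw [h6] at h5
  refine absurd h5 (not_le.mpr ?_)
  refine lt_of_le_of_lt (degree_sub_le _ _) (max_lt ?_ hM)
  refine lt_of_le_of_lt (degree_sum_le _ _) ?_
  rw [Finset.sup_lt_iff (WithBot.bot_lt_coe _)]
  intro a ha
  rw [degree_mul]
  have h7 : (Pr P Q A a).degree = ((A.card - 1) * d : ℕ) := by
    unfold Pr
    rw [degree_prod]
    have : ∀ b ∈ A.erase a, (Fp P Q b).degree = (d : WithBot ℕ) := fun b hb => by
      have hb' := Finset.mem_of_mem_erase hb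
      rw [degree_eq_natDegree (h.Fp_ne (h.inf b hb')), h.Fp_natDegree (h.inf b hb')]
    rw [Finset.sum_congr rfl this]
    simp [Finset.card_erase_of_mem ha]
  rw [h7]
  have h8 := h.pf_degree ha M
  have hc : 1 ≤ A.card := Finset.card_pos.mpr ⟨a, ha⟩
  calc (pf P Q A a M).degree + ((A.card - 1) * d : ℕ) < (d : WithBot ℕ) + ((A.card - 1) * d : ℕ) := by
        by_cases h0 : pf P Q A a M = 0
        · rw [h0, degree_zero, WithBot.bot_add]
          exact_mod_cast WithBot.bot_lt_coe _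
        · rw [degree_eq_natDegree h0] at h8 ⊢
          have : (pf P Q A a M).natDegree < d := by exact_mod_cast h8
          exact_mod_cast (by omega : (pf P Q A a M).natDegree + (A.card - 1) * d < d + (A.card - 1) * d)
    _ = (A.card * d : ℕ) := by
        have : d + (A.card - 1) * d = A.card * d := by
          obtain ⟨k, hk⟩ : ∃ k, A.card = k + 1 := ⟨A.card - 1, by omega⟩
          rw [hk]; simp; ring
        exact_mod_cast this

/-- residue theorem -/
lemma cf_sum (h : Good d P Q A) {M : ℂ[X]} (hM : M.natDegree + 2 ≤ A.card * d) :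
    ∑ a ∈ A, cf d P Q A a M = 0 := by
  have hdeg : M.degree < (A.card * d : ℕ) :=
    lt_of_le_of_lt degree_le_natDegree (by exact_mod_cast (by omega : M.natDegree < A.card * d))
  have h1 := congrArg (fun p => coeff p (A.card * d - 1)) (h.pf_sum hdeg)
  simp only [finsetSum_coeff] at h1
  rw [coeff_eq_zero_of_natDegree_lt (by omega : M.natDegree < A.card * d - 1)] at h1
  have hd := h.d_pos
  have h2 : ∀ a ∈ A, (pf P Q A a M * Pr P Q A a).coeff (A.card * d - 1) =
      (pf P Q A a M).coeff (d - 1) * ∏ b ∈ A.erase a, (P.coeff d - b) := by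
    intro a ha
    have hc : 1 ≤ A.card := Finset.card_pos.mpr ⟨a, ha⟩
    have e : A.card * d - 1 = (d - 1) + (A.card - 1) * d := by
      obtain ⟨k, hk⟩ : ∃ k, A.card = k + 1 := ⟨A.card - 1, by omega⟩
      rw [hk]; simp only [Nat.add_sub_cancel]
      rw [add_mul, one_mul]; omega
    have hPr : (Pr P Q A a).natDegree ≤ (A.card - 1) * d := by
      unfold Pr
      refine (natDegree_prod_le _ _).trans ?_
      refine (Finset.sum_le_card_nsmul _ _ d fun b hb => h.Fp_natDegree_le b).trans ?_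
      rw [Finset.card_erase_of_mem ha, smul_eq_mul]
    rw [e, coeff_mul_add_eq_of_natDegree_le (h.pf_natDegree ha M) hPr]
    congr 1
    have h3 : (A.card - 1) * d = (A.erase a).card * d := by rw [Finset.card_erase_of_mem ha]
    rw [h3]
    unfold Pr
    rw [coeff_prod_of_natDegree_le _ _ _ fun b hb => h.Fp_natDegree_le b]
    exact Finset.prod_congr rfl fun b _ => h.Fp_coeff_d b
  rw [Finset.sum_congr rfl h2] at h1
  have hProd : ∏ b ∈ A, (P.coeff d - b) ≠ 0 :=
    Finset.prod_ne_zero_iff.mpr fun b hb => sub_ne_zero.mpr (h.inf b hb)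
  have h4 : ∑ a ∈ A, cf d P Q A a M = (∑ a ∈ A, (pf P Q A a M).coeff (d - 1) *
      ∏ b ∈ A.erase a, (P.coeff d - b)) / ∏ b ∈ A, (P.coeff d - b) := by
    rw [Finset.sum_div]
    refine Finset.sum_congr rfl fun a ha => ?_
    unfold cf
    rw [← Finset.mul_prod_erase _ _ ha]
    have h5 : P.coeff d - a ≠ 0 := sub_ne_zero.mpr (h.inf a ha)
    have h6 : ∏ b ∈ A.erase a, (P.coeff d - b) ≠ 0 :=
      Finset.prod_ne_zero_iff.mpr fun b hb =>
        sub_ne_zero.mpr (h.inf b (Finset.mem_of_mem_erase hb))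
    field_simp
  rw [h4, h1, zero_div]

end Good

end

end Pool.Agent.H22
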