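import Pool.Agent.H22.Alg1

/-!
The push-forward of quadratic differentials with simple poles in `A`.
-/

set_option autoImplicit false
open Polynomial

namespace Pool.Agent.H22

noncomputable section

namespace Good

variable {d : ℕ} {P Q : ℂ[X]} {A : Finset ℂ}

/-- local data at a point of the fibre over `a` -/
lemma local_data (h : Good d P Q A) {a x : ℂ} (ha : a ∈ A) (hx : (Fp P Q a).eval x = 0) :
    ∃ u : ℂ[X], 0 < rootMultiplicity x (Fp P Q a) ∧
      Fp P Q a = (X - C x) ^ rootMultiplicity x (Fp P Q a) * u ∧ u.eval x ≠ 0 := by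
  have hne := h.Fp_ne (h.inf a ha)
  obtain ⟨u, hu, hnd⟩ := exists_eq_pow_rootMultiplicity_mul_and_not_dvd (Fp P Q a) hne x
  refine ⟨u, (rootMultiplicity_pos hne).mpr hx, hu, fun h0 => hnd (dvd_iff_isRoot.mpr h0)⟩

lemma Wr_mult (h : Good d P Q A) {a x : ℂ} (ha : a ∈ A) (hx : (Fp P Q a).eval x = 0) :
    rootMultiplicity x (Wr P Q) = rootMultiplicity x (Fp P Q a) - 1 := by
  obtain ⟨u, he, hu, hux⟩ := h.local_data ha hx
  refine rootMultiplicity_of_factor (Wr_factor he hu) ?_
  have hQ := (h.mem_fib.mp hx).1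
  simp only [eval_sub, eval_mul, eval_add, eval_C, eval_X, sub_self, zero_mul, add_zero, sub_zero]
  refine mul_ne_zero hQ (mul_ne_zero ?_ hux)
  exact_mod_cast he.ne'

lemma fib_self (h : Good d P Q A) {x : ℂ} (hx : x ∈ A) :
    P.eval x / Q.eval x ∈ A ∧ (Fp P Q (P.eval x / Q.eval x)).eval x = 0 :=
  ⟨(h.maps x hx).2, h.mem_fib.mpr ⟨(h.maps x hx).1, rfl⟩⟩

lemma prod_ne (h : Good d P Q A) : ∏ a ∈ A, Fp P Q a ≠ 0 :=
  Finset.prod_ne_zero_iff.mpr fun a ha => h.Fp_ne (h.inf a ha)

lemma exists_K (h : Good d P Q A) : ∃ K : ℂ[X], DA A * Wr P Q * K = ∏ a ∈ A, Fp P Q a := by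
  have hD : DA A ≠ 0 := (DA_monic A).ne_zero
  have hdvd : DA A * Wr P Q ∣ ∏ a ∈ A, Fp P Q a := by
    rw [IsAlgClosed.dvd_iff_roots_le_roots (mul_ne_zero hD h.Wr_ne) h.prod_ne, Multiset.le_iff_count]
    intro x
    rw [count_roots, count_roots, rootMultiplicity_mul (mul_ne_zero hD h.Wr_ne)]
    have h1 : rootMultiplicity x (DA A) = if x ∈ A then 1 else 0 := by
      rw [← count_roots]
      unfold DA
      rw [roots_prod_X_sub_C]
      split_ifs with hx
      · exact Multiset.count_eq_one_of_mem A.nodup hx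
      · exact Multiset.count_eq_zero_of_notMem hx
    by_cases hex : ∃ a ∈ A, (Fp P Q a).eval x = 0
    · obtain ⟨a, ha, hx⟩ := hex
      rw [h.Wr_mult ha hx, h1]
      have h2 : rootMultiplicity x (Fp P Q a) ≤ rootMultiplicity x (∏ a ∈ A, Fp P Q a) :=
        rootMultiplicity_le_rootMultiplicity_of_dvd h.prod_ne (Finset.dvd_prod_of_mem _ ha) x
      have h3 : 0 < rootMultiplicity x (Fp P Q a) :=
        (rootMultiplicity_pos (h.Fp_ne (h.inf a ha))).mpr hx
      split_ifs <;> omega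
    · push Not at hex
      have hxA : x ∉ A := fun hx => hex _ (h.fib_self hx).1 (h.fib_self hx).2
      have hW : (Wr P Q).eval x ≠ 0 := by
        intro h0
        have := h.crit x h0
        exact hex _ this.2 (h.mem_fib.mpr ⟨this.1, rfl⟩)
      rw [h1, if_neg hxA, rootMultiplicity_eq_zero hW]
      exact Nat.zero_le _
  obtain ⟨K, hK⟩ := hdvd
  exact ⟨K, hK.symm⟩

lemma K_natDegree (h : Good d P Q A) {K : ℂ[X]} (hK : DA A * Wr P Q * K = ∏ a ∈ A, Fp P Q a) :
    A.card + (2 * d - 2) + K.natDegree = A.card * d := by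
  have hD : DA A ≠ 0 := (DA_monic A).ne_zero
  have hK0 : K ≠ 0 := by
    rintro rfl
    rw [mul_zero] at hK
    exact h.prod_ne hK.symm
  have h1 := congrArg natDegree hK
  rw [natDegree_mul (mul_ne_zero hD h.Wr_ne) hK0, natDegree_mul hD h.Wr_ne, DA_natDegree,
    h.Wr_natDegree, natDegree_prod _ _ fun a ha => h.Fp_ne (h.inf a ha)] at h1
  rw [h1, Finset.sum_congr rfl fun a ha => h.Fp_natDegree (h.inf a ha)]
  simp

/-- the key value of `K` -/
lemma K_eval (h : Good d P Q A) {K : ℂ[X]} (hK : DA A * Wr P Q * K = ∏ a ∈ A, Fp P Q a)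
    {a x : ℂ} (ha : a ∈ A) (hx : (Fp P Q a).eval x = 0) :
    (x ∈ A → (rootMultiplicity x (Fp P Q a) : ℂ) * K.eval x * Q.eval x *
      (derivative (DA A)).eval x = (Pr P Q A a).eval x) ∧ (x ∉ A → K.eval x = 0) := by
  obtain ⟨u, he, hu, hux⟩ := h.local_data ha hx
  set e := rootMultiplicity x (Fp P Q a) with he_def
  have hX : (X - C x) ≠ (0 : ℂ[X]) := X_sub_C_ne_zero x
  have hprod : ∏ a ∈ A, Fp P Q a = (X - C x) ^ e * u * Pr P Q A a := by
    rw [← Finset.mul_prod_erase _ _ ha, ← hu]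
    rfl
  obtain ⟨k, hk⟩ : ∃ k, e = k + 1 := ⟨e - 1, by omega⟩
  have hW := Wr_factor he hu
  rw [hprod, hW, hk] at hK
  simp only [Nat.add_sub_cancel] at hK
  have hQ := (h.mem_fib.mp hx).1
  have h2 : DA A * (Q * (C ((k + 1 : ℕ) : ℂ) * u + (X - C x) * derivative u) -
      (X - C x) * u * derivative Q) * K = (X - C x) * (u * Pr P Q A a) := by
    apply mul_left_cancel₀ (pow_ne_zero k hX)
    rw [pow_succ] at hK
    linear_combination hK
  constructor
  · intro hxA
    -- x in A: DA = (X - x) v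
    obtain ⟨v, hv⟩ : (X - C x) ∣ DA A := dvd_iff_isRoot.mpr (DA_eval_eq hxA)
    rw [hv] at h2
    have h3 : v * (Q * (C ((k + 1 : ℕ) : ℂ) * u + (X - C x) * derivative u) -
        (X - C x) * u * derivative Q) * K = u * Pr P Q A a := by
      apply mul_left_cancel₀ hX
      linear_combination h2
    have h4 := congrArg (eval x) h3
    simp only [eval_sub, eval_mul, eval_add, eval_C, eval_X, sub_self, zero_mul, add_zero,
      sub_zero] at h4
    have h5 : (derivative (DA A)).eval x = v.eval x := by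
      rw [hv]
      simp
    rw [h5, hk]
    apply mul_left_cancel₀ hux
    linear_combination h4
  · intro hxA
    have h4 := congrArg (eval x) h2
    simp only [eval_sub, eval_mul, eval_add, eval_C, eval_X, sub_self, zero_mul, add_zero,
      sub_zero] at h4
    have h6 : (DA A).eval x ≠ 0 := DA_eval_ne hxA
    have h7 : ((k + 1 : ℕ) : ℂ) ≠ 0 := by exact_mod_cast Nat.succ_ne_zero k
    by_contra hne
    exact absurd h4 (mul_ne_zero (mul_ne_zero h6 (mul_ne_zero hQ (mul_ne_zero h7 hux))) hne)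

/-- regular values -/
lemma regular (h : Good d P Q A) {x y : ℂ} (hy : y ∉ A) (hx : (Fp P Q y).eval x = 0) :
    (Wr P Q).eval x ≠ 0 ∧ (derivative (Fp P Q y)).eval x * Q.eval x = (Wr P Q).eval x := by
  have h1 : (derivative (Fp P Q y)).eval x * Q.eval x = (Wr P Q).eval x := by
    rw [Wr_eq P Q y]
    simp [hx]
  refine ⟨fun h0 => ?_, h1⟩
  have h2 := h.crit x h0
  rw [(h.mem_fib.mp hx).2] at h2
  exact hy h2.2

lemma fib_card (h : Good d P Q A) {y : ℂ} (hy : y ∉ A) (hy' : P.coeff d ≠ y) :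
    (Fp P Q y).roots.Nodup ∧ (Fp P Q y).roots.toFinset.card = d ∧
      Fp P Q y = C (P.coeff d - y) * ∏ x ∈ (Fp P Q y).roots.toFinset, (X - C x) := by
  have hne := h.Fp_ne hy'
  have hnd : (Fp P Q y).roots.Nodup := by
    rw [Multiset.nodup_iff_count_le_one]
    intro x
    rw [count_roots]
    by_contra hcon
    push Not at hcon
    have hx : (Fp P Q y).eval x = 0 := (rootMultiplicity_pos hne).mp (by omega)
    have h1 : (derivative (Fp P Q y)).eval x = 0 := by
      have := (one_lt_rootMultiplicity_iff_isRoot hne).mp hcon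
      exact this.2
    have h2 := h.regular hy hx
    rw [h1, zero_mul] at h2
    exact h2.1 h2.2.symm
  have hcard : (Fp P Q y).roots.card = d := by
    have := IsAlgClosed.card_roots_eq_natDegree (p := Fp P Q y)
    rw [this, h.Fp_natDegree hy']
  refine ⟨hnd, ?_, ?_⟩
  · rw [Multiset.toFinset_card_of_nodup hnd, hcard]
  · have h1 := (IsAlgClosed.splits (Fp P Q y)).eq_prod_roots
    rw [h.Fp_lead hy'] at h1
    conv_lhs => rw [h1]
    congr 1
    rw [Finset.prod_eq_multiset_prod, Multiset.toFinset_val, hnd.dedup]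

/-- the formula for the push-forward -/
lemma push (h : Good d P Q A) {K : ℂ[X]} (hK : DA A * Wr P Q * K = ∏ a ∈ A, Fp P Q a)
    {N : ℂ[X]} (hn : 4 ≤ A.card) (hN : N.natDegree ≤ A.card - 4) {y : ℂ} (hy : y ∉ A)
    (hy' : P.coeff d ≠ y) :
    ∑ x ∈ (Fp P Q y).roots.toFinset,
      (N.eval x / (DA A).eval x) / ((Wr P Q).eval x / Q.eval x ^ 2) ^ 2 =
    ∑ a ∈ A, cf d P Q A a (N * Q ^ 2 * K) / (y - a) := by
  obtain ⟨hnd, hcard, hfac⟩ := h.fib_card hy hy'
  have hKd := h.K_natDegree hK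
  have hdd := h.hd
  set L := N * Q ^ 2 * K with hL
  have hLd : L.natDegree + 2 ≤ A.card * d := by
    have h1 : L.natDegree ≤ N.natDegree + 2 * d + K.natDegree := by
      rw [hL]
      refine natDegree_mul_le.trans (Nat.add_le_add_right (natDegree_mul_le.trans ?_) _)
      exact Nat.add_le_add_left (natDegree_pow_le.trans (by rw [h.Qd])) _
    omega
  set S := (Fp P Q y).roots.toFinset with hS
  have hmem : ∀ x ∈ S, (Fp P Q y).eval x = 0 := by
    intro x hx
    rw [hS, Multiset.mem_toFinset] at hx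
    exact (mem_roots (h.Fp_ne hy')).mp hx
  -- derivative at the roots
  have hder : ∀ x ∈ S, (derivative (Fp P Q y)).eval x =
      (P.coeff d - y) * ∏ x' ∈ S.erase x, (x - x') := by
    intro x hx
    rw [hfac, derivative_C_mul, eval_mul, eval_C]
    congr 1
    rw [← Finset.mul_prod_erase _ _ hx, derivative_mul]
    simp [eval_prod]
  have hA0 : ∀ x ∈ S, (DA A).eval x ≠ 0 := by
    intro x hx
    refine DA_eval_ne fun hxA => ?_
    have h1 := (h.maps x hxA).2
    rw [(h.mem_fib.mp (hmem x hx)).2] at h1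
    exact hy h1
  -- the identity at a root
  have key : ∀ x ∈ S, (N.eval x / (DA A).eval x) / ((Wr P Q).eval x / Q.eval x ^ 2) ^ 2 =
      ∑ a ∈ A, ((pf P Q A a L).eval x / ∏ x' ∈ S.erase x, (x - x')) /
        ((y - a) * (P.coeff d - y)) := by
    intro x hx
    have hx0 := hmem x hx
    obtain ⟨hQ, hPQ⟩ := h.mem_fib.mp hx0
    obtain ⟨hW, hWd⟩ := h.regular hy hx0
    have hLx := congrArg (eval x) (h.pf_sum (M := L)
      (lt_of_le_of_lt degree_le_natDegree (by exact_mod_cast (by omega : L.natDegree < A.card * d))))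
    rw [eval_finsetSum] at hLx
    have hKx := congrArg (eval x) hK
    rw [eval_prod] at hKx
    have hFa : ∀ a, (Fp P Q a).eval x = (y - a) * Q.eval x := by
      intro a
      rw [Fp_eval, ← hPQ]
      field_simp
    have hPrx : ∀ a ∈ A, (Pr P Q A a).eval x = (∏ b ∈ A, (Fp P Q b).eval x) /
        ((y - a) * Q.eval x) := by
      intro a ha
      have hya : (y - a) * Q.eval x ≠ 0 := mul_ne_zero (sub_ne_zero.mpr fun h0 => hy (h0 ▸ ha)) hQ
      rw [eq_div_iff hya, ← hFa a, mul_comm, Pr, eval_prod]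
      exact Finset.mul_prod_erase A (fun b => (Fp P Q b).eval x) ha
    have hprod : ∏ b ∈ A, (Fp P Q b).eval x ≠ 0 := by
      refine Finset.prod_ne_zero_iff.mpr fun b hb => ?_
      rw [hFa]
      exact mul_ne_zero (sub_ne_zero.mpr fun h0 => hy (h0 ▸ hb)) hQ
    have hpd : P.coeff d - y ≠ 0 := sub_ne_zero.mpr hy'
    have hP' : ∏ x' ∈ S.erase x, (x - x') ≠ 0 := by
      refine Finset.prod_ne_zero_iff.mpr fun x' hx' => ?_
      exact sub_ne_zero.mpr (Finset.ne_of_mem_erase hx').symm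
    -- sum of L_a / ((y-a) Q) = N Q^2 / (DA W)
    have e1 : ∑ a ∈ A, (pf P Q A a L).eval x / ((y - a) * Q.eval x) =
        N.eval x * Q.eval x ^ 2 / ((DA A).eval x * (Wr P Q).eval x) := by
      have e2 : ∑ a ∈ A, (pf P Q A a L).eval x / ((y - a) * Q.eval x) =
          (∑ a ∈ A, (pf P Q A a L * Pr P Q A a).eval x) / ∏ b ∈ A, (Fp P Q b).eval x := by
        rw [Finset.sum_div]
        refine Finset.sum_congr rfl fun a ha => ?_
        rw [eval_mul, hPrx a ha]
        have hya : (y - a) ≠ 0 := sub_ne_zero.mpr fun h0 => hy (h0 ▸ ha)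
        field_simp
      rw [e2, hLx, ← hKx, hL]
      simp only [eval_mul, eval_pow]
      have hDx := hA0 x hx
      have hKne : K.eval x ≠ 0 := by
        intro h0
        rw [← hKx, eval_mul, h0, mul_zero] at hprod
        exact hprod rfl
      field_simp
    have e3 : (Wr P Q).eval x = (P.coeff d - y) * (∏ x' ∈ S.erase x, (x - x')) * Q.eval x := by
      rw [← hWd, hder x hx]
    have hDx := hA0 x hx
    calc (N.eval x / (DA A).eval x) / ((Wr P Q).eval x / Q.eval x ^ 2) ^ 2
        = (N.eval x * Q.eval x ^ 2 / ((DA A).eval x * (Wr P Q).eval x)) *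
          (Q.eval x ^ 2 / (Wr P Q).eval x) := by field_simp
      _ = (∑ a ∈ A, (pf P Q A a L).eval x / ((y - a) * Q.eval x)) *
          (Q.eval x / ((P.coeff d - y) * (∏ x' ∈ S.erase x, (x - x')))) := by
          rw [← e1, e3]
          congr 1
          field_simp
      _ = _ := by
          rw [Finset.sum_mul]
          refine Finset.sum_congr rfl fun a ha => ?_
          have hya : (y - a) ≠ 0 := sub_ne_zero.mpr fun h0 => hy (h0 ▸ ha)
          field_simp
  rw [Finset.sum_congr rfl key, Finset.sum_comm]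
  have hlag : ∀ a ∈ A, ∑ x ∈ S, (pf P Q A a L).eval x / ∏ x' ∈ S.erase x, (x - x') =
      (pf P Q A a L).coeff (d - 1) := by
    intro a ha
    have := Lagrange.coeff_eq_sum (s := S) (v := id) Function.injective_id.injOn
      (P := pf P Q A a L) (by rw [hcard]; exact h.pf_degree ha L)
    rw [hcard] at this
    simpa using this.symm
  have hfin : ∀ a ∈ A, ∑ x ∈ S, ((pf P Q A a L).eval x / ∏ x' ∈ S.erase x, (x - x')) /
        ((y - a) * (P.coeff d - y)) =
      cf d P Q A a L / (y - a) + cf d P Q A a L / (P.coeff d - y) := by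
    intro a ha
    rw [← Finset.sum_div, hlag a ha]
    have hya : (y - a) ≠ 0 := sub_ne_zero.mpr fun h0 => hy (h0 ▸ ha)
    have hpa : P.coeff d - a ≠ 0 := sub_ne_zero.mpr (h.inf a ha)
    have hpd : P.coeff d - y ≠ 0 := sub_ne_zero.mpr hy'
    unfold cf
    field_simp
    ring
  rw [Finset.sum_congr rfl hfin, Finset.sum_add_distrib, ← Finset.sum_div, h.cf_sum hLd, zero_div,
    add_zero]

/-- the moments vanish -/
lemma moment (h : Good d P Q A) {K : ℂ[X]} (hK : DA A * Wr P Q * K = ∏ a ∈ A, Fp P Q a)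
    {N : ℂ[X]} (hn : 4 ≤ A.card) (hN : N.natDegree ≤ A.card - 4) {k : ℕ} (hk : k ≤ 2) :
    ∑ a ∈ A, cf d P Q A a (N * Q ^ 2 * K) * a ^ k = 0 := by
  have hKd := h.K_natDegree hK
  have hdd := h.hd
  have hdeg : (N * (P ^ k * Q ^ (2 - k)) * K).natDegree + 2 ≤ A.card * d := by
    have h1 : (N * (P ^ k * Q ^ (2 - k)) * K).natDegree ≤ N.natDegree + 2 * d + K.natDegree := by
      refine natDegree_mul_le.trans (Nat.add_le_add_right (natDegree_mul_le.trans ?_) _)
      refine Nat.add_le_add_left (natDegree_mul_le.trans ?_) _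
      have e1 : (P ^ k).natDegree ≤ k * d := natDegree_pow_le.trans (Nat.mul_le_mul_left _ h.Pd)
      have e2 : (Q ^ (2 - k)).natDegree ≤ (2 - k) * d :=
        natDegree_pow_le.trans (Nat.mul_le_mul_left _ h.Qd.le)
      calc (P ^ k).natDegree + (Q ^ (2 - k)).natDegree ≤ k * d + (2 - k) * d := add_le_add e1 e2
        _ = 2 * d := by rw [← add_mul]; congr 1; omega
    omega
  rw [← h.cf_sum hdeg]
  refine Finset.sum_congr rfl fun a ha => ?_
  rw [mul_comm, ← h.cf_C_mul ha]
  refine h.cf_congr ha ?_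
  have e : C (a ^ k) * (N * Q ^ 2 * K) - N * (P ^ k * Q ^ (2 - k)) * K =
      N * Q ^ (2 - k) * K * ((C a * Q) ^ k - P ^ k) := by
    have : Q ^ 2 = Q ^ (2 - k) * Q ^ k := by rw [← pow_add]; congr 1; omega
    rw [this, mul_pow, C_pow]
    ring
  rw [e]
  refine Dvd.dvd.mul_left ?_ _
  have h1 : C a * Q - P ∣ (C a * Q) ^ k - P ^ k := sub_dvd_pow_sub_pow _ _ k
  have h2 : Fp P Q a ∣ C a * Q - P := ⟨-1, by unfold Fp; ring⟩
  exact h2.trans h1

end Good

end

end Pool.Agent.H22
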