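import Pool.Agent.H22.Alg2

/-!
The pairing of quadratic differentials with the infinitesimal deformation given by a derivation of
the field of complex numbers.
-/

set_option autoImplicit false
open Polynomial

namespace Pool.Agent.H22

noncomputable section

/-- a derivation of `ℂ` acting on the coefficients of polynomials -/
def dm (D : Derivation ℤ ℂ ℂ) (p : ℂ[X]) : ℂ[X] := ∑ k ∈ p.support, monomial k (D (p.coeff k))

lemma dm_coeff (D : Derivation ℤ ℂ ℂ) (p : ℂ[X]) (k : ℕ) : (dm D p).coeff k = D (p.coeff k) := by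
  unfold dm
  rw [finsetSum_coeff]
  simp only [coeff_monomial]
  rw [Finset.sum_ite_eq' p.support k (fun j => D (p.coeff j))]
  split_ifs with h
  · rfl
  · rw [notMem_support_iff.mp h, map_zero]

lemma dm_add (D : Derivation ℤ ℂ ℂ) (p q : ℂ[X]) : dm D (p + q) = dm D p + dm D q := by
  ext k
  simp only [dm_coeff, coeff_add, map_add]

lemma dm_sub (D : Derivation ℤ ℂ ℂ) (p q : ℂ[X]) : dm D (p - q) = dm D p - dm D q := by
  ext k
  simp only [dm_coeff, coeff_sub, map_sub]

lemma dm_mul (D : Derivation ℤ ℂ ℂ) (p q : ℂ[X]) : dm D (p * q) = dm D p * q + p * dm D q := by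
  ext k
  simp only [dm_coeff, coeff_add, coeff_mul, map_sum, Derivation.leibniz, smul_eq_mul]
  rw [← Finset.sum_add_distrib]
  refine Finset.sum_congr rfl fun x _ => ?_
  ring

lemma dm_C (D : Derivation ℤ ℂ ℂ) (c : ℂ) : dm D (C c) = C (D c) := by
  ext k
  rw [dm_coeff, coeff_C, coeff_C]
  split_ifs <;> simp

lemma dm_X (D : Derivation ℤ ℂ ℂ) : dm D X = 0 := by
  ext k
  rw [dm_coeff, coeff_X]
  split_ifs <;> simp

lemma dm_X_sub_C (D : Derivation ℤ ℂ ℂ) (c : ℂ) : dm D (X - C c) = - C (D c) := by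
  rw [dm_sub, dm_X, dm_C, zero_sub]

lemma dm_pow (D : Derivation ℤ ℂ ℂ) (c : ℂ) (e : ℕ) :
    dm D ((X - C c) ^ (e + 1)) = - (C ((e + 1 : ℕ) : ℂ) * C (D c) * (X - C c) ^ e) := by
  induction e with
  | zero => simp [dm_X_sub_C]
  | succ k ih =>
    rw [pow_succ, dm_mul, ih, dm_X_sub_C]
    push_cast
    simp only [C_add, C_1]
    ring

lemma dm_natDegree_le (D : Derivation ℤ ℂ ℂ) (p : ℂ[X]) : (dm D p).natDegree ≤ p.natDegree := by
  rw [natDegree_le_iff_coeff_eq_zero]
  intro k hk
  rw [dm_coeff, coeff_eq_zero_of_natDegree_lt hk, map_zero]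

namespace Good

variable {d : ℕ} {P Q : ℂ[X]} {A : Finset ℂ}

/-- the residue of `N / DA` at `x` -/
def res (A : Finset ℂ) (N : ℂ[X]) (x : ℂ) : ℂ := N.eval x / (derivative (DA A)).eval x

lemma DA_deriv_ne {x : ℂ} (hx : x ∈ A) : (derivative (DA A)).eval x ≠ 0 := by
  have h1 : (derivative (DA A)).eval x = ∏ b ∈ A.erase x, (x - b) := by
    unfold DA
    rw [← Finset.mul_prod_erase _ _ hx, derivative_mul]
    simp [eval_prod]
  rw [h1]
  exact Finset.prod_ne_zero_iff.mpr fun b hb => sub_ne_zero.mpr (Finset.ne_of_mem_erase hb).symm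

open Classical in
lemma pair_local (h : Good d P Q A) {K : ℂ[X]} (hK : DA A * Wr P Q * K = ∏ a ∈ A, Fp P Q a)
    (D : Derivation ℤ ℂ ℂ) (N : ℂ[X]) {a : ℂ} (ha : a ∈ A) :
    cf d P Q A a (N * K * Q * dm D (Fp P Q a)) =
      - ∑ x ∈ A with P.eval x / Q.eval x = a, res A N x * D x := by
  have hne := h.Fp_ne (h.inf a ha)
  have hpa : P.coeff d - a ≠ 0 := sub_ne_zero.mpr (h.inf a ha)
  set S := A.filter (fun x => P.eval x / Q.eval x = a) with hS
  have hroot : ∀ x ∈ S, (Fp P Q a).eval x = 0 := by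
    intro x hx
    rw [hS, Finset.mem_filter] at hx
    exact h.mem_fib.mpr ⟨(h.maps x hx.1).1, hx.2⟩
  -- the quotient F_a / (X - x)
  set q : ℂ → ℂ[X] := fun x => Fp P Q a /ₘ (X - C x) with hq
  have hqx : ∀ x, (Fp P Q a).eval x = 0 → (X - C x) * q x = Fp P Q a := by
    intro x hx
    exact mul_divByMonic_eq_iff_isRoot.mpr hx
  have hqd : ∀ x, (Fp P Q a).eval x = 0 → (q x).natDegree = d - 1 ∧ (q x).coeff (d - 1) = P.coeff d - a := by
    intro x hx
    have h1 := hqx x hx
    have hq0 : q x ≠ 0 := by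
      intro h0
      rw [h0, mul_zero] at h1
      exact hne h1.symm
    have h2 := congrArg natDegree h1
    rw [natDegree_mul (X_sub_C_ne_zero x) hq0, natDegree_X_sub_C, h.Fp_natDegree (h.inf a ha)] at h2
    have h3 : (q x).natDegree = d - 1 := by omega
    refine ⟨h3, ?_⟩
    have h4 := congrArg leadingCoeff h1
    rw [leadingCoeff_mul, leadingCoeff_X_sub_C, one_mul, h.Fp_lead (h.inf a ha), leadingCoeff, h3] at h4
    exact h4
  set E : ℂ[X] := - ∑ x ∈ S, C (res A N x * D x) * q x with hE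
  have hEd : E.degree < d := by
    rw [hE, degree_neg]
    refine lt_of_le_of_lt (degree_sum_le _ _) ?_
    rw [Finset.sup_lt_iff (WithBot.bot_lt_coe _)]
    intro x hx
    refine lt_of_le_of_lt degree_le_natDegree ?_
    have h1 := (hqd x (hroot x hx)).1
    have h2 : (C (res A N x * D x) * q x).natDegree ≤ d - 1 := (natDegree_C_mul_le _ _).trans h1.le
    have := h.d_pos
    exact_mod_cast (by omega : (C (res A N x * D x) * q x).natDegree < d)
  have hpf : pf P Q A a (N * K * Q * dm D (Fp P Q a)) = E := by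
    refine h.pf_unique ha hEd ?_
    by_cases hZ : E * Pr P Q A a - N * K * Q * dm D (Fp P Q a) = 0
    · rw [hZ]; exact dvd_zero _
    rw [IsAlgClosed.dvd_iff_roots_le_roots hne hZ, Multiset.le_iff_count]
    intro x
    rw [count_roots, count_roots]
    by_cases hx : (Fp P Q a).eval x = 0
    swap
    · rw [rootMultiplicity_eq_zero hx]; exact Nat.zero_le _
    rw [le_rootMultiplicity_iff hZ]
    obtain ⟨u, he, hu, hux⟩ := h.local_data ha hx
    have hval := h.K_eval hK ha hx
    set e := rootMultiplicity x (Fp P Q a) with he_def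
    obtain ⟨k, hk⟩ : ∃ k, e = k + 1 := ⟨e - 1, by omega⟩
    rw [hk] at hu ⊢
    have hX : (X - C x) ≠ (0 : ℂ[X]) := X_sub_C_ne_zero x
    -- q x = (X - x)^k u
    have hqxx : q x = (X - C x) ^ k * u := by
      apply mul_left_cancel₀ hX
      rw [hqx x hx, hu]
      ring
    -- other q
    have hother : ∀ x' ∈ S, x' ≠ x → (X - C x) ^ (k + 1) ∣ q x' := by
      intro x' hx' hne'
      have h1 : (X - C x) ^ (k + 1) ∣ (X - C x') * q x' := by
        rw [hqx x' (hroot x' hx'), hu]
        exact dvd_mul_right _ _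
      refine IsCoprime.dvd_of_dvd_mul_left ?_ h1
      exact (isCoprime_X_sub_C_of_isUnit_sub (sub_ne_zero.mpr hne'.symm).isUnit).pow_left
    -- the sum
    have hEsum : (X - C x) ^ (k + 1) ∣ E + (if x ∈ S then C (res A N x * D x) * q x else 0) := by
      rw [hE]
      split_ifs with hxS
      · rw [← Finset.add_sum_erase _ _ hxS]
        have e1 : -(C (res A N x * D x) * q x + ∑ x' ∈ S.erase x, C (res A N x' * D x') * q x') +
            C (res A N x * D x) * q x = -∑ x' ∈ S.erase x, C (res A N x' * D x') * q x' := by ring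
        rw [e1]
        refine (dvd_neg).mpr (Finset.dvd_sum fun x' hx' => ?_)
        exact (hother x' (Finset.mem_of_mem_erase hx') (Finset.ne_of_mem_erase hx')).mul_left _
      · rw [add_zero]
        refine (dvd_neg).mpr (Finset.dvd_sum fun x' hx' => ?_)
        refine (hother x' hx' ?_).mul_left _
        rintro rfl
        exact hxS hx'
    -- dm F_a
    have hdm : dm D (Fp P Q a) = - (C ((k + 1 : ℕ) : ℂ) * C (D x) * (X - C x) ^ k) * u +
        (X - C x) ^ (k + 1) * dm D u := by
      rw [hu, dm_mul, dm_pow]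
    -- value
    have hxS : x ∈ S ↔ x ∈ A := by
      rw [hS, Finset.mem_filter]
      exact ⟨fun h1 => h1.1, fun h1 => ⟨h1, (h.mem_fib.mp hx).2⟩⟩
    have hlast : (X - C x) ∣ C ((k + 1 : ℕ) : ℂ) * N * K * Q -
        (if x ∈ S then C (res A N x) else 0) * Pr P Q A a := by
      rw [dvd_iff_isRoot, IsRoot.def]
      split_ifs with hxS'
      · have hxA := hxS.mp hxS'
        have hval := hval.1 hxA
        rw [hk] at hval
        simp only [eval_sub, eval_mul, eval_C]
        rw [← hval]
        unfold res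
        have := DA_deriv_ne hxA
        field_simp
        ring
      · have hxA : x ∉ A := fun h1 => hxS' (hxS.mpr h1)
        have hK0 : K.eval x = 0 := hval.2 hxA
        simp [hK0]
    -- conclusion
    have hfin : (X - C x) ^ (k + 1) ∣ (X - C x) ^ k * u * C (D x) *
        (C ((k + 1 : ℕ) : ℂ) * N * K * Q - (if x ∈ S then C (res A N x) else 0) * Pr P Q A a) := by
      obtain ⟨w, hw⟩ := hlast
      rw [hw]
      refine ⟨u * C (D x) * w, by ring⟩
    obtain ⟨w1, hw1⟩ := hEsum
    obtain ⟨w2, hw2⟩ := hfin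
    refine ⟨w1 * Pr P Q A a + w2 - N * K * Q * dm D u, ?_⟩
    rw [hdm]
    split_ifs at hw1 hw2 with hxS'
    · rw [hqxx, C_mul] at hw1
      linear_combination (Pr P Q A a) * hw1 + hw2
    · linear_combination (Pr P Q A a) * hw1 + hw2
  unfold cf
  rw [hpf, hE, coeff_neg, finsetSum_coeff]
  have h1 : ∀ x ∈ S, (C (res A N x * D x) * q x).coeff (d - 1) =
      (res A N x * D x) * (P.coeff d - a) := by
    intro x hx
    rw [coeff_C_mul, (hqd x (hroot x hx)).2]
  rw [Finset.sum_congr rfl h1, ← Finset.sum_mul, neg_div, mul_div_assoc, div_self hpa, mul_one]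

end Good

end

end Pool.Agent.H22
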