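import Pool.Agent.H22.Alg3

/-!
The push-forward operator and the linear algebra of infinitesimal rigidity.
-/

set_option autoImplicit false
open Polynomial

namespace Pool.Agent.H22

noncomputable section

namespace Good

variable {d : ℕ} {P Q : ℂ[X]} {A : Finset ℂ}

/-- the pairing identity -/
lemma pairing (h : Good d P Q A) {K : ℂ[X]} (hK : DA A * Wr P Q * K = ∏ a ∈ A, Fp P Q a)
    (D : Derivation ℤ ℂ ℂ) {N : ℂ[X]} (hn : 4 ≤ A.card) (hN : N.natDegree ≤ A.card - 4) :
    ∑ a ∈ A, cf d P Q A a (N * Q ^ 2 * K) * D a = ∑ x ∈ A, res A N x * D x := by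
  classical
  have hKd := h.K_natDegree hK
  have hdd := h.hd
  set U := dm D P * Q - P * dm D Q with hU
  have hUd : U.natDegree ≤ 2 * d := by
    rw [hU]
    refine (natDegree_sub_le _ _).trans (max_le ?_ ?_)
    · refine natDegree_mul_le.trans ?_
      have := dm_natDegree_le D P
      have := h.Pd
      have := h.Qd
      omega
    · refine natDegree_mul_le.trans ?_
      have := dm_natDegree_le D Q
      have := h.Pd
      have := h.Qd
      omega
  have hdeg : (N * U * K).natDegree + 2 ≤ A.card * d := by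
    have h1 : (N * U * K).natDegree ≤ N.natDegree + 2 * d + K.natDegree :=
      natDegree_mul_le.trans (Nat.add_le_add_right (natDegree_mul_le.trans
        (Nat.add_le_add_left hUd _)) _)
    omega
  have h0 := h.cf_sum hdeg
  have h1 : ∀ a ∈ A, cf d P Q A a (N * U * K) = D a * cf d P Q A a (N * Q ^ 2 * K) -
      ∑ x ∈ A with P.eval x / Q.eval x = a, res A N x * D x := by
    intro a ha
    rw [sub_eq_add_neg, ← h.pair_local hK D N ha, ← h.cf_C_mul ha, ← cf_add]
    refine h.cf_congr ha ?_
    have e : dm D (Fp P Q a) = dm D P - (C (D a) * Q + C a * dm D Q) := by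
      unfold Fp
      rw [dm_sub, dm_mul, dm_C]
    refine ⟨- N * K * dm D Q, ?_⟩
    rw [e, hU]
    unfold Fp
    ring
  rw [Finset.sum_congr rfl h1, Finset.sum_sub_distrib] at h0
  have h2 : ∑ a ∈ A, ∑ x ∈ A with P.eval x / Q.eval x = a, res A N x * D x =
      ∑ x ∈ A, res A N x * D x :=
    Finset.sum_fiberwise_of_maps_to (fun x hx => (h.maps x hx).2) _
  rw [h2] at h0
  rw [← sub_eq_zero, ← h0]
  congr 1
  exact Finset.sum_congr rfl fun a _ => mul_comm _ _

/-- the push-forward operator on numerators -/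
def T (h : Good d P Q A) (K : ℂ[X]) : ℂ[X] →ₗ[ℂ] ℂ[X] where
  toFun N := ∑ a ∈ A, C (cf d P Q A a (N * Q ^ 2 * K)) * DA (A.erase a)
  map_add' N M := by
    rw [← Finset.sum_add_distrib]
    refine Finset.sum_congr rfl fun a _ => ?_
    rw [add_mul, add_mul, cf_add, C_add, add_mul]
  map_smul' c N := by
    simp only [RingHom.id_apply]
    rw [Finset.smul_sum]
    refine Finset.sum_congr rfl fun a ha => ?_
    rw [smul_eq_C_mul, smul_eq_C_mul, mul_assoc, mul_assoc, ← mul_assoc N, h.cf_C_mul ha, C_mul,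
      mul_assoc]

lemma T_apply (h : Good d P Q A) (K N : ℂ[X]) :
    h.T K N = ∑ a ∈ A, C (cf d P Q A a (N * Q ^ 2 * K)) * DA (A.erase a) := rfl

lemma DA_erase_eval {a b : ℂ} (hab : b ≠ a) (hb : b ∈ A) :
    (DA (A.erase a)).eval b = 0 := DA_eval_eq (Finset.mem_erase.mpr ⟨hab, hb⟩)

lemma DA_deriv {a : ℂ} (ha : a ∈ A) :
    (derivative (DA A)).eval a = (DA (A.erase a)).eval a := by
  unfold DA
  rw [← Finset.mul_prod_erase _ _ ha, derivative_mul]
  simp

lemma T_eval (h : Good d P Q A) (K N : ℂ[X]) {a : ℂ} (ha : a ∈ A) :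
    (h.T K N).eval a = cf d P Q A a (N * Q ^ 2 * K) * (derivative (DA A)).eval a := by
  rw [h.T_apply, eval_finsetSum, Finset.sum_eq_single a]
  · rw [eval_mul, eval_C, DA_deriv ha]
  · intro b _ hba
    rw [eval_mul, DA_erase_eval hba.symm ha, mul_zero]
  · intro hna
    exact absurd ha hna

lemma T_res (h : Good d P Q A) (K N : ℂ[X]) {a : ℂ} (ha : a ∈ A) :
    res A (h.T K N) a = cf d P Q A a (N * Q ^ 2 * K) := by
  unfold res
  rw [h.T_eval K N ha]
  field_simp [DA_deriv_ne ha]

lemma T_div (h : Good d P Q A) (K N : ℂ[X]) {y : ℂ} (hy : y ∉ A) :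
    (h.T K N).eval y / (DA A).eval y = ∑ a ∈ A, cf d P Q A a (N * Q ^ 2 * K) / (y - a) := by
  rw [h.T_apply, eval_finsetSum, Finset.sum_div]
  refine Finset.sum_congr rfl fun a ha => ?_
  have h1 : (DA A).eval y = (y - a) * (DA (A.erase a)).eval y := by
    rw [DA_eval, DA_eval, ← Finset.mul_prod_erase _ _ ha]
  have h2 : (DA A).eval y ≠ 0 := DA_eval_ne hy
  have h3 : (DA (A.erase a)).eval y ≠ 0 := DA_eval_ne fun h4 => hy (Finset.mem_of_mem_erase h4)
  have h4 : y - a ≠ 0 := sub_ne_zero.mpr fun h5 => hy (h5 ▸ ha)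
  rw [h1, eval_mul, eval_C]
  field_simp

lemma T_natDegree_lt (h : Good d P Q A) (K N : ℂ[X]) (hn : 0 < A.card) :
    (h.T K N).degree < A.card := by
  rw [h.T_apply]
  refine lt_of_le_of_lt (degree_sum_le _ _) ?_
  rw [Finset.sup_lt_iff (WithBot.bot_lt_coe _)]
  intro a ha
  refine lt_of_le_of_lt degree_le_natDegree ?_
  have h1 : (C (cf d P Q A a (N * Q ^ 2 * K)) * DA (A.erase a)).natDegree ≤ A.card - 1 := by
    refine (natDegree_C_mul_le _ _).trans ?_
    rw [DA_natDegree, Finset.card_erase_of_mem ha]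
  exact_mod_cast (by omega : (C (cf d P Q A a (N * Q ^ 2 * K)) * DA (A.erase a)).natDegree < A.card)

/-- a polynomial with vanishing moments has small degree -/
lemma degree_of_moments {M : ℂ[X]} {k : ℕ} (hk : k ≤ A.card) (hM : M.degree < A.card)
    (hmom : ∀ j < k, ∑ a ∈ A, res A M a * a ^ j = 0) : M.degree < (A.card - k : ℕ) := by
  induction k with
  | zero => simpa using hM
  | succ k ih =>
    have h1 := ih (by omega) (fun j hj => hmom j (by omega))
    have hc : M.coeff (A.card - (k + 1)) = 0 := by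
      have hdeg : (X ^ k * M).degree < (A.card : WithBot ℕ) := by
        by_cases hM0 : M = 0
        · rw [hM0, mul_zero, degree_zero]; exact WithBot.bot_lt_coe _
        · rw [degree_mul, degree_X_pow, degree_eq_natDegree hM0] at *
          have : M.natDegree < A.card - k := by exact_mod_cast h1
          exact_mod_cast (by omega : k + M.natDegree < A.card)
      have h2 := Lagrange.coeff_eq_sum (s := A) (v := id) Function.injective_id.injOn
        (P := X ^ k * M) hdeg
      have e : A.card - 1 = (A.card - (k + 1)) + k := by omega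
      rw [e, coeff_X_pow_mul] at h2
      rw [h2, ← hmom k (by omega)]
      refine Finset.sum_congr rfl fun a ha => ?_
      have h3 : (derivative (DA A)).eval a = ∏ b ∈ A.erase a, (a - b) := by
        rw [DA_deriv ha, DA_eval]
      unfold res
      rw [h3]
      simp only [id, eval_mul, eval_pow, eval_X]
      ring
    rw [degree_lt_iff_coeff_zero] at h1 ⊢
    intro m hm
    rcases Nat.lt_or_ge m (A.card - k) with h4 | h4
    · have : m = A.card - (k + 1) := by omega
      rw [this, hc]
    · exact h1 m h4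

lemma T_degree (h : Good d P Q A) {K : ℂ[X]} (hK : DA A * Wr P Q * K = ∏ a ∈ A, Fp P Q a)
    {N : ℂ[X]} (hn : 4 ≤ A.card) (hN : N.natDegree ≤ A.card - 4) :
    (h.T K N).degree < (A.card - 3 : ℕ) := by
  refine degree_of_moments (by omega) (h.T_natDegree_lt K N (by omega)) fun j hj => ?_
  rw [← h.moment hK hn hN (k := j) (by omega)]
  exact Finset.sum_congr rfl fun a ha => by rw [h.T_res K N ha]

/-- if the push-forward has no fixed vector, then there is no deformation of the postcritical
set -/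
lemma rigid_points (h : Good d P Q A) {K : ℂ[X]} (hK : DA A * Wr P Q * K = ∏ a ∈ A, Fp P Q a)
    (hn : 4 ≤ A.card)
    (hinj : ∀ N : ℂ[X], N.natDegree ≤ A.card - 4 → h.T K N = N → N = 0)
    (D : Derivation ℤ ℂ ℂ) {a₁ a₂ a₃ : ℂ} (h1 : a₁ ∈ A) (h2 : a₂ ∈ A) (h3 : a₃ ∈ A)
    (h12 : a₁ ≠ a₂) (h13 : a₁ ≠ a₃) (h23 : a₂ ≠ a₃) (d1 : D a₁ = 0) (d2 : D a₂ = 0)
    (d3 : D a₃ = 0) : ∀ a ∈ A, D a = 0 := by
  classical
  set V := degreeLT ℂ (A.card - 3) with hV
  have hVmem : ∀ N : ℂ[X], N ∈ V ↔ N.natDegree ≤ A.card - 4 := by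
    intro N
    rw [hV, mem_degreeLT]
    constructor
    · intro h4
      by_cases h0 : N = 0
      · simp [h0]
      · rw [degree_eq_natDegree h0] at h4
        have : N.natDegree < A.card - 3 := by exact_mod_cast h4
        omega
    · intro h4
      refine lt_of_le_of_lt degree_le_natDegree ?_
      exact_mod_cast (by omega : N.natDegree < A.card - 3)
  have hmap : ∀ N ∈ V, ((LinearMap.id : ℂ[X] →ₗ[ℂ] ℂ[X]) - h.T K) N ∈ V := by
    intro N hN
    simp only [LinearMap.sub_apply, LinearMap.id_apply]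
    refine V.sub_mem hN ?_
    rw [hV, mem_degreeLT]
    exact h.T_degree hK hn ((hVmem N).mp hN)
  set L := ((LinearMap.id : ℂ[X] →ₗ[ℂ] ℂ[X]) - h.T K).restrict hmap with hL
  have hinj' : Function.Injective L := by
    rw [injective_iff_map_eq_zero]
    intro N hN0
    have h4 : ((LinearMap.id : ℂ[X] →ₗ[ℂ] ℂ[X]) - h.T K) (N : ℂ[X]) = 0 := by
      have := congrArg Subtype.val hN0
      simpa [hL] using this
    simp only [LinearMap.sub_apply, LinearMap.id_apply] at h4
    exact Subtype.ext (hinj N ((hVmem N).mp N.2) (sub_eq_zero.mp h4).symm)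
  have hsurj : Function.Surjective L := LinearMap.injective_iff_surjective.mp hinj'
  intro a ha
  by_contra hDa
  have e1 : a ≠ a₁ := fun h4 => hDa (h4 ▸ d1)
  have e2 : a ≠ a₂ := fun h4 => hDa (h4 ▸ d2)
  have e3 : a ≠ a₃ := fun h4 => hDa (h4 ▸ d3)
  set B := (((A.erase a).erase a₁).erase a₂).erase a₃ with hB
  have hBcard : B.card = A.card - 4 := by
    rw [hB, Finset.card_erase_of_mem, Finset.card_erase_of_mem, Finset.card_erase_of_mem,
      Finset.card_erase_of_mem ha]
    · omega
    · simp [h1, e1.symm]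
    · simp [h2, e2.symm, h12.symm]
    · simp [h3, e3.symm, h13.symm, h23.symm]
  have hN0 : DA B ∈ V := by
    rw [hVmem, DA_natDegree, hBcard]
  obtain ⟨N, hN⟩ := hsurj ⟨DA B, hN0⟩
  have h4 : (N : ℂ[X]) - h.T K N = DA B := by
    have := congrArg Subtype.val hN
    simpa [hL] using this
  have h5 := h.pairing hK D hn ((hVmem N).mp N.2)
  have h6 : ∑ x ∈ A, res A (DA B) x * D x = 0 := by
    rw [← h4]
    have : ∀ x ∈ A, res A ((N : ℂ[X]) - h.T K N) x * D x =
        res A (N : ℂ[X]) x * D x - cf d P Q A x ((N : ℂ[X]) * Q ^ 2 * K) * D x := by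
      intro x hx
      rw [← h.T_res K N hx]
      unfold res
      rw [eval_sub]
      ring
    rw [Finset.sum_congr rfl this, Finset.sum_sub_distrib, h5, sub_self]
  rw [Finset.sum_eq_single_of_mem a ha] at h6
  · have h7 : res A (DA B) a ≠ 0 := by
      unfold res
      refine div_ne_zero (DA_eval_ne ?_) (DA_deriv_ne ha)
      rw [hB]
      simp
    exact hDa ((mul_eq_zero.mp h6).resolve_left h7)
  · intro b hb hba
    by_cases b1 : b = a₁
    · rw [b1, d1, mul_zero]
    by_cases b2 : b = a₂
    · rw [b2, d2, mul_zero]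
    by_cases b3 : b = a₃
    · rw [b3, d3, mul_zero]
    have : res A (DA B) b = 0 := by
      unfold res
      rw [DA_eval_eq, zero_div]
      rw [hB]
      simp [hb, hba, b1, b2, b3]
    rw [this, zero_mul]

/-- if the postcritical set does not move then the map does not move -/
lemma rigid_map (h : Good d P Q A) (D : Derivation ℤ ℂ ℂ) (hA : ∀ a ∈ A, D a = 0)
    (hn : 3 ≤ A.card) : dm D P = 0 ∧ dm D Q = 0 := by
  set U := dm D P * Q - P * dm D Q with hU
  have hUa : ∀ a ∈ A, U = dm D (Fp P Q a) * Q - Fp P Q a * dm D Q := by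
    intro a ha
    have e : dm D (Fp P Q a) = dm D P - (C (D a) * Q + C a * dm D Q) := by
      unfold Fp
      rw [dm_sub, dm_mul, dm_C]
    rw [e, hA a ha, hU, C_0]
    unfold Fp
    ring
  have hUd : U.natDegree ≤ 2 * d := by
    rw [hU]
    refine (natDegree_sub_le _ _).trans (max_le ?_ ?_)
    · refine natDegree_mul_le.trans ?_
      have := dm_natDegree_le D P
      have := h.Pd
      have := h.Qd
      omega
    · refine natDegree_mul_le.trans ?_
      have := dm_natDegree_le D Q
      have := h.Pd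
      have := h.Qd
      omega
  have hU0 : U = 0 := by
    by_contra hne
    -- DA A * W divides U
    have hdvd : DA A * Wr P Q ∣ U := by
      have hD : DA A ≠ 0 := (DA_monic A).ne_zero
      rw [IsAlgClosed.dvd_iff_roots_le_roots (mul_ne_zero hD h.Wr_ne) hne, Multiset.le_iff_count]
      intro x
      rw [count_roots, count_roots, rootMultiplicity_mul (mul_ne_zero hD h.Wr_ne)]
      have h1 : rootMultiplicity x (DA A) = if x ∈ A then 1 else 0 := by
        rw [← count_roots]
        unfold DA
        rw [roots_prod_X_sub_C]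
        split_ifs with hx
        · exact Multiset.count_eq_one_of_mem A.nodup hx
        · exact Multiset.count_eq_zero_of_notMem hx
      by_cases hex : ∃ a ∈ A, (Fp P Q a).eval x = 0
      · obtain ⟨a, ha, hx⟩ := hex
        obtain ⟨u, he, hu, hux⟩ := h.local_data ha hx
        rw [h.Wr_mult ha hx, h1, le_rootMultiplicity_iff hne]
        obtain ⟨k, hk⟩ : ∃ k, rootMultiplicity x (Fp P Q a) = k + 1 :=
          ⟨rootMultiplicity x (Fp P Q a) - 1, by omega⟩
        rw [hk] at hu ⊢
        rw [hUa a ha, hu, dm_mul, dm_pow]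
        split_ifs with hxA
        · rw [hA x hxA, C_0]
          refine ⟨dm D u * Q - u * dm D Q, ?_⟩
          simp only [Nat.add_sub_cancel]
          ring
        · refine ⟨-(C ((k + 1 : ℕ) : ℂ) * C (D x) * u) * Q + (X - C x) * dm D u * Q -
            (X - C x) * u * dm D Q, ?_⟩
          simp only [Nat.add_sub_cancel, zero_add]
          ring
      · push Not at hex
        have hxA : x ∉ A := fun hx => hex _ (h.fib_self hx).1 (h.fib_self hx).2
        have hW : (Wr P Q).eval x ≠ 0 := by
          intro h0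
          have := h.crit x h0
          exact hex _ this.2 (h.mem_fib.mpr ⟨this.1, rfl⟩)
        rw [h1, if_neg hxA, rootMultiplicity_eq_zero hW]
        exact Nat.zero_le _
    have h2 := natDegree_le_of_dvd hdvd hne
    rw [natDegree_mul (DA_monic A).ne_zero h.Wr_ne, DA_natDegree, h.Wr_natDegree] at h2
    have := h.hd
    omega
  have h1 : dm D P * Q = P * dm D Q := sub_eq_zero.mp (hU ▸ hU0)
  have h2 : Q ∣ dm D Q := by
    have h3 : Q ∣ P * dm D Q := ⟨dm D P, by rw [← h1]; ring⟩
    exact (IsCoprime.symm h.cop).dvd_of_dvd_mul_left h3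
  have h4 : dm D Q = 0 := by
    by_contra hne
    have h5 := natDegree_le_of_dvd h2 hne
    have h6 : (dm D Q).coeff d = 0 := by rw [dm_coeff, h.Qcoeff]; simp
    have h7 := dm_natDegree_le D Q
    have h8 : (dm D Q).natDegree = d := by have := h.Qd; omega
    have h9 : (dm D Q).leadingCoeff = 0 := by rw [leadingCoeff, h8, h6]
    exact hne (leadingCoeff_eq_zero.mp h9)
  refine ⟨?_, h4⟩
  rw [h4, mul_zero] at h1
  exact (mul_eq_zero.mp h1).resolve_right h.Q_ne

end Good

end

end Pool.Agent.H22
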