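import Pool.Agent.H22.Lat1

/-!
Integrability of quadratic differentials with at most simple poles.
-/

set_option autoImplicit false
open Polynomial MeasureTheory Set Filter Topology
open scoped ENNReal

namespace Pool.Agent.H22

lemma integrable_radial : Integrable (fun x : ℂ => (‖x‖)⁻¹ * ((1 + ‖x‖) ^ 2)⁻¹) := by
  have h1 := (integrable_fun_norm_addHaar (volume : Measure ℂ)
    (f := fun t : ℝ => t⁻¹ * ((1 + t) ^ 2)⁻¹)).mpr ?_
  · exact h1
  · have h2 : Integrable (fun x : ℝ => (1 + ‖x‖) ^ (-(2 : ℝ))) := by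
      apply integrable_one_add_norm
      simp
    refine h2.integrableOn.congr_fun ?_ measurableSet_Ioi
    intro t ht
    have ht' : (0 : ℝ) < t := ht
    simp only [Complex.finrank_real_complex, smul_eq_mul]
    rw [Real.norm_of_nonneg ht'.le, Real.rpow_neg (by positivity)]
    norm_num
    field_simp

lemma norm_eval_le (N : ℂ[X]) : ∃ C : ℝ, 0 ≤ C ∧ ∀ x : ℂ, ‖N.eval x‖ ≤ C * (1 + ‖x‖) ^ N.natDegree := by
  refine ⟨∑ i ∈ Finset.range (N.natDegree + 1), ‖N.coeff i‖, by positivity, fun x => ?_⟩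
  rw [eval_eq_sum_range, Finset.sum_mul]
  refine (norm_sum_le _ _).trans (Finset.sum_le_sum fun i hi => ?_)
  rw [norm_mul, norm_pow]
  refine mul_le_mul_of_nonneg_left ?_ (norm_nonneg _)
  calc ‖x‖ ^ i ≤ (1 + ‖x‖) ^ i := by gcongr; linarith
    _ ≤ (1 + ‖x‖) ^ N.natDegree := by
        refine pow_le_pow_right₀ (by linarith [norm_nonneg x]) ?_
        have := Finset.mem_range.mp hi
        omega

/-- pointwise bound -/
lemma bound_R (A : Finset ℂ) (N : ℂ[X]) (hN : N.natDegree + 3 ≤ A.card) :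
    ∃ C : ℝ, ∀ x : ℂ, ‖N.eval x / (DA A).eval x‖ ≤
      C * ∑ a ∈ A, ‖x - a‖⁻¹ * ((1 + ‖x - a‖) ^ 2)⁻¹ := by
  classical
  obtain ⟨C₀, hC₀, hC⟩ := norm_eval_le N
  -- separation constant
  obtain ⟨δ, hδ, hsep⟩ : ∃ δ : ℝ, 0 < δ ∧ ∀ a ∈ A, ∀ b ∈ A, a ≠ b → 2 * δ ≤ ‖a - b‖ := by
    set E := (A ×ˢ A).filter (fun p => p.1 ≠ p.2) with hE
    rcases E.eq_empty_or_nonempty with h0 | h0
    · refine ⟨1, one_pos, fun a ha b hb hab => ?_⟩
      have : (a, b) ∈ E := by simp [hE, ha, hb, hab]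
      rw [h0] at this
      simp at this
    · obtain ⟨p, hp, hmin⟩ := E.exists_min_image (fun p => ‖p.1 - p.2‖) h0
      have hp' : p.1 ≠ p.2 := by simp [hE] at hp; exact hp.2
      refine ⟨‖p.1 - p.2‖ / 2, by have := norm_pos_iff.mpr (sub_ne_zero.mpr hp'); linarith,
        fun a ha b hb hab => ?_⟩
      have : (a, b) ∈ E := by simp [hE, ha, hb, hab]
      have := hmin _ this
      linarith
  set κ := δ / (1 + δ) with hκ
  have hκ0 : 0 < κ := by positivity
  -- bound on 1 + |x| in terms of 1 + |x - a|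
  obtain ⟨M, hM0, hM⟩ : ∃ M : ℝ, 0 ≤ M ∧ ∀ a ∈ A, 1 + ‖a‖ ≤ M := by
    rcases A.eq_empty_or_nonempty with h0 | h0
    · exact ⟨0, le_rfl, by simp [h0]⟩
    · obtain ⟨b, hb, hmax⟩ := A.exists_max_image (fun a => 1 + ‖a‖) h0
      exact ⟨1 + ‖b‖, by positivity, hmax⟩
  refine ⟨C₀ * M ^ N.natDegree * (κ ^ (A.card - 1))⁻¹, fun x => ?_⟩
  have hne : A.Nonempty := by
    rw [← Finset.card_pos]; omega
  obtain ⟨a, ha, hmin⟩ := A.exists_min_image (fun a => ‖x - a‖) hne
  have hterm : ‖x - a‖⁻¹ * ((1 + ‖x - a‖) ^ 2)⁻¹ ≤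
      ∑ a ∈ A, ‖x - a‖⁻¹ * ((1 + ‖x - a‖) ^ 2)⁻¹ :=
    Finset.single_le_sum (f := fun a => ‖x - a‖⁻¹ * ((1 + ‖x - a‖) ^ 2)⁻¹)
      (fun _ _ => by positivity) ha
  refine le_trans ?_ (mul_le_mul_of_nonneg_left hterm (by positivity))
  set t := ‖x - a‖ with ht
  have ht0 : 0 ≤ t := norm_nonneg _
  -- lower bound for the denominator
  have hden : t * (κ * (1 + t)) ^ (A.card - 1) ≤ ‖(DA A).eval x‖ := by
    rw [DA_eval, ← Finset.mul_prod_erase _ _ ha, norm_mul, norm_prod]
    refine mul_le_mul_of_nonneg_left ?_ ht0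
    rw [← Finset.card_erase_of_mem ha, ← Finset.prod_const]
    refine Finset.prod_le_prod (fun _ _ => by positivity) fun b hb => ?_
    have hbA := Finset.mem_of_mem_erase hb
    have hba := Finset.ne_of_mem_erase hb
    have h1 : t ≤ ‖x - b‖ := hmin b hbA
    have h2 : δ ≤ ‖x - b‖ := by
      have h3 := hsep a ha b hbA hba.symm
      have h4 : ‖a - b‖ ≤ ‖x - a‖ + ‖x - b‖ := by
        have : a - b = -(x - a) + (x - b) := by ring
        rw [this]
        refine (norm_add_le _ _).trans ?_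
        rw [norm_neg]
      linarith
    rw [hκ, div_mul_eq_mul_div, div_le_iff₀ (by positivity)]
    nlinarith
  have hnum : ‖N.eval x‖ ≤ C₀ * M ^ N.natDegree * (1 + t) ^ N.natDegree := by
    refine (hC x).trans ?_
    rw [mul_assoc, ← mul_pow]
    refine mul_le_mul_of_nonneg_left ?_ hC₀
    refine pow_le_pow_left₀ (by positivity) ?_ _
    have h5 : ‖x‖ ≤ ‖x - a‖ + ‖a‖ := by
      have := norm_add_le (x - a) a
      simpa using this
    have h6 := hM a ha
    have h7 := norm_nonneg a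
    calc 1 + ‖x‖ ≤ (1 + ‖a‖) * (1 + t) := by nlinarith
      _ ≤ M * (1 + t) := by gcongr
  rw [norm_div]
  rcases eq_or_lt_of_le ht0 with h0 | h0
  · -- x = a
    have : x = a := by
      have : ‖x - a‖ = 0 := by rw [← ht]; exact h0.symm
      exact sub_eq_zero.mp (norm_eq_zero.mp this)
    rw [this, DA_eval_eq ha]
    simp only [norm_zero, div_zero]
    positivity
  · have hdpos : 0 < t * (κ * (1 + t)) ^ (A.card - 1) := by positivity
    calc ‖N.eval x‖ / ‖(DA A).eval x‖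
        ≤ (C₀ * M ^ N.natDegree * (1 + t) ^ N.natDegree) / (t * (κ * (1 + t)) ^ (A.card - 1)) := by
          gcongr
      _ = C₀ * M ^ N.natDegree * (κ ^ (A.card - 1))⁻¹ * (t⁻¹ *
            ((1 + t) ^ N.natDegree / (1 + t) ^ (A.card - 1))) := by
          rw [mul_pow]
          field_simp
      _ ≤ C₀ * M ^ N.natDegree * (κ ^ (A.card - 1))⁻¹ * (t⁻¹ * ((1 + t) ^ 2)⁻¹) := by
          refine mul_le_mul_of_nonneg_left ?_ (by positivity)
          refine mul_le_mul_of_nonneg_left ?_ (by positivity)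
          rw [div_le_iff₀ (by positivity), inv_mul_eq_div, le_div_iff₀ (by positivity), ← pow_add]
          exact pow_le_pow_right₀ (by linarith) (by omega)

lemma measurable_R (A : Finset ℂ) (N : ℂ[X]) : Measurable fun x : ℂ => N.eval x / (DA A).eval x :=
  (Polynomial.continuous _).measurable.div (Polynomial.continuous _).measurable

lemma integrable_R (A : Finset ℂ) (N : ℂ[X]) (hN : N.natDegree + 3 ≤ A.card) :
    Integrable fun x : ℂ => N.eval x / (DA A).eval x := by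
  obtain ⟨C, hC⟩ := bound_R A N hN
  have h1 : Integrable (fun x : ℂ => C * ∑ a ∈ A, ‖x - a‖⁻¹ * ((1 + ‖x - a‖) ^ 2)⁻¹) := by
    refine Integrable.const_mul ?_ C
    refine integrable_finsetSum _ fun a _ => ?_
    exact integrable_radial.comp_sub_right a
  exact h1.mono' (measurable_R A N).aestronglyMeasurable (ae_of_all _ hC)

end Pool.Agent.H22
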