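import Mathlib

/-!
The area formula for a locally injective holomorphic map with finite fibres.
-/

set_option autoImplicit false
open MeasureTheory Set Filter Topology
open scoped ENNReal

namespace Pool.Agent.H22

lemma det_smulRight (c : ℂ) :
    |((ContinuousLinearMap.toSpanSingleton ℂ c).restrictScalars ℝ : ℂ →L[ℝ] ℂ).det| = ‖c‖ ^ 2 := by
  have h1 : ((ContinuousLinearMap.toSpanSingleton ℂ c).restrictScalars ℝ : ℂ →L[ℝ] ℂ).det =
      Complex.normSq c := by
    have e : (((ContinuousLinearMap.toSpanSingleton ℂ c).restrictScalars ℝ : ℂ →L[ℝ] ℂ) : ℂ →ₗ[ℝ] ℂ) =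
        LinearMap.mul ℝ ℂ c := by
      ext
      all_goals simp
      all_goals try ring
    rw [ContinuousLinearMap.det, e]
    rw [← LinearMap.det_toMatrix Complex.basisOneI]
    rw [Matrix.det_fin_two]
    simp [LinearMap.toMatrix_apply, Complex.normSq_apply]
  rw [h1, abs_of_nonneg (Complex.normSq_nonneg c), Complex.normSq_eq_norm_sq]

theorem locally_inj {G : ℂ → ℂ} {c x : ℂ} (hG : HasStrictDerivAt G c x) (hc : c ≠ 0) :
    ∃ O : Set ℂ, IsOpen O ∧ x ∈ O ∧ InjOn G O := by
  have h1 := hG.hasStrictFDerivAt_equiv hc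
  refine ⟨(h1.toOpenPartialHomeomorph G).source, (h1.toOpenPartialHomeomorph G).open_source,
    h1.mem_toOpenPartialHomeomorph_source, ?_⟩
  have := (h1.toOpenPartialHomeomorph G).injOn
  rwa [h1.toOpenPartialHomeomorph_coe] at this

/-- countable measurable partition into sets on which the map is injective -/
lemma exists_partition {U : Set ℂ} (hU : IsOpen U) {G G' : ℂ → ℂ}
    (hG : ∀ x ∈ U, HasStrictDerivAt G (G' x) x) (hG0 : ∀ x ∈ U, G' x ≠ 0) :
    ∃ s : ℕ → Set ℂ, (∀ i, MeasurableSet (s i)) ∧ (∀ i, InjOn G (s i)) ∧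
      Pairwise (Function.onFun Disjoint s) ∧ ⋃ i, s i = U := by
  have h1 : ∀ x ∈ U, ∃ O : Set ℂ, IsOpen O ∧ x ∈ O ∧ InjOn G O := fun x hx =>
    locally_inj (hG x hx) (hG0 x hx)
  choose! O hO hxO hinj using h1
  obtain ⟨t, htU, htc, htcov⟩ := TopologicalSpace.countable_cover_nhdsWithin (s := U)
    (f := O) (fun x hx => mem_nhdsWithin_of_mem_nhds ((hO x hx).mem_nhds (hxO x hx)))
  rcases t.eq_empty_or_nonempty with ht | ht
  · refine ⟨fun _ => ∅, fun _ => MeasurableSet.empty, fun _ => injOn_empty _, ?_, ?_⟩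
    · intro i j _; simp [Function.onFun]
    · rw [ht] at htcov
      simp at htcov
      simp [htcov]
  obtain ⟨e, he⟩ := htc.exists_eq_range ht
  have heU : ∀ i, e i ∈ U := fun i => htU (he ▸ mem_range_self i)
  refine ⟨disjointed (fun i => O (e i) ∩ U), ?_, ?_, disjoint_disjointed _, ?_⟩
  · exact MeasurableSet.disjointed fun i => ((hO _ (heU i)).inter hU).measurableSet
  · intro i
    exact (hinj _ (heU i)).mono ((disjointed_subset _ i).trans inter_subset_left)
  · rw [iUnion_disjointed]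
    apply subset_antisymm
    · exact iUnion_subset fun i => inter_subset_right
    · intro x hx
      have := htcov hx
      rw [he] at this
      simp only [mem_range, iUnion_exists, iUnion_iUnion_eq', mem_iUnion] at this
      obtain ⟨i, hi⟩ := this
      exact mem_iUnion.mpr ⟨i, hi, hx⟩

open Classical in
theorem area {U : Set ℂ} (hU : IsOpen U) {G G' : ℂ → ℂ}
    (hG : ∀ x ∈ U, HasStrictDerivAt G (G' x) x) (hG0 : ∀ x ∈ U, G' x ≠ 0)
    {V : Set ℂ} (hV : MeasurableSet V) (hUV : ∀ x ∈ U, G x ∈ V) (S : ℂ → Finset ℂ)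
    (hS : ∀ y ∈ V, ∀ x, x ∈ S y ↔ x ∈ U ∧ G x = y) (φ : ℂ → ℝ≥0∞) (hφ : Measurable φ) :
    ∫⁻ x in U, φ x * ‖G' x‖ₑ ^ 2 = ∫⁻ y in V, ∑ x ∈ S y, φ x ∧
    AEMeasurable (fun y => ∑ x ∈ S y, φ x) (volume.restrict V) := by
  obtain ⟨s, hsm, hsinj, hsdisj, hsU⟩ := exists_partition hU hG hG0
  have hsub : ∀ i, s i ⊆ U := fun i => hsU ▸ subset_iUnion s i
  have hd : ∀ i, ∀ x ∈ s i, HasFDerivWithinAt G
      ((ContinuousLinearMap.toSpanSingleton ℂ (G' x)).restrictScalars ℝ : ℂ →L[ℝ] ℂ) (s i) x := by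
    intro i x hx
    have := (hG x (hsub i hx)).hasDerivAt.hasFDerivAt.restrictScalars ℝ
    exact this.hasFDerivWithinAt
  have hemb : ∀ i, MeasurableEmbedding ((s i).domRestrict G) := fun i =>
    measurableEmbedding_of_fderivWithin (hsm i) (hd i) (hsinj i)
  set ρ : ℕ → ℂ → ℝ≥0∞ := fun i => Function.extend ((s i).domRestrict G)
    (fun x : s i => φ x) (fun _ => 0) with hρ
  have hρm : ∀ i, Measurable (ρ i) := fun i =>
    (hemb i).measurable_extend (hφ.comp measurable_subtype_coe) measurable_const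
  have hρ1 : ∀ i, ∀ x ∈ s i, ρ i (G x) = φ x := by
    intro i x hx
    exact (hemb i).injective.extend_apply _ _ ⟨x, hx⟩
  have hρ0 : ∀ i, ∀ y, y ∉ G '' s i → ρ i y = 0 := by
    intro i y hy
    refine Function.extend_apply' _ _ _ ?_
    rintro ⟨x, hx⟩
    exact hy ⟨x, x.2, hx⟩
  -- pointwise
  have hpt : ∀ y ∈ V, ∑' i, ρ i y = ∑ x ∈ S y, φ x := by
    intro y hy
    have h1 : ∀ i, ρ i y = ∑ x ∈ S y, if x ∈ s i then φ x else 0 := by
      intro i
      by_cases hy' : y ∈ G '' s i
      · obtain ⟨x, hx, rfl⟩ := hy'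
        have hxS : x ∈ S (G x) := (hS _ hy x).mpr ⟨hsub i hx, rfl⟩
        rw [hρ1 i x hx, Finset.sum_eq_single_of_mem x hxS, if_pos hx]
        intro x' hx' hne
        rw [if_neg]
        intro hx's
        exact hne (hsinj i hx's hx ((hS _ hy x').mp hx').2)
      · rw [hρ0 i y hy']
        symm
        apply Finset.sum_eq_zero
        intro x hx
        rw [if_neg]
        intro hxs
        exact hy' ⟨x, hxs, ((hS _ hy x).mp hx).2⟩
    simp_rw [h1]
    rw [Summable.tsum_finsetSum (fun _ _ => ENNReal.summable)]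
    refine Finset.sum_congr rfl fun x hx => ?_
    have hxU : x ∈ ⋃ i, s i := hsU ▸ ((hS _ hy x).mp hx).1
    obtain ⟨i, hi⟩ := mem_iUnion.mp hxU
    rw [tsum_eq_single i, if_pos hi]
    intro j hj
    rw [if_neg]
    intro hxj
    exact (disjoint_left.mp (hsdisj hj) hxj) hi
  have hae : (fun y => ∑' i, ρ i y) =ᵐ[volume.restrict V] fun y => ∑ x ∈ S y, φ x := by
    filter_upwards [ae_restrict_mem hV] with y hy using hpt y hy
  refine ⟨?_, ?_⟩
  · rw [← lintegral_congr_ae hae, lintegral_tsum fun i => (hρm i).aemeasurable]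
    rw [← hsU, lintegral_iUnion hsm hsdisj]
    refine tsum_congr fun i => ?_
    have h2 := lintegral_image_eq_lintegral_abs_det_fderiv_mul volume (hsm i) (hd i) (hsinj i) (ρ i)
    have h3 : ∫⁻ x in s i, φ x * ‖G' x‖ₑ ^ 2 = ∫⁻ y in G '' s i, ρ i y := by
      rw [h2]
      refine setLIntegral_congr_fun (hsm i) fun x hx => ?_
      rw [hρ1 i x hx, det_smulRight, mul_comm, ENNReal.ofReal_pow (norm_nonneg _), ofReal_norm_eq_enorm]
    rw [h3]
    have himg : MeasurableSet (G '' s i) := by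
      have := (hemb i).measurableSet_range
      rwa [Set.range_domRestrict] at this
    have hGV : G '' s i ⊆ V := by
      rintro _ ⟨x, hx, rfl⟩
      exact hUV x (hsub i hx)
    rw [← lintegral_indicator himg, ← lintegral_indicator hV]
    refine lintegral_congr fun y => ?_
    by_cases hy : y ∈ G '' s i
    · rw [indicator_of_mem hy, indicator_of_mem (hGV hy)]
    · rw [indicator_of_notMem hy]
      by_cases hyV : y ∈ V
      · rw [indicator_of_mem hyV, hρ0 i y hy]
      · rw [indicator_of_notMem hyV]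
  · exact (Measurable.ennreal_tsum hρm).aemeasurable.congr hae

end Pool.Agent.H22
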