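import Pool.Agent.H22.Ana1
import Pool.Agent.H22.Area

/-!
A quadratic differential fixed by the push-forward exists only for exceptional maps.
-/

set_option autoImplicit false
open Polynomial MeasureTheory Set Filter Topology
open scoped ENNReal

namespace Pool.Agent.H22

/-- equality in the triangle inequality -/
lemma real_of_norm_sum_eq {ι : Type*} (s : Finset ι) (z : ι → ℂ)
    (h : ‖∑ i ∈ s, z i‖ = ∑ i ∈ s, ‖z i‖) :
    ∀ i ∈ s, (z i * (starRingEnd ℂ) (∑ i ∈ s, z i)).im = 0 := by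
  set w := ∑ i ∈ s, z i with hw
  have h1 : ∑ i ∈ s, (z i * (starRingEnd ℂ) w).re = ∑ i ∈ s, ‖z i * (starRingEnd ℂ) w‖ := by
    rw [← Complex.re_sum, ← Finset.sum_mul, ← hw, Complex.mul_conj]
    simp only [norm_mul, RCLike.norm_conj]
    rw [← Finset.sum_mul, ← h, Complex.normSq_eq_norm_sq, Complex.ofReal_re]
    ring
  have h2 := (Finset.sum_eq_sum_iff_of_le fun i _ => Complex.re_le_norm _).mp h1
  intro i hi
  have h3 := h2 i hi
  have h4 := Complex.re_eq_norm.mp h3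
  exact (Complex.le_def.mp h4).2.symm

lemma ae_of_poly {Z : ℂ[X]} (hZ : Z ≠ 0) :
    ({x : ℂ | Z.eval x ≠ 0} : Set ℂ) =ᵐ[volume] (univ : Set ℂ) := by
  rw [ae_eq_univ]
  have : ({x : ℂ | Z.eval x ≠ 0} : Set ℂ)ᶜ ⊆ (Z.roots.toFinset : Set ℂ) := by
    intro x hx
    simp only [mem_compl_iff, mem_ofPred_eq, not_not] at hx
    simp [hZ, hx]
  exact measure_mono_null this ((Finset.finite_toSet _).measure_zero _)

lemma isOpen_poly (Z : ℂ[X]) : IsOpen {x : ℂ | Z.eval x ≠ 0} :=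
  isOpen_ne_fun (Polynomial.continuous _) continuous_const

lemma isConnected_poly {Z : ℂ[X]} (hZ : Z ≠ 0) : IsConnected {x : ℂ | Z.eval x ≠ 0} := by
  have h1 : {x : ℂ | Z.eval x ≠ 0} = ((Z.roots.toFinset : Set ℂ))ᶜ := by
    ext x
    simp [hZ]
  rw [h1]
  refine (Set.Countable.isPathConnected_compl_of_one_lt_rank ?_
    (Finset.finite_toSet _).countable).isConnected
  rw [Complex.rank_real_complex]
  norm_num

namespace Good

variable {d : ℕ} {P Q : ℂ[X]} {A : Finset ℂ}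

/-- polynomial whose nonvanishing cuts out the regular part -/
noncomputable def Zp (d : ℕ) (P Q : ℂ[X]) (A : Finset ℂ) : ℂ[X] :=
  Q * Wr P Q * (∏ a ∈ A, Fp P Q a) * Fp P Q (P.coeff d)

lemma Zp_ne (h : Good d P Q A) : Zp d P Q A ≠ 0 :=
  mul_ne_zero (mul_ne_zero (mul_ne_zero h.Q_ne h.Wr_ne) h.prod_ne) (h.Fp_ne' _)

lemma Zp_eval (h : Good d P Q A) (x : ℂ) : (Zp d P Q A).eval x ≠ 0 ↔
    Q.eval x ≠ 0 ∧ (Wr P Q).eval x ≠ 0 ∧ P.eval x / Q.eval x ∉ A ∧
      P.eval x / Q.eval x ≠ P.coeff d := by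
  unfold Zp
  simp only [eval_mul, ne_eq, mul_eq_zero, not_or, eval_prod, Finset.prod_eq_zero_iff,
    h.mem_fib, not_exists, not_and]
  constructor
  · rintro ⟨⟨⟨h1, h2⟩, h3⟩, h4⟩
    exact ⟨h1, h2, fun h5 => h3 _ h5 h1 rfl, h4 h1⟩
  · rintro ⟨h1, h2, h3, h4⟩
    refine ⟨⟨⟨h1, h2⟩, fun a ha _ he => h3 (he ▸ ha)⟩, fun _ => h4⟩

lemma strictDeriv (h : Good d P Q A) {x : ℂ} (hx : Q.eval x ≠ 0) :
    HasStrictDerivAt (fun x => P.eval x / Q.eval x) ((Wr P Q).eval x / Q.eval x ^ 2) x := by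
  have h1 := (P.hasStrictDerivAt x).fun_div (Q.hasStrictDerivAt x) hx
  rwa [← Wr_eval] at h1

/-- `N(P/Q)` -/
lemma Nh_eval (h : Good d P Q A) {N : ℂ[X]} {m : ℕ} (hN : N.natDegree ≤ m) {x : ℂ}
    (hx : Q.eval x ≠ 0) : (Nh P Q m N).eval x = Q.eval x ^ m * N.eval (P.eval x / Q.eval x) := by
  unfold Nh
  rw [eval_mul, eval_mul, eval_C, eval_pow, eval_multiset_prod, Multiset.map_map]
  conv_rhs => rw [(IsAlgClosed.splits N).eq_prod_roots]
  rw [eval_mul, eval_C, eval_multiset_prod, Multiset.map_map]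
  have h1 : ∀ s : Multiset ℂ, (s.map (eval x ∘ fun z => Fp P Q z)).prod =
      Q.eval x ^ s.card * (s.map (eval (P.eval x / Q.eval x) ∘ fun a => X - C a)).prod := by
    intro s
    induction s using Multiset.induction_on with
    | empty => simp
    | cons a s ih =>
      rw [Multiset.map_cons, Multiset.prod_cons, ih, Multiset.map_cons, Multiset.prod_cons,
        Multiset.card_cons]
      simp only [Function.comp_apply, Fp_eval, eval_sub, eval_X, eval_C]
      field_simp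
      ring
  have h2 : N.roots.card = N.natDegree := IsAlgClosed.card_roots_eq_natDegree (p := N)
  rw [h1, h2]
  have h3 : Q.eval x ^ m = Q.eval x ^ N.natDegree * Q.eval x ^ (m - N.natDegree) := by
    rw [← pow_add]; congr 1; omega
  rw [h3]
  ring

lemma prod_eval (h : Good d P Q A) {x : ℂ} (hx : Q.eval x ≠ 0) :
    (∏ a ∈ A, Fp P Q a).eval x = Q.eval x ^ A.card * (DA A).eval (P.eval x / Q.eval x) := by
  rw [eval_prod, DA_eval, ← Finset.prod_const, ← Finset.prod_mul_distrib]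
  refine Finset.prod_congr rfl fun a _ => ?_
  rw [Fp_eval]
  field_simp

open Classical in
theorem fixed_real (h : Good d P Q A) {K : ℂ[X]} (hK : DA A * Wr P Q * K = ∏ a ∈ A, Fp P Q a)
    (hn : 4 ≤ A.card) {N : ℂ[X]} (hN : N.natDegree ≤ A.card - 4) (hT : h.T K N = N) :
    ∀ᵐ x ∂(volume.restrict {x : ℂ | (Zp d P Q A).eval x ≠ 0}),
      ((N.eval x / (DA A).eval x) / ((Wr P Q).eval x / Q.eval x ^ 2) ^ 2 *
        (starRingEnd ℂ) (N.eval (P.eval x / Q.eval x) / (DA A).eval (P.eval x / Q.eval x))).im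
        = 0 := by
  set G : ℂ → ℂ := fun x => P.eval x / Q.eval x with hG
  set G' : ℂ → ℂ := fun x => (Wr P Q).eval x / Q.eval x ^ 2 with hG'
  set R : ℂ → ℂ := fun x => N.eval x / (DA A).eval x with hR
  set U : Set ℂ := {x : ℂ | (Zp d P Q A).eval x ≠ 0} with hU
  set V : Set ℂ := {y : ℂ | y ∉ A ∧ P.coeff d ≠ y} with hV
  set S : ℂ → Finset ℂ := fun y => (Fp P Q y).roots.toFinset with hS
  have hUo : IsOpen U := isOpen_poly _
  have hd1 : ∀ x ∈ U, HasStrictDerivAt G (G' x) x := fun x hx =>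
    h.strictDeriv ((h.Zp_eval x).mp hx).1
  have hd2 : ∀ x ∈ U, G' x ≠ 0 := fun x hx => by
    have := (h.Zp_eval x).mp hx
    exact div_ne_zero this.2.1 (pow_ne_zero _ this.1)
  have hVm : MeasurableSet V := by
    have e : V = ((insert (P.coeff d) A : Finset ℂ) : Set ℂ)ᶜ := by
      ext y
      simp only [hV, mem_ofPred_eq, Finset.coe_insert, mem_compl_iff, mem_insert_iff,
        Finset.mem_coe, not_or]
      tauto
    rw [e]
    exact (Finset.measurableSet _).compl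
  have hVae : V =ᵐ[volume] (univ : Set ℂ) := by
    rw [ae_eq_univ]
    have : Vᶜ ⊆ ((insert (P.coeff d) A : Finset ℂ) : Set ℂ) := by
      intro y hy
      simp only [hV, mem_compl_iff, mem_ofPred_eq, not_and_or, not_not] at hy
      simp only [Finset.coe_insert, mem_insert_iff, Finset.mem_coe]
      tauto
    exact measure_mono_null this ((Finset.finite_toSet _).measure_zero _)
  have hUae : U =ᵐ[volume] (univ : Set ℂ) := ae_of_poly h.Zp_ne
  have hUV : ∀ x ∈ U, G x ∈ V := fun x hx => by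
    have := (h.Zp_eval x).mp hx
    exact ⟨this.2.2.1, fun h0 => this.2.2.2 h0.symm⟩
  have hSm : ∀ y ∈ V, ∀ x, x ∈ S y ↔ x ∈ U ∧ G x = y := by
    intro y hy x
    simp only [hS, Multiset.mem_toFinset, mem_roots (h.Fp_ne' y), IsRoot.def]
    constructor
    · intro hx
      have h1 := h.mem_fib.mp hx
      have h2 := h.regular hy.1 hx
      exact ⟨(h.Zp_eval x).mpr ⟨h1.1, h2.1, h1.2 ▸ hy.1, by rw [h1.2]; exact hy.2.symm⟩, h1.2⟩
    · rintro ⟨h1, h2⟩
      exact h.mem_fib.mpr ⟨((h.Zp_eval x).mp h1).1, h2⟩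
  have hGm : Measurable G :=
    (Polynomial.continuous _).measurable.div (Polynomial.continuous _).measurable
  have hG'm : Measurable G' :=
    (Polynomial.continuous _).measurable.div ((Polynomial.continuous _).measurable.pow_const 2)
  have hRm : Measurable R := measurable_R A N
  have hRi : Integrable R := integrable_R A N (by omega)
  obtain ⟨har, hmeas⟩ := area hUo hd1 hd2 hVm hUV S hSm (fun x => ‖R x / G' x ^ 2‖ₑ)
    (hRm.div (hG'm.pow_const 2)).enorm
  have e1 : ∫⁻ x in U, ‖R x / G' x ^ 2‖ₑ * ‖G' x‖ₑ ^ 2 = ∫⁻ x in U, ‖R x‖ₑ := by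
    refine setLIntegral_congr_fun hUo.measurableSet fun x hx => ?_
    have := hd2 x hx
    rw [← enorm_pow, ← enorm_mul]
    congr 1
    field_simp
  have e2 : ∫⁻ x in U, ‖R x‖ₑ = ∫⁻ x in V, ‖R x‖ₑ :=
    setLIntegral_congr (hUae.trans hVae.symm)
  have hfix : ∀ y ∈ V, R y = ∑ x ∈ S y, R x / G' x ^ 2 := by
    intro y hy
    have h1 := h.T_div K N hy.1
    rw [hT] at h1
    have h2 := h.push hK hn hN hy.1 hy.2
    exact h1.trans h2.symm
  have e3 : ∀ y ∈ V, ‖R y‖ₑ ≤ ∑ x ∈ S y, ‖R x / G' x ^ 2‖ₑ := by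
    intro y hy
    rw [hfix y hy]
    exact enorm_sum_le _ _
  have hfin : ∫⁻ x in V, ‖R x‖ₑ ≠ ∞ :=
    ne_of_lt (lt_of_le_of_lt (setLIntegral_le_lintegral _ _) hRi.hasFiniteIntegral)
  have e4 : (fun y => ‖R y‖ₑ) =ᵐ[volume.restrict V] fun y => ∑ x ∈ S y, ‖R x / G' x ^ 2‖ₑ := by
    refine ae_eq_of_ae_le_of_lintegral_le ?_ hfin hmeas ?_
    · filter_upwards [ae_restrict_mem hVm] with y hy using e3 y hy
    · rw [← har, e1, e2]
  -- the good set
  have e5 : ∀ᵐ y ∂(volume.restrict V), ∀ x ∈ S y,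
      (R x / G' x ^ 2 * (starRingEnd ℂ) (R y)).im = 0 := by
    filter_upwards [ae_restrict_mem hVm, e4] with y hy hy4 x hx
    rw [hfix y hy]
    refine real_of_norm_sum_eq (S y) (fun x => R x / G' x ^ 2) ?_ x hx
    rw [hfix y hy] at hy4
    have := congrArg ENNReal.toReal hy4
    rw [ENNReal.toReal_sum (fun _ _ => enorm_ne_top)] at this
    simpa using this
  -- pull back
  set B : Set ℂ := toMeasurable (volume.restrict V)
    {y | ¬ ∀ x ∈ S y, (R x / G' x ^ 2 * (starRingEnd ℂ) (R y)).im = 0} with hB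
  have hBm : MeasurableSet B := measurableSet_toMeasurable _ _
  have hB0 : volume.restrict V B = 0 := by
    rw [hB, measure_toMeasurable]
    exact e5
  obtain ⟨har2, -⟩ := area hUo hd1 hd2 hVm hUV S hSm (fun x => (B.indicator 1 (G x) : ℝ≥0∞))
    ((measurable_one.indicator hBm).comp hGm)
  have e6 : ∫⁻ y in V, ∑ x ∈ S y, (B.indicator 1 (G x) : ℝ≥0∞) = 0 := by
    rw [lintegral_eq_zero_iff' (by
      refine (area hUo hd1 hd2 hVm hUV S hSm (fun x => (B.indicator 1 (G x) : ℝ≥0∞))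
        ((measurable_one.indicator hBm).comp hGm)).2)]
    have hB1 : ∀ᵐ y ∂(volume.restrict V), y ∉ B := by
      rw [ae_iff]
      simpa using hB0
    filter_upwards [hB1, ae_restrict_mem hVm] with y hy hyV
    refine Finset.sum_eq_zero fun x hx => ?_
    have : G x = y := ((hSm y hyV x).mp hx).2
    rw [this, indicator_of_notMem hy]
  have hmm : Measurable (fun x => (B.indicator 1 (G x) : ℝ≥0∞) * ‖G' x‖ₑ ^ 2) :=
    ((measurable_one.indicator hBm).comp hGm).mul (hG'm.enorm.pow_const 2)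
  rw [e6, lintegral_eq_zero_iff hmm] at har2
  filter_upwards [har2, ae_restrict_mem hUo.measurableSet] with x hx hxU
  have hne : ‖G' x‖ₑ ^ 2 ≠ 0 := pow_ne_zero _ (enorm_ne_zero.mpr (hd2 x hxU))
  have h7 : G x ∉ B := by
    intro h8
    simp [indicator_of_mem h8, hne] at hx
  have h8 : G x ∉ {y | ¬ ∀ x ∈ S y, (R x / G' x ^ 2 * (starRingEnd ℂ) (R y)).im = 0} := fun h9 =>
    h7 (subset_toMeasurable _ _ h9)
  simp only [mem_ofPred_eq, not_not] at h8
  exact h8 x ((hSm _ (hUV x hxU) x).mpr ⟨hxU, rfl⟩)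

open Classical in
theorem fixed_imp_lattes (h : Good d P Q A) {K : ℂ[X]}
    (hK : DA A * Wr P Q * K = ∏ a ∈ A, Fp P Q a)
    (hn : 4 ≤ A.card) {N : ℂ[X]} (hN0 : N ≠ 0) (hN : N.natDegree ≤ A.card - 4)
    (hT : h.T K N = N) : LattesLike P Q A := by
  have hreal := h.fixed_real hK hn hN hT
  set Z' : ℂ[X] := Zp d P Q A * (N * Nh P Q (A.card - 4) N * DA A) with hZ'
  have hZ'0 : Z' ≠ 0 := mul_ne_zero h.Zp_ne (mul_ne_zero (mul_ne_zero hN0 (h.Nh_ne hN0 _))
    (DA_monic A).ne_zero)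
  set U : Set ℂ := {x : ℂ | Z'.eval x ≠ 0} with hU
  have hUo : IsOpen U := isOpen_poly _
  have hUmem : ∀ x ∈ U, Q.eval x ≠ 0 ∧ (Wr P Q).eval x ≠ 0 ∧ P.eval x / Q.eval x ∉ A ∧
      N.eval x ≠ 0 ∧ N.eval (P.eval x / Q.eval x) ≠ 0 ∧ (DA A).eval x ≠ 0 ∧
      (DA A).eval (P.eval x / Q.eval x) ≠ 0 := by
    intro x hx
    have hx' : Z'.eval x ≠ 0 := hx
    rw [hZ', eval_mul, eval_mul, eval_mul] at hx'
    have h1 := left_ne_zero_of_mul hx'
    have h2 := right_ne_zero_of_mul hx'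
    have h3 := left_ne_zero_of_mul h2
    have h4 := right_ne_zero_of_mul h2
    have h5 := (h.Zp_eval x).mp h1
    have h6 := right_ne_zero_of_mul h3
    rw [h.Nh_eval hN h5.1] at h6
    exact ⟨h5.1, h5.2.1, h5.2.2.1, left_ne_zero_of_mul h3, right_ne_zero_of_mul h6, h4,
      DA_eval_ne h5.2.2.1⟩
  set τ : ℂ → ℂ := fun x => ((N.eval x / (DA A).eval x) / ((Wr P Q).eval x / Q.eval x ^ 2) ^ 2) /
    (N.eval (P.eval x / Q.eval x) / (DA A).eval (P.eval x / Q.eval x)) with hτ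
  have hpd : ∀ p : ℂ[X], Differentiable ℂ fun x => p.eval x := fun p => p.differentiable
  have hτd : DifferentiableOn ℂ τ U := by
    intro x hx
    obtain ⟨h1, h2, h3, h4, h5, h6, h7⟩ := hUmem x hx
    have hGd : DifferentiableAt ℂ (fun x => P.eval x / Q.eval x) x :=
      (hpd P x).fun_div (hpd Q x) h1
    refine DifferentiableAt.differentiableWithinAt ?_
    refine DifferentiableAt.fun_div ?_ ?_ (div_ne_zero h5 h7)
    · refine DifferentiableAt.fun_div ((hpd N x).fun_div (hpd (DA A) x) h6) ?_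
        (pow_ne_zero _ (div_ne_zero h2 (pow_ne_zero _ h1)))
      exact ((hpd (Wr P Q) x).fun_div ((hpd Q x).fun_pow 2) (pow_ne_zero _ h1)).fun_pow 2
    · refine DifferentiableAt.fun_div ?_ ?_ h7
      · exact DifferentiableAt.comp x (hpd N _) hGd
      · exact DifferentiableAt.comp x (hpd (DA A) _) hGd
  have hτa : AnalyticOnNhd ℂ τ U := hτd.analyticOnNhd hUo
  -- the imaginary part vanishes
  have hτim : ∀ x ∈ U, (τ x).im = ((0 : ℝ) : ℝ) := by
    have hae : ∀ᵐ x ∂(volume.restrict U), (τ x).im = 0 := by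
      have hsub : U ⊆ {x : ℂ | (Zp d P Q A).eval x ≠ 0} := by
        intro x hx
        have hx' : Z'.eval x ≠ 0 := hx
        rw [hZ', eval_mul] at hx'
        exact left_ne_zero_of_mul hx'
      have h1 := ae_restrict_of_ae_restrict_of_subset hsub hreal
      filter_upwards [h1, ae_restrict_mem hUo.measurableSet] with x hx hxU
      have h5 : N.eval (P.eval x / Q.eval x) / (DA A).eval (P.eval x / Q.eval x) ≠ 0 :=
        div_ne_zero (hUmem x hxU).2.2.2.2.1 (hUmem x hxU).2.2.2.2.2.2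
      rw [hτ]
      simp only
      set w := N.eval (P.eval x / Q.eval x) / (DA A).eval (P.eval x / Q.eval x)
      set z := (N.eval x / (DA A).eval x) / ((Wr P Q).eval x / Q.eval x ^ 2) ^ 2
      have h6 : z / w = ((Complex.normSq w)⁻¹ : ℝ) * (z * (starRingEnd ℂ) w) := by
        rw [div_eq_mul_inv, Complex.inv_def]
        push_cast
        ring
      rw [h6, Complex.im_ofReal_mul, hx, mul_zero]
    have hopen : IsOpen (U ∩ {x | (τ x).im ≠ 0}) := by
      have : ContinuousOn (fun x => (τ x).im) U :=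
        Complex.continuous_im.comp_continuousOn hτd.continuousOn
      exact this.isOpen_inter_preimage hUo (isOpen_ne (x := (0 : ℝ)))
    have hnull : volume (U ∩ {x | (τ x).im ≠ 0}) = 0 := by
      rw [ae_restrict_iff' hUo.measurableSet, ae_iff] at hae
      refine measure_mono_null ?_ hae
      rintro x ⟨hx1, hx2⟩
      simp only [mem_ofPred_eq, Classical.not_imp]
      exact ⟨hx1, hx2⟩
    have hempty := hopen.measure_eq_zero_iff volume |>.mp hnull
    intro x hx
    by_contra hcon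
    have : x ∈ U ∩ {x | (τ x).im ≠ 0} := ⟨hx, hcon⟩
    rw [hempty] at this
    exact this
  obtain ⟨c, hc⟩ := hτa.eq_const_of_im_eq_const hτim hUo (isConnected_poly hZ'0)
  have hc0 : c ≠ 0 := by
    obtain ⟨x, hx⟩ := (isConnected_poly hZ'0).nonempty
    rw [← hc x hx]
    obtain ⟨h1, h2, h3, h4, h5, h6, h7⟩ := hUmem x hx
    exact div_ne_zero (div_ne_zero (div_ne_zero h4 h6) (pow_ne_zero _ (div_ne_zero h2
      (pow_ne_zero _ h1)))) (div_ne_zero h5 h7)
  refine h.lattes_alg hn hN0 hN hc0 ?_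
  refine Polynomial.eq_of_infinite_eval_eq _ _ ?_
  have hUinf : U.Infinite := by
    have : U = ((Z'.roots.toFinset : Set ℂ))ᶜ := by
      ext x
      simp [hU, hZ'0]
    rw [this]
    exact (Finset.finite_toSet _).infinite_compl
  refine hUinf.mono fun x hx => ?_
  obtain ⟨h1, h2, h3, h4, h5, h6, h7⟩ := hUmem x hx
  have h8 := hc x hx
  simp only [mem_ofPred_eq]
  rw [eval_mul, eval_mul, eval_mul, eval_mul, eval_C, eval_pow, h.prod_eval h1,
    h.Nh_eval hN h1]
  rw [← h8]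
  simp only [hτ]
  have h9 : Q.eval x ^ A.card = Q.eval x ^ (A.card - 4) * Q.eval x ^ 4 := by
    rw [← pow_add]; congr 1; omega
  rw [h9]
  field_simp

end Good

end Pool.Agent.H22
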