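import Mathlib

/-!
Basic algebra of a rational map `P / Q` of degree `d` in good affine position.
-/

set_option autoImplicit false
open Polynomial

namespace Pool.Agent.H22

noncomputable section

/-- The polynomial whose zeros are the finite preimages of `y` under `P / Q`. -/
def Fp (P Q : ℂ[X]) (y : ℂ) : ℂ[X] := P - C y * Q

/-- The numerator of the derivative of `P / Q`. -/
def Wr (P Q : ℂ[X]) : ℂ[X] := derivative P * Q - P * derivative Q

/-- The monic polynomial with simple zeros in `A`. -/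
def DA (A : Finset ℂ) : ℂ[X] := ∏ a ∈ A, (X - C a)

/-- `P / Q` is a rational map of degree `d ≥ 2`, `A` is its postcritical set, and the point at
infinity is in general position. -/
structure Good (d : ℕ) (P Q : ℂ[X]) (A : Finset ℂ) : Prop where
  hd : 2 ≤ d
  Qm : Q.Monic
  Qd : Q.natDegree = d
  Pd : P.natDegree ≤ d
  cop : IsCoprime P Q
  inf : ∀ a ∈ A, P.coeff d ≠ a
  maps : ∀ a ∈ A, Q.eval a ≠ 0 ∧ P.eval a / Q.eval a ∈ A
  Wd : (Wr P Q).coeff (2 * d - 2) ≠ 0
  crit : ∀ x, (Wr P Q).eval x = 0 → Q.eval x ≠ 0 ∧ P.eval x / Q.eval x ∈ A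
  nfix : P.eval (P.coeff d) ≠ P.coeff d * Q.eval (P.coeff d)
  min : ∀ A' : Finset ℂ, A' ⊆ A → (∀ x, (Wr P Q).eval x = 0 → P.eval x / Q.eval x ∈ A') →
    (∀ a ∈ A', P.eval a / Q.eval a ∈ A') → A' = A

/-- The orbifold of `P / Q` has signature `(2, 2, 2, 2)`. -/
def LattesLike (P Q : ℂ[X]) (A : Finset ℂ) : Prop :=
  A.card = 4 ∧ ∀ x, Q.eval x ≠ 0 → P.eval x / Q.eval x ∈ A →
    rootMultiplicity x (Fp P Q (P.eval x / Q.eval x)) = if x ∈ A then 1 else 2

lemma Fp_coeff (P Q : ℂ[X]) (y : ℂ) (k : ℕ) : (Fp P Q y).coeff k = P.coeff k - y * Q.coeff k := by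
  simp [Fp]

lemma Fp_eval (P Q : ℂ[X]) (y x : ℂ) : (Fp P Q y).eval x = P.eval x - y * Q.eval x := by
  simp [Fp]

lemma Wr_eq (P Q : ℂ[X]) (y : ℂ) :
    Wr P Q = derivative (Fp P Q y) * Q - Fp P Q y * derivative Q := by
  simp only [Wr, Fp, derivative_sub, derivative_mul, derivative_C]
  ring

lemma Wr_eval (P Q : ℂ[X]) (x : ℂ) : (Wr P Q).eval x =
    (derivative P).eval x * Q.eval x - P.eval x * (derivative Q).eval x := by
  simp [Wr]

lemma DA_monic (A : Finset ℂ) : (DA A).Monic := monic_prod_of_monic _ _ fun a _ => monic_X_sub_C a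

lemma DA_natDegree (A : Finset ℂ) : (DA A).natDegree = A.card := by
  unfold DA
  rw [natDegree_prod_of_monic _ _ fun a _ => monic_X_sub_C a]
  simp

lemma DA_eval (A : Finset ℂ) (x : ℂ) : (DA A).eval x = ∏ a ∈ A, (x - a) := by
  simp [DA, eval_prod]

lemma DA_eval_ne {A : Finset ℂ} {x : ℂ} (h : x ∉ A) : (DA A).eval x ≠ 0 := by
  rw [DA_eval, Finset.prod_ne_zero_iff]
  intro a ha h0
  exact h (by rwa [sub_eq_zero.mp h0])

lemma DA_eval_eq {A : Finset ℂ} {x : ℂ} (h : x ∈ A) : (DA A).eval x = 0 := by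
  rw [DA_eval]
  exact Finset.prod_eq_zero h (sub_self x)

namespace Good

variable {d : ℕ} {P Q : ℂ[X]} {A : Finset ℂ}

lemma d_pos (h : Good d P Q A) : 0 < d := by have := h.hd; omega

lemma Qcoeff (h : Good d P Q A) : Q.coeff d = 1 := by
  have := h.Qm.coeff_natDegree
  rwa [h.Qd] at this

lemma Q_ne (h : Good d P Q A) : Q ≠ 0 := h.Qm.ne_zero

lemma Fp_natDegree_le (h : Good d P Q A) (y : ℂ) : (Fp P Q y).natDegree ≤ d := by
  unfold Fp
  refine (natDegree_sub_le _ _).trans (max_le h.Pd ?_)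
  exact (natDegree_C_mul_le _ _).trans h.Qd.le

lemma Fp_coeff_d (h : Good d P Q A) (y : ℂ) : (Fp P Q y).coeff d = P.coeff d - y := by
  rw [Fp_coeff, h.Qcoeff, mul_one]

lemma Fp_natDegree (h : Good d P Q A) {y : ℂ} (hy : P.coeff d ≠ y) :
    (Fp P Q y).natDegree = d := by
  refine le_antisymm (h.Fp_natDegree_le y) (le_natDegree_of_ne_zero ?_)
  rw [h.Fp_coeff_d]
  exact sub_ne_zero.mpr hy

lemma Fp_lead (h : Good d P Q A) {y : ℂ} (hy : P.coeff d ≠ y) :
    (Fp P Q y).leadingCoeff = P.coeff d - y := by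
  rw [leadingCoeff, h.Fp_natDegree hy, h.Fp_coeff_d]

lemma Fp_ne (h : Good d P Q A) {y : ℂ} (hy : P.coeff d ≠ y) : Fp P Q y ≠ 0 := by
  intro h0
  have := h.Fp_lead hy
  rw [h0, leadingCoeff_zero] at this
  exact sub_ne_zero.mpr hy this.symm

lemma no_common (h : Good d P Q A) {x : ℂ} (hP : P.eval x = 0) : Q.eval x ≠ 0 := by
  intro hQ
  obtain ⟨a, b, hab⟩ := h.cop
  have := congrArg (eval x) hab
  simp [hP, hQ] at this

/-- the points of the fibre over `y` -/
lemma mem_fib (h : Good d P Q A) {x y : ℂ} :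
    (Fp P Q y).eval x = 0 ↔ Q.eval x ≠ 0 ∧ P.eval x / Q.eval x = y := by
  rw [Fp_eval]
  constructor
  · intro h0
    have hQ : Q.eval x ≠ 0 := by
      intro hQ
      rw [hQ, mul_zero, sub_zero] at h0
      exact h.no_common h0 hQ
    refine ⟨hQ, ?_⟩
    rw [div_eq_iff hQ]
    linear_combination h0
  · rintro ⟨hQ, rfl⟩
    field_simp
    ring

lemma Fp_coprime (h : Good d P Q A) {a b : ℂ} (hab : a ≠ b) :
    IsCoprime (Fp P Q a) (Fp P Q b) := by
  obtain ⟨u, v, huv⟩ := h.cop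
  have hc : C (b - a) * C (b - a)⁻¹ = (1 : ℂ[X]) := by
    rw [← C_mul, mul_inv_cancel₀ (sub_ne_zero.mpr hab.symm), C_1]
  -- Q = (F_a - F_b)/(b-a), P = (b F_a - a F_b)/(b-a)
  refine ⟨C (b - a)⁻¹ * (u * C b + v), - C (b - a)⁻¹ * (u * C a + v), ?_⟩
  have e : C (b - a)⁻¹ * (u * C b + v) * Fp P Q a + - C (b - a)⁻¹ * (u * C a + v) * Fp P Q b
      = (C (b - a) * C (b - a)⁻¹) * (u * P + v * Q) := by
    unfold Fp
    simp only [C_sub]
    ring
  rw [e, hc, huv, one_mul]

lemma Wr_natDegree_le (h : Good d P Q A) : (Wr P Q).natDegree ≤ 2 * d - 2 := by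
  have hd := h.hd
  have h1 : (Wr P Q).natDegree ≤ 2 * d - 1 := by
    unfold Wr
    refine (natDegree_sub_le _ _).trans (max_le ?_ ?_)
    · refine (natDegree_mul_le).trans ?_
      have := natDegree_derivative_le P
      have := h.Pd
      have := h.Qd
      omega
    · refine (natDegree_mul_le).trans ?_
      have := natDegree_derivative_le Q
      have := h.Pd
      have := h.Qd
      omega
  have h2 : (Wr P Q).coeff (2 * d - 1) = 0 := by
    have e : 2 * d - 1 = (d - 1) + d := by omega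
    have e' : 2 * d - 1 = d + (d - 1) := by omega
    unfold Wr
    rw [coeff_sub]
    have hP' : (derivative P).natDegree ≤ d - 1 := (natDegree_derivative_le P).trans
      (Nat.sub_le_sub_right h.Pd 1)
    have hQ' : (derivative Q).natDegree ≤ d - 1 := (natDegree_derivative_le Q).trans
      (Nat.sub_le_sub_right h.Qd.le 1)
    have c1 : (derivative P * Q).coeff (2 * d - 1) = (derivative P).coeff (d - 1) * Q.coeff d := by
      rw [e]; exact coeff_mul_add_eq_of_natDegree_le hP' h.Qd.le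
    have c2 : (P * derivative Q).coeff (2 * d - 1) = P.coeff d * (derivative Q).coeff (d - 1) := by
      rw [e']; exact coeff_mul_add_eq_of_natDegree_le h.Pd hQ'
    rw [c1, c2, coeff_derivative, coeff_derivative]
    have : d - 1 + 1 = d := by omega
    rw [this]
    ring
  rw [natDegree_le_iff_coeff_eq_zero] at h1 ⊢
  intro k hk
  rcases Nat.lt_or_ge (2 * d - 1) k with hk' | hk'
  · exact h1 k hk'
  · have : k = 2 * d - 1 := by omega
    rw [this, h2]

lemma Wr_natDegree (h : Good d P Q A) : (Wr P Q).natDegree = 2 * d - 2 :=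
  le_antisymm h.Wr_natDegree_le (le_natDegree_of_ne_zero h.Wd)

lemma Wr_ne (h : Good d P Q A) : Wr P Q ≠ 0 := by
  intro h0
  exact h.Wd (by rw [h0, coeff_zero])

/-- Multiplicities: if `x` is a zero of `F_y` of order `e` then it is a zero of order `e - 1`
of the Wronskian; precise version. -/
lemma Wr_factor {P Q : ℂ[X]} {x y : ℂ} {e : ℕ} (he : 0 < e) {u : ℂ[X]}
    (hu : Fp P Q y = (X - C x) ^ e * u) :
    Wr P Q = (X - C x) ^ (e - 1) *
      (Q * (C (e : ℂ) * u + (X - C x) * derivative u) - (X - C x) * u * derivative Q) := by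
  rw [Wr_eq P Q y, hu]
  obtain ⟨k, rfl⟩ : ∃ k, e = k + 1 := ⟨e - 1, by omega⟩
  simp only [derivative_mul, derivative_X_sub_C_pow, Nat.add_sub_cancel]
  push_cast
  rw [C_add, C_1]
  ring

end Good

end

end Pool.Agent.H22
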