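import Pool.Agent.H22.Sphere

/-!
The points where a rational map is not locally injective.
-/

set_option autoImplicit false
open Polynomial Filter Set Topology OnePoint

namespace Pool.Agent.H22

noncomputable section

/-- points where the map is not locally injective -/
def critSet {X Y : Type*} [TopologicalSpace X] (F : X → Y) : Set X :=
  {x | ∀ U ∈ 𝓝 x, ¬ InjOn F U}

lemma critSet_post {X Y Z : Type*} [TopologicalSpace X] (F : X → Y) {J : Y → Z}
    (hJ : Function.Injective J) (x : X) : x ∈ critSet (fun z => J (F z)) ↔ x ∈ critSet F := by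
  refine forall₂_congr fun U _ => not_congr ?_
  constructor
  · intro h z1 hz1 z2 hz2 h12
    exact h hz1 hz2 (congrArg J h12)
  · intro h z1 hz1 z2 hz2 h12
    exact h hz1 hz2 (hJ h12)

lemma critSet_pre {X Y Z : Type*} [TopologicalSpace X] [TopologicalSpace Y] (F : Y → Z)
    (J : X ≃ₜ Y) (x : X) : x ∈ critSet (fun z => F (J z)) ↔ J x ∈ critSet F := by
  constructor
  · intro h U hU hinj
    refine h (J ⁻¹' U) (J.continuous.continuousAt.preimage_mem_nhds hU) ?_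
    intro z1 hz1 z2 hz2 h12
    exact J.injective (hinj hz1 hz2 h12)
  · intro h U hU hinj
    have h1 : J '' U ∈ 𝓝 (J x) := by
      rw [← J.map_nhds_eq]
      exact image_mem_map hU
    refine h _ h1 ?_
    rintro _ ⟨z1, hz1, rfl⟩ _ ⟨z2, hz2, rfl⟩ h12
    exact congrArg J (hinj hz1 hz2 h12)

lemma atMost_post {X Y Z : Type*} [TopologicalSpace X] {F : X → Y} {J : Y → Z}
    (hJ : Function.Injective J) {x : X} {m : ℕ} (h : AtMost F x m) :
    AtMost (fun z => J (F z)) x m := by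
  obtain ⟨U, hU, h1⟩ := h
  refine ⟨U, hU, fun y => ?_⟩
  rcases (((fun z => J (F z)) ⁻¹' {y}) ∩ U).eq_empty_or_nonempty with h0 | ⟨z, hz1, hz2⟩
  · rw [h0]; simp
  · have hz1' : J (F z) = y := hz1
    refine le_trans (encard_le_encard ?_) (h1 (F z))
    rintro w ⟨hw1, hw2⟩
    have hw1' : J (F w) = y := hw1
    exact ⟨hJ (hw1'.trans hz1'.symm), hw2⟩

lemma atMost_pre {X Y Z : Type*} [TopologicalSpace X] [TopologicalSpace Y] {F : Y → Z}
    (J : X ≃ₜ Y) {x : X} {m : ℕ} (h : AtMost F (J x) m) : AtMost (fun z => F (J z)) x m := by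
  obtain ⟨U, hU, h1⟩ := h
  refine ⟨J ⁻¹' U, J.continuous.continuousAt.preimage_mem_nhds hU, fun y => ?_⟩
  refine (encard_le_encard_of_injOn (t := F ⁻¹' {y} ∩ U) (f := J) ?_ J.injective.injOn).trans (h1 y)
  rintro z ⟨hz1, hz2⟩
  exact ⟨hz1, hz2⟩

lemma Nd.not_const {d : ℕ} {P Q : ℂ[X]} (h : Nd d P Q) (hd : 1 ≤ d) (a : ℂ) :
    P - C a * Q ≠ 0 := by
  intro h0
  have h1 : P = C a * Q := sub_eq_zero.mp h0
  have hQc : Q.coeff d ≠ 0 := by
    intro h2
    have h3 : P.coeff d = 0 := by rw [h1, coeff_C_mul, h2, mul_zero]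
    rcases h.inf with h4 | h4
    · exact h4 h3
    · exact h4 h2
  have hdeg : Q.degree ≠ 0 := by
    intro h2
    have : Q.natDegree = 0 := natDegree_eq_of_degree_eq_some h2
    have h3 := le_natDegree_of_ne_zero hQc
    omega
  obtain ⟨x, hx⟩ := IsAlgClosed.exists_root Q hdeg
  have hx' : Q.eval x = 0 := hx
  rcases h.fin x with h4 | h4
  · apply h4
    rw [h1, eval_mul, hx', mul_zero]
  · exact h4 hx'

/-- the local data at a finite point with finite value -/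
lemma Nd.local_data {d : ℕ} {P Q : ℂ[X]} (h : Nd d P Q) (hd : 1 ≤ d) {x : ℂ}
    (hQ : Q.eval x ≠ 0) : ∃ u : ℂ[X],
      0 < rootMultiplicity x (Fp P Q (P.eval x / Q.eval x)) ∧
      Fp P Q (P.eval x / Q.eval x) =
        (X - C x) ^ rootMultiplicity x (Fp P Q (P.eval x / Q.eval x)) * u ∧ u.eval x ≠ 0 := by
  have hne := h.not_const hd (P.eval x / Q.eval x)
  obtain ⟨u, hu, hnd⟩ := exists_eq_pow_rootMultiplicity_mul_and_not_dvd
    (Fp P Q (P.eval x / Q.eval x)) hne x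
  refine ⟨u, (rootMultiplicity_pos hne).mpr ?_, hu, fun h0 => hnd (dvd_iff_isRoot.mpr h0)⟩
  rw [IsRoot.def]
  simp only [eval_sub, eval_mul, eval_C]
  field_simp
  ring

lemma RM_coe_of_ne {d : ℕ} {P Q : ℂ[X]} {x : ℂ} (hQ : Q.eval x ≠ 0) :
    RM d P Q x = ((P.eval x / Q.eval x : ℂ) : OnePoint ℂ) := by
  rw [RM_coe, pt_ne hQ]

/-- transfer of the local multiplicity to the sphere -/
lemma atMost_coe {d : ℕ} {P Q : ℂ[X]} {x : ℂ} (hQ : Q.eval x ≠ 0) {m : ℕ}
    (h : AtMost (fun z => P.eval z / Q.eval z) x m) : AtMost (RM d P Q) (x : OnePoint ℂ) m := by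
  obtain ⟨U, hU, h1⟩ := h
  have hQe : ∀ᶠ z in 𝓝 x, Q.eval z ≠ 0 := (Q.continuous.continuousAt).eventually_ne hQ
  refine ⟨(fun z : ℂ => (z : OnePoint ℂ)) '' (U ∩ {z | Q.eval z ≠ 0}), ?_, fun y => ?_⟩
  · rw [nhds_coe_eq]
    exact image_mem_map (inter_mem hU hQe)
  · have hsub : RM d P Q ⁻¹' {y} ∩ (fun z : ℂ => (z : OnePoint ℂ)) '' (U ∩ {z | Q.eval z ≠ 0}) ⊆
        (fun z : ℂ => (z : OnePoint ℂ)) '' {z | z ∈ U ∧ Q.eval z ≠ 0 ∧
          ((P.eval z / Q.eval z : ℂ) : OnePoint ℂ) = y} := by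
      rintro _ ⟨hz1, ⟨z, ⟨hzU, hzQ⟩, rfl⟩⟩
      have hzQ' : Q.eval z ≠ 0 := hzQ
      have hz1' : RM d P Q z = y := hz1
      rw [RM_coe_of_ne hzQ'] at hz1'
      exact ⟨z, ⟨hzU, hzQ', hz1'⟩, rfl⟩
    refine (encard_le_encard hsub).trans ((encard_image_le _ _).trans ?_)
    rcases ({z | z ∈ U ∧ Q.eval z ≠ 0 ∧ ((P.eval z / Q.eval z : ℂ) : OnePoint ℂ) = y}
      ).eq_empty_or_nonempty with h0 | ⟨w, hw1, hw2, hw3⟩
    · rw [h0]; simp
    · refine (encard_le_encard ?_).trans (h1 (P.eval w / Q.eval w))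
      rintro z ⟨hz1, hz2, hz3⟩
      refine ⟨?_, hz1⟩
      rw [← hw3] at hz3
      exact OnePoint.coe_injective hz3

lemma atMost_one_not_crit {X Y : Type*} [TopologicalSpace X] {F : X → Y} {x : X}
    (h : AtMost F x 1) : x ∉ critSet F := by
  obtain ⟨U, hU, h1⟩ := h.injOn
  exact fun h2 => h2 U hU h1

lemma crit_coe_aux {d : ℕ} {P Q : ℂ[X]} (h : Nd d P Q) (hd : 1 ≤ d) {x : ℂ}
    (hQ : Q.eval x ≠ 0) :
    ((Wr P Q).eval x = 0 ∧ (x : OnePoint ℂ) ∈ critSet (RM d P Q)) ∨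
    ((Wr P Q).eval x ≠ 0 ∧ AtMost (RM d P Q) (x : OnePoint ℂ) 1) := by
  obtain ⟨u, hpos, hu, hux⟩ := h.local_data hd hQ
  set a := P.eval x / Q.eval x with ha
  set m := rootMultiplicity x (Fp P Q a) with hm
  have hW : rootMultiplicity x (Wr P Q) = m - 1 := by
    refine rootMultiplicity_of_factor (Good.Wr_factor hpos hu) ?_
    simp only [eval_sub, eval_mul, eval_add, eval_C, eval_X, sub_self, zero_mul, add_zero,
      sub_zero]
    refine mul_ne_zero hQ (mul_ne_zero ?_ hux)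
    exact_mod_cast hpos.ne'
  have hWr : Wr P Q = (X - C x) ^ (m - 1) *
      (Q * (C (m : ℂ) * u + (X - C x) * derivative u) - (X - C x) * u * derivative Q) :=
    Good.Wr_factor hpos hu
  by_cases hm1 : m = 1
  · right
    constructor
    · rw [hWr, hm1, Nat.sub_self, pow_zero, one_mul]
      simp only [eval_sub, eval_mul, eval_add, eval_C, eval_X, sub_self, zero_mul, add_zero,
        sub_zero]
      refine mul_ne_zero hQ (mul_ne_zero ?_ hux)
      simp
    · apply atMost_coe hQ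
      rw [hm1] at hu
      exact local_atMost one_ne_zero hQ hu hux
  · left
    have hm2 : 2 ≤ m := by omega
    constructor
    · rw [hWr, eval_mul, eval_pow, eval_sub, eval_X, eval_C, sub_self,
        zero_pow (by omega), zero_mul]
    · intro U hU hinj
      rw [nhds_coe_eq] at hU
      have hQe : ∀ᶠ z in 𝓝 x, Q.eval z ≠ 0 := (Q.continuous.continuousAt).eventually_ne hQ
      refine local_not_inj hm2 hQ hu hux _ (inter_mem (mem_map.mp hU) hQe) ?_
      rintro z1 ⟨hz1, hz1'⟩ z2 ⟨hz2, hz2'⟩ h12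
      have hz1q : Q.eval z1 ≠ 0 := hz1'
      have hz2q : Q.eval z2 ≠ 0 := hz2'
      have h3 : RM d P Q z1 = RM d P Q z2 := by
        rw [RM_coe_of_ne hz1q, RM_coe_of_ne hz2q]
        exact congrArg _ h12
      exact OnePoint.coe_injective (hinj hz1 hz2 h3)

/-- the exchange of the two polynomials -/
lemma Nd.symm {d : ℕ} {P Q : ℂ[X]} (h : Nd d P Q) : Nd d Q P where
  Pd := h.Qd
  Qd := h.Pd
  fin := fun x => (h.fin x).symm
  inf := h.inf.symm

/-- the inversion as a homeomorphism -/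
def invH : OnePoint ℂ ≃ₜ OnePoint ℂ := mobH 0 1 1 0 (by simp)

lemma RM_symm {d : ℕ} {P Q : ℂ[X]} (h : Nd d P Q) : RM d P Q = fun z => invH (RM d Q P z) := by
  funext z
  change _ = mob 0 1 1 0 _
  rw [mob_RM h.symm]
  simp

lemma RM_invH {d : ℕ} {P Q : ℂ[X]} (h : Nd d P Q) :
    RM d P Q = fun z => RM d (Sb d P 0 1 1 0) (Sb d Q 0 1 1 0) (invH z) := by
  funext z
  exact RM_eq_inv h z

lemma Wr_symm (P Q : ℂ[X]) : Wr Q P = - Wr P Q := by
  unfold Wr
  ring

lemma crit_coe_aux' {d : ℕ} {P Q : ℂ[X]} (h : Nd d P Q) (hd : 1 ≤ d) (x : ℂ) :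
    ((Wr P Q).eval x = 0 ∧ (x : OnePoint ℂ) ∈ critSet (RM d P Q)) ∨
    ((Wr P Q).eval x ≠ 0 ∧ AtMost (RM d P Q) (x : OnePoint ℂ) 1) := by
  by_cases hQ : Q.eval x = 0
  · have hP : P.eval x ≠ 0 := by
      rcases h.fin x with h1 | h1
      · exact h1
      · exact absurd hQ h1
    have h1 := crit_coe_aux h.symm hd hP
    rw [Wr_symm] at h1
    simp only [eval_neg, neg_eq_zero, ne_eq] at h1
    rcases h1 with ⟨h2, h3⟩ | ⟨h2, h3⟩
    · left
      refine ⟨h2, ?_⟩
      rw [RM_symm h]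
      exact (critSet_post _ invH.injective _).mpr h3
    · right
      refine ⟨h2, ?_⟩
      rw [RM_symm h]
      exact atMost_post invH.injective h3
  · exact crit_coe_aux h hd hQ

lemma Wr_coeff {d : ℕ} (hd : 2 ≤ d) {P Q : ℂ[X]} (hP : P.natDegree ≤ d) (hQ : Q.natDegree ≤ d) :
    (Wr P Q).coeff (2 * d - 2) = P.coeff d * Q.coeff (d - 1) - P.coeff (d - 1) * Q.coeff d := by
  obtain ⟨k, rfl⟩ : ∃ k, d = k + 2 := ⟨d - 2, by omega⟩
  have key : ∀ (p q : ℂ[X]), p.natDegree ≤ k + 2 → q.natDegree ≤ k + 2 →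
      (derivative p * q).coeff (2 * (k + 2) - 2) =
        ((k : ℂ) + 1) * p.coeff (k + 1) * q.coeff (k + 2) +
        ((k : ℂ) + 2) * p.coeff (k + 2) * q.coeff (k + 1) := by
    intro p q hp hq
    rw [coeff_mul, Finset.Nat.sum_antidiagonal_eq_sum_range_succ_mk,
      ← Finset.sum_subset (s₁ := {k, k + 1})]
    · rw [Finset.sum_pair (by omega)]
      simp only [coeff_derivative]
      rw [show 2 * (k + 2) - 2 - k = k + 2 by omega,
        show 2 * (k + 2) - 2 - (k + 1) = k + 1 by omega]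
      push_cast
      ring
    · intro i hi
      simp only [Finset.mem_insert, Finset.mem_singleton] at hi
      simp only [Finset.mem_range]
      omega
    · intro i hi hi2
      simp only [Finset.mem_range] at hi
      simp only [Finset.mem_insert, Finset.mem_singleton, not_or] at hi2
      rcases Nat.lt_or_ge i k with h1 | h1
      · have : q.coeff (2 * (k + 2) - 2 - i) = 0 :=
          coeff_eq_zero_of_natDegree_lt (by omega)
        simp [this]
      · have : p.coeff (i + 1) = 0 := coeff_eq_zero_of_natDegree_lt (by omega)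
        simp [coeff_derivative, this]
  have e : Wr P Q = derivative P * Q - derivative Q * P := by unfold Wr; ring
  rw [e, coeff_sub, key P Q hP hQ, key Q P hQ hP]
  rw [show k + 2 - 1 = k + 1 by omega]
  ring

lemma Sb_inv_coeff (d : ℕ) (p : ℂ[X]) {i : ℕ} (hi : i ≤ d) :
    (Sb d p 0 1 1 0).coeff i = p.coeff (d - i) := by
  unfold Sb
  simp only [C_0, zero_mul, C_1, one_mul, zero_add, one_pow, mul_one, add_zero]
  rw [finsetSum_coeff, Finset.sum_eq_single (d - i)]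
  · rw [coeff_C_mul, coeff_X_pow, if_pos (by omega), mul_one]
  · intro j hj hne
    have := Finset.mem_range.mp hj
    rw [coeff_C_mul, coeff_X_pow, if_neg (by omega), mul_zero]
  · intro h1
    exact absurd (Finset.mem_range.mpr (by omega)) h1

lemma crit_infty_aux {d : ℕ} {P Q : ℂ[X]} (h : Nd d P Q) (hd : 2 ≤ d) :
    ((Wr P Q).coeff (2 * d - 2) = 0 ∧ ∞ ∈ critSet (RM d P Q)) ∨
    ((Wr P Q).coeff (2 * d - 2) ≠ 0 ∧ AtMost (RM d P Q) ∞ 1) := by
  have h1 := crit_coe_aux' (h.Sb (a := 0) (b := 1) (c := 1) (e := 0) (by simp)) (by omega) 0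
  have h2 : (Wr (Sb d P 0 1 1 0) (Sb d Q 0 1 1 0)).eval 0 = - (Wr P Q).coeff (2 * d - 2) := by
    rw [Wr_coeff hd h.Pd h.Qd, ← coeff_zero_eq_eval_zero]
    unfold Wr
    rw [coeff_sub, mul_coeff_zero, mul_coeff_zero, coeff_derivative, coeff_derivative,
      Sb_inv_coeff d P (by omega), Sb_inv_coeff d P (by omega), Sb_inv_coeff d Q (by omega),
      Sb_inv_coeff d Q (by omega)]
    simp only [Nat.sub_zero, zero_add]
    push_cast
    ring
  rw [h2] at h1
  simp only [neg_eq_zero, ne_eq] at h1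
  have h3 : invH ∞ = ((0 : ℂ) : OnePoint ℂ) := inv_infty
  rcases h1 with ⟨h4, h5⟩ | ⟨h4, h5⟩
  · left
    refine ⟨h4, ?_⟩
    rw [RM_invH h, critSet_pre, h3]
    exact h5
  · right
    refine ⟨h4, ?_⟩
    rw [RM_invH h]
    apply atMost_pre invH
    rw [h3]
    exact h5

lemma crit_coe_iff {d : ℕ} {P Q : ℂ[X]} (h : Nd d P Q) (hd : 1 ≤ d) (x : ℂ) :
    (x : OnePoint ℂ) ∈ critSet (RM d P Q) ↔ (Wr P Q).eval x = 0 := by
  rcases crit_coe_aux' h hd x with ⟨h1, h2⟩ | ⟨h1, h2⟩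
  · exact ⟨fun _ => h1, fun _ => h2⟩
  · exact ⟨fun h3 => absurd h3 (atMost_one_not_crit h2), fun h3 => absurd h3 h1⟩

lemma crit_infty_iff {d : ℕ} {P Q : ℂ[X]} (h : Nd d P Q) (hd : 2 ≤ d) :
    ∞ ∈ critSet (RM d P Q) ↔ (Wr P Q).coeff (2 * d - 2) = 0 := by
  rcases crit_infty_aux h hd with ⟨h1, h2⟩ | ⟨h1, h2⟩
  · exact ⟨fun _ => h1, fun _ => h2⟩
  · exact ⟨fun h3 => absurd h3 (atMost_one_not_crit h2), fun h3 => absurd h3 h1⟩

end

end Pool.Agent.H22
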