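import Pool.Agent.H22.Lab

/-!
Finiteness of the set of normalized good maps.
-/

set_option autoImplicit false
open Polynomial Filter

namespace Pool.Agent.H22

variable {θ : (ℕ → ℂ) →+* ℂ}

lemma Lm.wr {p q : ℕ → ℂ[X]} {P Q : ℂ[X]} (hP : Lm θ p P) (hQ : Lm θ q Q) :
    Lm θ (fun k => Wr (p k) (q k)) (Wr P Q) :=
  (hP.derivative.mul hQ).sub (hP.mul hQ.derivative)

/-- transfer of the labelled structure to the limit -/
theorem Lab.limit (hθ : IsLimit θ) {d n : ℕ} {p q : ℕ → ℂ[X]} {a : Fin n → ℕ → ℂ}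
    {c : Fin (2 * d - 2) → ℕ → ℂ}
    (h : ∀ k, Lab d n (p k) (q k) (fun i => a i k) (fun j => c j k)) {P Q : ℂ[X]}
    (hP : Lm θ p P) (hQ : Lm θ q Q) :
    Lab d n P Q (fun i => θ (a i)) (fun j => θ (c j)) := by
  have hPd : ∀ k, (p k).natDegree ≤ d := fun k => (h k).Pd
  have hQd : ∀ k, (q k).natDegree ≤ d := fun k => (h k).Qd
  have ev : ∀ (x b : ℕ → ℂ), P.eval (θ x) - θ b * Q.eval (θ x) =
      θ (fun k => (p k).eval (x k) - b k * (q k).eval (x k)) := by
    intro x b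
    rw [theta_sub (fun k => (p k).eval (x k)) (fun k => b k * (q k).eval (x k)),
      theta_mul b (fun k => (q k).eval (x k)), hP.eval hPd, hQ.eval hQd]
  have evp : ∀ (s : Finset (Fin n)) (x : ℕ → ℂ),
      ∏ i ∈ s, (P.eval (θ x) - θ (a i) * Q.eval (θ x)) =
      θ (fun k => ∏ i ∈ s, ((p k).eval (x k) - a i k * (q k).eval (x k))) := by
    intro s x
    rw [theta_prod s (fun i k => (p k).eval (x k) - a i k * (q k).eval (x k))]
    exact Finset.prod_congr rfl fun i _ => ev x (a i)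
  have hW := hP.wr hQ
  refine
    { hd := (h 0).hd
      Pd := hP.natDegree_le hPd
      Qd := hQ.natDegree_le hQd
      Qc := ?_
      wr := ?_
      wd := ?_
      inj := ?_
      inf := ?_
      mapsQ := ?_
      maps := ?_
      critQ := ?_
      crit := ?_
      nfix := ?_
      min := ?_ }
  · rw [hQ d]
    have : (fun k => (q k).coeff d) = 1 := by
      funext k
      exact (h k).Qc
    rw [this, map_one]
  · have h1 : Lm θ (fun k => C ((Wr (p k) (q k)).coeff (2 * d - 2)) * ∏ j, (X - C (c j k)))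
        (C (θ fun k => (Wr (p k) (q k)).coeff (2 * d - 2)) * ∏ j, (X - C (θ (c j)))) :=
      (Lm.C _).mul (Lm.prod Finset.univ fun j _ => Lm.X_sub_C (c j))
    have h2 : (fun k => C ((Wr (p k) (q k)).coeff (2 * d - 2)) * ∏ j, (X - C (c j k))) =
        fun k => Wr (p k) (q k) := by
      funext k
      exact (h k).wr.symm
    rw [h2] at h1
    rw [← hW (2 * d - 2)] at h1
    exact hW.congr h1
  · rw [hW (2 * d - 2)]
    exact hθ.ne0 fun k => (h k).wd
  · intro i j hij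
    rw [← theta_sub (a i) (a j)]
    exact hθ.ne0 fun k => (h k).inj i j hij
  · intro i
    rw [hP d, ← theta_sub (fun k => (p k).coeff d) (a i)]
    exact hθ.ne0 fun k => (h k).inf i
  · intro i
    rw [hQ.eval hQd]
    exact hθ.ne0 fun k => (h k).mapsQ i
  · intro i
    rw [evp]
    exact hθ.eq0 fun k => (h k).maps i
  · intro i
    rw [hQ.eval hQd]
    exact hθ.ne0 fun k => (h k).critQ i
  · intro i
    rw [evp]
    exact hθ.eq0 fun k => (h k).crit i
  · rw [hP d, ev]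
    exact hθ.ne0 fun k => (h k).nfix
  · intro I hI
    have h1 : ∀ᶠ k in (hyperfilter ℕ : Filter ℕ),
        (∃ j, ∏ i ∈ I, ((p k).eval (c j k) - a i k * (q k).eval (c j k)) ≠ 0) ∨
        (∃ l : {l : Fin n // l ∈ I}, ∏ i ∈ I, ((p k).eval (a l k) - a i k * (q k).eval (a l k)) ≠ 0) :=
      Eventually.of_forall fun k => (h k).min I hI
    rw [Ultrafilter.eventually_or] at h1
    rcases h1 with h1 | h1
    · left
      obtain ⟨j, hj⟩ := ultra_exists h1
      refine ⟨j, ?_⟩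
      rw [evp]
      exact hθ.ne0' hj
    · right
      obtain ⟨l, hl⟩ := ultra_exists h1
      refine ⟨l, ?_⟩
      rw [evp]
      exact hθ.ne0' hl

lemma theta_congr (hθ : IsLimit θ) {f g : ℕ → ℂ}
    (h : ∀ᶠ k in (hyperfilter ℕ : Filter ℕ), f k = g k) : θ f = θ g := by
  rw [← sub_eq_zero, ← map_sub, hθ]
  filter_upwards [h] with k hk
  rw [Pi.sub_apply, hk, sub_self]

theorem NL.limit (hθ : IsLimit θ) {d n : ℕ} {p q : ℕ → ℂ[X]} {a : Fin n → ℕ → ℂ}
    {c : Fin (2 * d - 2) → ℕ → ℂ}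
    (h : ∀ k, Lab d n (p k) (q k) (fun i => a i k) (fun j => c j k)) {P Q : ℂ[X]}
    (hP : Lm θ p P) (hQ : Lm θ q Q) (hNL : ∀ k, NL d n (p k) (q k) (fun i => a i k)) :
    NL d n P Q (fun i => θ (a i)) := by
  intro hn4
  have hQd : ∀ k, (q k).natDegree ≤ d := fun k => (h k).Qd
  have h0 : ∀ k, ∃ (x : ℂ) (u : ℂ[X]) (i : Fin n) (m : Fin (d + 1)), (m : ℕ) ≠ 0 ∧
      u.natDegree ≤ d ∧ (q k).eval x ≠ 0 ∧ Fp (p k) (q k) (a i k) = (X - C x) ^ (m : ℕ) * u ∧
      u.eval x ≠ 0 ∧ (((∃ l, x = a l k) ∧ (m : ℕ) ≠ 1) ∨ ((∀ l, x ≠ a l k) ∧ (m : ℕ) ≠ 2)) := by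
    intro k
    obtain ⟨i, m, x, u, h1⟩ := hNL k hn4
    exact ⟨x, u, i, m, h1⟩
  choose x u h1 using h0
  have h2 : ∀ᶠ k in (hyperfilter ℕ : Filter ℕ), ∃ z : Fin n × Fin (d + 1), (z.2 : ℕ) ≠ 0 ∧
      (u k).natDegree ≤ d ∧ (q k).eval (x k) ≠ 0 ∧
      Fp (p k) (q k) (a z.1 k) = (X - C (x k)) ^ (z.2 : ℕ) * u k ∧
      (u k).eval (x k) ≠ 0 ∧ (((∃ l, x k = a l k) ∧ (z.2 : ℕ) ≠ 1) ∨
        ((∀ l, x k ≠ a l k) ∧ (z.2 : ℕ) ≠ 2)) := by
    refine Eventually.of_forall fun k => ?_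
    obtain ⟨i, m, h3⟩ := h1 k
    exact ⟨(i, m), h3⟩
  obtain ⟨⟨i, m⟩, h3⟩ := ultra_exists h2
  simp only at h3
  have hud : ∀ k, (u k).natDegree ≤ d := fun k => by
    obtain ⟨i, m, h3⟩ := h1 k
    exact h3.2.1
  obtain ⟨U, hU, hUd⟩ := Lm.exists hud θ
  have hm0 : (m : ℕ) ≠ 0 := by
    obtain ⟨k, hk⟩ := h3.exists
    exact hk.1
  refine ⟨i, m, θ x, U, hm0, hUd, ?_, ?_, ?_, ?_⟩
  · rw [hQ.eval hQd]
    exact hθ.ne0' (h3.mono fun k hk => hk.2.2.1)
  · have h4 : Lm θ (fun k => Fp (p k) (q k) (a i k)) (Fp P Q (θ (a i))) :=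
      hP.sub ((Lm.C (a i)).mul hQ)
    have h5 : Lm θ (fun k => (X - C (x k)) ^ (m : ℕ) * u k) ((X - C (θ x)) ^ (m : ℕ) * U) :=
      ((Lm.X_sub_C x).pow _).mul hU
    ext t
    rw [h4 t, h5 t]
    refine theta_congr hθ (h3.mono fun k hk => ?_)
    exact congrArg (fun z => z.coeff t) hk.2.2.2.1
  · rw [hU.eval hud]
    exact hθ.ne0' (h3.mono fun k hk => hk.2.2.2.2.1)
  · have h4 : ∀ᶠ k in (hyperfilter ℕ : Filter ℕ), ((∃ l, x k = a l k) ∧ (m : ℕ) ≠ 1) ∨
        ((∀ l, x k ≠ a l k) ∧ (m : ℕ) ≠ 2) := h3.mono fun k hk => hk.2.2.2.2.2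
    rw [Ultrafilter.eventually_or] at h4
    rcases h4 with h4 | h4
    · left
      have hm1 : (m : ℕ) ≠ 1 := by
        obtain ⟨k, hk⟩ := h4.exists
        exact hk.2
      have h5 : ∀ᶠ k in (hyperfilter ℕ : Filter ℕ), ∃ l, x k = a l k := h4.mono fun k hk => hk.1
      obtain ⟨l, hl⟩ := ultra_exists h5
      exact ⟨⟨l, theta_congr hθ hl⟩, hm1⟩
    · right
      have hm1 : (m : ℕ) ≠ 2 := by
        obtain ⟨k, hk⟩ := h4.exists
        exact hk.2
      refine ⟨fun l => ?_, hm1⟩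
      rw [← sub_ne_zero, ← theta_sub x (a l)]
      exact hθ.ne0' (h4.mono fun k hk => sub_ne_zero.mpr (hk.1 l))

theorem theta_natCast (θ : (ℕ → ℂ) →+* ℂ) (m : ℕ) : θ (fun _ => (m : ℂ)) = m := by
  have : (fun _ : ℕ => (m : ℂ)) = ((m : ℕ) : ℕ → ℂ) := by
    funext k
    simp
  rw [this, map_natCast]

/-- if the limit of a sequence of complex numbers is algebraic then the sequence is constant on
a large set -/
theorem const_of_algebraic (hθ : IsLimit θ) {f : ℕ → ℂ} (h : ¬ Transcendental ℚ (θ f)) :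
    ∃ v, ∀ᶠ k in (hyperfilter ℕ : Filter ℕ), f k = v := by
  classical
  rw [transcendental_iff] at h
  push Not at h
  obtain ⟨w, hw, hw0⟩ := h
  have h1 : θ (fun k => (w.map (algebraMap ℚ ℂ)).eval (f k)) = 0 := by
    have h2 : Lm θ (fun _ => w.map (algebraMap ℚ ℂ)) (w.map (algebraMap ℚ ℂ)) := by
      intro i
      change _ = θ (fun _ => (w.map (algebraMap ℚ ℂ)).coeff i)
      rw [coeff_map]
      have : (fun _ : ℕ => algebraMap ℚ ℂ (w.coeff i)) = algebraMap ℚ (ℕ → ℂ) (w.coeff i) := by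
        funext k
        rfl
      rw [this]
      exact (DFunLike.congr_fun (Subsingleton.elim (θ.comp (algebraMap ℚ (ℕ → ℂ)))
        (algebraMap ℚ ℂ)) (w.coeff i)).symm
    rw [← h2.eval (fun _ => le_rfl), eval_map_algebraMap]
    exact hw
  rw [hθ] at h1
  have hw1 : w.map (algebraMap ℚ ℂ) ≠ 0 := (Polynomial.map_ne_zero_iff
    (algebraMap ℚ ℂ).injective).mpr hw0
  have h3 : ∀ᶠ k in (hyperfilter ℕ : Filter ℕ),
      ∃ v : {v // v ∈ (w.map (algebraMap ℚ ℂ)).roots.toFinset}, f k = v := by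
    refine h1.mono fun k hk => ?_
    exact ⟨⟨f k, by simp only [Multiset.mem_toFinset]; exact (mem_roots hw1).mpr hk⟩, rfl⟩
  obtain ⟨v, hv⟩ := ultra_exists h3
  exact ⟨v, hv⟩

/-- **Finiteness.** -/
theorem finite_good (d n : ℕ) (hn : 4 ≤ n) (r : ℕ) (hr0 : r ≠ 0) (hr1 : r ≠ 1) :
    {z : ℂ[X] × ℂ[X] | ∃ A : Finset ℂ, Good d z.1 z.2 A ∧ A.card = n ∧ (0 : ℂ) ∈ A ∧
      (1 : ℂ) ∈ A ∧ (r : ℂ) ∈ A ∧ ¬ LattesLike z.1 z.2 A}.Finite := by
  classical
  by_contra hinf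
  have hinf' : Set.Infinite _ := hinf
  set e := hinf'.natEmbedding with he
  obtain ⟨θ, hθ⟩ := exists_theta
  have hθ' : IsLimit θ := hθ
  set p : ℕ → ℂ[X] := fun k => (e k).1.1 with hp
  set q : ℕ → ℂ[X] := fun k => (e k).1.2 with hq
  have h0 : ∀ k, ∃ (a : Fin n → ℂ) (c : Fin (2 * d - 2) → ℂ), Lab d n (p k) (q k) a c ∧
      NL d n (p k) (q k) a ∧ (∃ i, a i = 0) ∧ (∃ i, a i = 1) ∧ (∃ i, a i = r) := by
    intro k
    obtain ⟨A, hA, hcard, hA0, hA1, hAr, hL⟩ := (e k).2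
    set a : Fin n → ℂ := fun i => ((A.equivFinOfCardEq hcard).symm i : ℂ) with ha
    have hinj : Function.Injective a := by
      intro i j hij
      exact (A.equivFinOfCardEq hcard).symm.injective (Subtype.ext hij)
    have himg : Finset.univ.image a = A := by
      ext z
      simp only [Finset.mem_image, Finset.mem_univ, true_and]
      constructor
      · rintro ⟨i, rfl⟩
        exact ((A.equivFinOfCardEq hcard).symm i).2
      · intro hz
        exact ⟨A.equivFinOfCardEq hcard ⟨z, hz⟩, by simp [ha]⟩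
    have hex : ∀ z ∈ A, ∃ i, a i = z := by
      intro z hz
      rw [← himg] at hz
      obtain ⟨i, _, hi⟩ := Finset.mem_image.mp hz
      exact ⟨i, hi⟩
    obtain ⟨c, hc⟩ := hA.lab a hinj himg
    exact ⟨a, c, hc, NL.of hA hinj himg hL, hex _ hA0, hex _ hA1, hex _ hAr⟩
  choose a' c' hlab hNL h00 h01 h0r using h0
  set a : Fin n → ℕ → ℂ := fun i k => a' k i with ha
  set c : Fin (2 * d - 2) → ℕ → ℂ := fun j k => c' k j with hc
  obtain ⟨P, hP, -⟩ := Lm.exists (fun k => (hlab k).Pd) θ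
  obtain ⟨Q, hQ, -⟩ := Lm.exists (fun k => (hlab k).Qd) θ
  have hLab : Lab d n P Q (fun i => θ (a i)) (fun j => θ (c j)) := Lab.limit hθ' hlab hP hQ
  have hNLl : NL d n P Q (fun i => θ (a i)) := NL.limit hθ' hlab hP hQ hNL
  have hnL := NL.not_lattes hLab hNLl
  obtain ⟨hGood, hinj⟩ := hLab.good
  set A := Finset.univ.image (fun i => θ (a i)) with hA
  have hcardA : A.card = n := by
    rw [hA, Finset.card_image_of_injective _ hinj, Finset.card_univ, Fintype.card_fin]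
  have hmem : ∀ m : ℕ, (∀ k, ∃ i, a' k i = m) → (m : ℂ) ∈ A := by
    intro m hm
    have h1 : ∀ᶠ k in (hyperfilter ℕ : Filter ℕ), ∃ i, a' k i = (m : ℂ) := Eventually.of_forall hm
    obtain ⟨i, hi⟩ := ultra_exists h1
    refine Finset.mem_image.mpr ⟨i, Finset.mem_univ i, ?_⟩
    rw [← theta_natCast θ m]
    exact theta_congr hθ' hi
  have hA0 : (0 : ℂ) ∈ A := by simpa using hmem 0 (fun k => by simpa using h00 k)
  have hA1 : (1 : ℂ) ∈ A := by simpa using hmem 1 (fun k => by simpa using h01 k)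
  have hAr : (r : ℂ) ∈ A := hmem r h0r
  -- rigidity
  obtain ⟨K, hK⟩ := hGood.exists_K
  have hrigid : ∀ D : Derivation ℤ ℂ ℂ, dm D P = 0 ∧ dm D Q = 0 := by
    intro D
    refine hGood.rigid_map D ?_ (by omega)
    refine hGood.rigid_points hK (by omega) ?_ D hA0 hA1 hAr zero_ne_one ?_ ?_ (map_zero D)
      (D.map_one_eq_zero) (D.map_natCast r)
    · intro N hN hT
      by_contra hN0
      exact hnL (hGood.fixed_imp_lattes hK (by omega) hN0 hN hT)
    · exact_mod_cast hr0.symm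
    · exact_mod_cast hr1.symm
  -- all coefficients are algebraic
  have halg : ∀ (w : ℂ[X]), (∀ D : Derivation ℤ ℂ ℂ, dm D w = 0) → ∀ i,
      ¬ Transcendental ℚ (w.coeff i) := by
    intro w hw i ht
    obtain ⟨D, hD⟩ := exists_derivation ht
    apply hD
    rw [← dm_coeff, hw D, coeff_zero]
  have hPc : ∀ i, ∃ v, ∀ᶠ k in (hyperfilter ℕ : Filter ℕ), (p k).coeff i = v := by
    intro i
    apply const_of_algebraic hθ'
    rw [← hP i]
    exact halg P (fun D => (hrigid D).1) i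
  have hQc : ∀ i, ∃ v, ∀ᶠ k in (hyperfilter ℕ : Filter ℕ), (q k).coeff i = v := by
    intro i
    apply const_of_algebraic hθ'
    rw [← hQ i]
    exact halg Q (fun D => (hrigid D).2) i
  choose v hv using hPc
  choose w hw using hQc
  have h1 : ∀ᶠ k in (hyperfilter ℕ : Filter ℕ), ∀ i : Fin (d + 1), (p k).coeff i = v i ∧
      (q k).coeff i = w i := by
    rw [Filter.eventually_all]
    exact fun i => (hv i).and (hw i)
  -- two different indices
  have h2 : ∀ᶠ k in (hyperfilter ℕ : Filter ℕ), ∃ l, l ≠ k ∧ ∀ i : Fin (d + 1),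
      (p l).coeff i = v i ∧ (q l).coeff i = w i := by
    obtain ⟨l, hl⟩ := h1.exists
    by_cases hall : ∀ᶠ k in (hyperfilter ℕ : Filter ℕ), l ≠ k
    · exact hall.mono fun k hk => ⟨l, hk, hl⟩
    · exfalso
      apply hall
      have : ({l}ᶜ : Set ℕ) ∈ (hyperfilter ℕ : Filter ℕ) :=
        hyperfilter_le_cofinite (Set.finite_singleton l).compl_mem_cofinite
      exact mem_of_superset this fun k hk h3 => hk h3.symm
  obtain ⟨k, hk1, l, hlk, hl⟩ := (h1.and h2).exists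
  have hext : ∀ {f g : ℂ[X]}, f.natDegree ≤ d → g.natDegree ≤ d →
      (∀ i : Fin (d + 1), f.coeff i = g.coeff i) → f = g := by
    intro f g hf hg hfg
    ext i
    by_cases hi : i < d + 1
    · exact hfg ⟨i, hi⟩
    · rw [coeff_eq_zero_of_natDegree_lt (by omega), coeff_eq_zero_of_natDegree_lt (by omega)]
  have hpk : p l = p k := hext (hlab l).Pd (hlab k).Pd fun i => by rw [(hl i).1, (hk1 i).1]
  have hqk : q l = q k := hext (hlab l).Qd (hlab k).Qd fun i => by rw [(hl i).2, (hk1 i).2]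
  apply hlk
  apply e.injective
  apply Subtype.ext
  exact Prod.ext hpk hqk

end Pool.Agent.H22
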