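import Pool.Agent.H22.Norm2

/-!
The bound on the size of the minimal finite global attractor.
-/

set_option autoImplicit false
open Polynomial Filter Set Topology OnePoint

namespace Pool.Agent.H22

lemma deg_good {d : ℕ} {P Q : ℂ[X]} {A : Finset ℂ} (h : Good d P Q A) : Deg (RM d P Q) = d := by
  classical
  have hle : ∀ y, (RM d P Q ⁻¹' {y}).ncard ≤ d := by
    intro y
    have h1 := fibre_encard h.nd (by have := h.hd; omega) y
    have hfin := finite_of_encard_le_coe h1
    rw [← hfin.cast_ncard_eq] at h1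
    exact_mod_cast h1
  obtain ⟨y, hy⟩ : ∃ y : ℂ, y ∉ insert (P.coeff d) A := by
    exact Infinite.exists_notMem_finset _
  rw [Finset.mem_insert, not_or] at hy
  obtain ⟨-, hcard, -⟩ := h.fib_card hy.2 (fun h0 => hy.1 h0.symm)
  have hge : d ≤ (RM d P Q ⁻¹' {((y : ℂ) : Sph)}).ncard := by
    have hsub : (fun z : ℂ => (z : Sph)) '' ((Fp P Q y).roots.toFinset : Set ℂ) ⊆
        RM d P Q ⁻¹' {((y : ℂ) : Sph)} := by
      rintro _ ⟨z, hz, rfl⟩
      simp only [Finset.mem_coe, Multiset.mem_toFinset] at hz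
      have h1 := h.mem_fib.mp ((mem_roots (h.Fp_ne' y)).mp hz)
      simp only [mem_preimage, mem_singleton_iff]
      rw [RM_coe_of_ne h1.1, h1.2]
    have hfin : (RM d P Q ⁻¹' {((y : ℂ) : Sph)}).Finite :=
      finite_of_encard_le_coe (fibre_encard h.nd (by have := h.hd; omega) _)
    have h2 := ncard_le_ncard hsub hfin
    rwa [ncard_image_of_injective _ OnePoint.coe_injective, ncard_coe_finset, hcard] at h2
  unfold Deg
  apply le_antisymm
  · apply csSup_le'
    rintro _ ⟨z, rfl⟩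
    exact hle z
  · refine hge.trans (le_csSup ⟨d, ?_⟩ ⟨_, rfl⟩)
    rintro _ ⟨z, rfl⟩
    exact hle z

theorem attractor_bound : ∃ B : ℕ → ℕ → ℕ, ∀ F : Sph → Sph, (Post F).Finite →
    (∃ d ≥ 2, ∃ G, IsRational d G ∧ ThurstonEquiv F G) →
    (∀ L, IsLattes L → ¬ ThurstonEquiv F L) →
    ∀ A : Set (CurveClass (Post F)), Minimal (IsAttractor F) A →
      A.ncard ≤ B (Post F).ncard (Deg F) := by
  classical
  have key : ∀ n d : ℕ, ∃ b : ℕ, ∀ F : Sph → Sph, (Post F).Finite →
      (∃ d ≥ 2, ∃ G, IsRational d G ∧ ThurstonEquiv F G) →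
      (∀ L, IsLattes L → ¬ ThurstonEquiv F L) → (Post F).ncard = n → Deg F = d →
      ∀ A : Set (CurveClass (Post F)), Minimal (IsAttractor F) A → A.ncard ≤ b := by
    intro n d
    rcases Nat.lt_or_ge 3 n with hn | hn
    · set S : ℕ → Set (ℂ[X] × ℂ[X]) := fun r => {z : ℂ[X] × ℂ[X] | ∃ A : Finset ℂ,
        Good d z.1 z.2 A ∧ A.card = n ∧ (0 : ℂ) ∈ A ∧ (1 : ℂ) ∈ A ∧ (r : ℂ) ∈ A ∧
        ¬ LattesLike z.1 z.2 A} with hS
      have hSfin : (⋃ r ∈ Finset.Icc 2 (d * (n + (d + 1)) + 2), S r).Finite := by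
        refine (Finset.finite_toSet _).biUnion fun r hr => ?_
        rw [Finset.mem_coe, Finset.mem_Icc] at hr
        exact finite_good d n hn r (by omega) (by omega)
      obtain ⟨b, hb⟩ := (hSfin.image fun z => attSize (RM d z.1 z.2)).bddAbove
      refine ⟨b, ?_⟩
      rintro F hFfin ⟨d', hd', G, hG, hFG⟩ hL hcard hdeg A hA
      obtain ⟨-, hGcard, -⟩ := hFG.transfer
      rw [hcard] at hGcard
      have hGfin : (Post G).Finite := finite_of_ncard_pos (by omega)
      obtain ⟨r, hr1, hr2, P, Q, A', M, hconj, hgood, hA'card, h0, h1, hr, hpost⟩ :=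
        normalize hd' (by omega) hG hGfin hGcard.symm
      have hFR : ThurstonEquiv F (RM d' P Q) := hFG.conj M hconj
      have hdd : d' = d := by
        rw [← hdeg, hFR.transfer.2.2, deg_good hgood]
      subst hdd
      have hnL : ¬ LattesLike P Q A' := fun hLL => hL _ (lattes_of hgood hLL hpost) hFR
      rw [hFR.attSize hA]
      apply hb
      refine ⟨(P, Q), ?_, rfl⟩
      simp only [mem_iUnion]
      exact ⟨r, Finset.mem_Icc.mpr ⟨hr1, hr2⟩, A', hgood, hA'card, h0, h1, hr, hnL⟩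
    · refine ⟨1, fun F hFfin _ _ hcard _ A _ => ?_⟩
      exact ncard_le_one hFfin (by omega) A
  choose B hB using key
  exact ⟨B, fun F hF hG hL A hA => hB _ _ F hF hG hL rfl rfl A hA⟩

end Pool.Agent.H22
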