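import Pool.Agent.H22.Lim

/-!
Labelled description of good maps by equations and inequations.
-/

set_option autoImplicit false
open Polynomial Filter

namespace Pool.Agent.H22

structure Lab (d n : ℕ) (P Q : ℂ[X]) (a : Fin n → ℂ) (c : Fin (2 * d - 2) → ℂ) : Prop where
  hd : 2 ≤ d
  Pd : P.natDegree ≤ d
  Qd : Q.natDegree ≤ d
  Qc : Q.coeff d = 1
  wr : Wr P Q = C ((Wr P Q).coeff (2 * d - 2)) * ∏ j, (X - C (c j))
  wd : (Wr P Q).coeff (2 * d - 2) ≠ 0
  inj : ∀ i j, i ≠ j → a i - a j ≠ 0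
  inf : ∀ i, P.coeff d - a i ≠ 0
  mapsQ : ∀ i, Q.eval (a i) ≠ 0
  maps : ∀ i, ∏ j, (P.eval (a i) - a j * Q.eval (a i)) = 0
  critQ : ∀ j, Q.eval (c j) ≠ 0
  crit : ∀ j, ∏ i, (P.eval (c j) - a i * Q.eval (c j)) = 0
  nfix : P.eval (P.coeff d) - P.coeff d * Q.eval (P.coeff d) ≠ 0
  min : ∀ I : Finset (Fin n), I ≠ Finset.univ →
    (∃ j, ∏ i ∈ I, (P.eval (c j) - a i * Q.eval (c j)) ≠ 0) ∨
    (∃ l : {l : Fin n // l ∈ I}, ∏ i ∈ I, (P.eval (a l) - a i * Q.eval (a l)) ≠ 0)

/-- labelled negation of the exceptional property -/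
def NL (d n : ℕ) (P Q : ℂ[X]) (a : Fin n → ℂ) : Prop :=
  n = 4 → ∃ (i : Fin n) (m : Fin (d + 1)) (x : ℂ) (u : ℂ[X]), (m : ℕ) ≠ 0 ∧ u.natDegree ≤ d ∧
    Q.eval x ≠ 0 ∧ Fp P Q (a i) = (X - C x) ^ (m : ℕ) * u ∧ u.eval x ≠ 0 ∧
    (((∃ l, x = a l) ∧ (m : ℕ) ≠ 1) ∨ ((∀ l, x ≠ a l) ∧ (m : ℕ) ≠ 2))

lemma exists_fin_roots {W : ℂ[X]} {m : ℕ} (hW : W.natDegree = m) :
    ∃ c : Fin m → ℂ, W = C (W.coeff m) * ∏ j, (X - C (c j)) := by
  have h1 := (IsAlgClosed.splits W).eq_prod_roots
  have h2 : W.roots.toList.length = m := by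
    rw [Multiset.length_toList, IsAlgClosed.card_roots_eq_natDegree (p := W), hW]
  refine ⟨fun j => W.roots.toList.get (j.cast h2.symm), ?_⟩
  have h3 : (W.roots.map fun a => X - C a).prod =
      ∏ j : Fin m, (X - C (W.roots.toList.get (j.cast h2.symm))) := by
    conv_lhs => rw [← Multiset.coe_toList W.roots]
    rw [Multiset.map_coe, Multiset.prod_coe]
    subst h2
    conv_lhs => rw [← List.ofFn_get W.roots.toList]
    rw [List.map_ofFn, List.prod_ofFn]
    rfl
  rw [leadingCoeff, hW, h3] at h1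
  exact h1

theorem Good.lab {d : ℕ} {P Q : ℂ[X]} {A : Finset ℂ} (h : Good d P Q A) {n : ℕ}
    (a : Fin n → ℂ) (ha : Function.Injective a) (haA : Finset.univ.image a = A) :
    ∃ c, Lab d n P Q a c := by
  classical
  obtain ⟨c, hc⟩ := exists_fin_roots h.Wr_natDegree
  have hmemA : ∀ i, a i ∈ A := fun i => haA ▸ Finset.mem_image_of_mem a (Finset.mem_univ i)
  have hexA : ∀ z ∈ A, ∃ i, a i = z := fun z hz => by
    rw [← haA, Finset.mem_image] at hz
    obtain ⟨i, _, hi⟩ := hz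
    exact ⟨i, hi⟩
  have hW0 : ∀ j, (Wr P Q).eval (c j) = 0 := by
    intro j
    rw [hc, eval_mul, eval_prod, Finset.prod_eq_zero (Finset.mem_univ j) (by simp), mul_zero]
  refine ⟨c, ?_⟩
  refine
    { hd := h.hd
      Pd := h.Pd
      Qd := h.Qd.le
      Qc := h.Qcoeff
      wr := hc
      wd := h.Wd
      inj := fun i j hij h0 => hij (ha (sub_eq_zero.mp h0))
      inf := fun i => sub_ne_zero.mpr (h.inf _ (hmemA i))
      mapsQ := fun i => (h.maps _ (hmemA i)).1
      maps := ?_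
      critQ := fun j => (h.crit _ (hW0 j)).1
      crit := ?_
      nfix := sub_ne_zero.mpr h.nfix
      min := ?_ }
  · intro i
    obtain ⟨j, hj⟩ := hexA _ (h.maps _ (hmemA i)).2
    refine Finset.prod_eq_zero (Finset.mem_univ j) ?_
    rw [hj]
    field_simp [(h.maps _ (hmemA i)).1]
    ring
  · intro j
    obtain ⟨i, hi⟩ := hexA _ (h.crit _ (hW0 j)).2
    refine Finset.prod_eq_zero (Finset.mem_univ i) ?_
    rw [hi]
    field_simp [(h.crit _ (hW0 j)).1]
    ring
  · intro I hI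
    by_contra hcon
    push Not at hcon
    obtain ⟨h1, h2⟩ := hcon
    apply hI
    have h3 : I.image a = A := by
      apply h.min
      · intro z hz
        obtain ⟨i, _, rfl⟩ := Finset.mem_image.mp hz
        exact hmemA i
      · intro x hx
        have hx' : ∃ j, x = c j := by
          rw [hc, eval_mul, eval_C, eval_prod, mul_eq_zero] at hx
          rcases hx with hx | hx
          · exact absurd hx h.Wd
          · obtain ⟨j, _, hj⟩ := Finset.prod_eq_zero_iff.mp hx
            rw [eval_sub, eval_X, eval_C] at hj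
            exact ⟨j, sub_eq_zero.mp hj⟩
        obtain ⟨j, rfl⟩ := hx'
        obtain ⟨i, hi, h4⟩ := Finset.prod_eq_zero_iff.mp (h1 j)
        have hQ := (h.crit _ (hW0 j)).1
        refine Finset.mem_image.mpr ⟨i, hi, ?_⟩
        rw [eq_div_iff hQ]
        linear_combination -h4
      · intro z hz
        obtain ⟨l, hl, rfl⟩ := Finset.mem_image.mp hz
        obtain ⟨i, hi, h4⟩ := Finset.prod_eq_zero_iff.mp (h2 ⟨l, hl⟩)
        have hQ := (h.maps _ (hmemA l)).1
        refine Finset.mem_image.mpr ⟨i, hi, ?_⟩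
        rw [eq_div_iff hQ]
        linear_combination -h4
    rw [← haA] at h3
    exact Finset.image_injective ha h3

theorem Lab.good {d n : ℕ} {P Q : ℂ[X]} {a : Fin n → ℂ} {c : Fin (2 * d - 2) → ℂ}
    (h : Lab d n P Q a c) : Good d P Q (Finset.univ.image a) ∧ Function.Injective a := by
  classical
  have hinj : Function.Injective a := by
    intro i j hij
    by_contra hne
    exact h.inj i j hne (sub_eq_zero.mpr hij)
  have hW0 : ∀ x, (Wr P Q).eval x = 0 → ∃ j, x = c j := by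
    intro x hx
    rw [h.wr, eval_mul, eval_C, eval_prod, mul_eq_zero] at hx
    rcases hx with hx | hx
    · exact absurd hx h.wd
    · obtain ⟨j, _, hj⟩ := Finset.prod_eq_zero_iff.mp hx
      rw [eval_sub, eval_X, eval_C] at hj
      exact ⟨j, sub_eq_zero.mp hj⟩
  have hW0' : ∀ j, (Wr P Q).eval (c j) = 0 := by
    intro j
    rw [h.wr, eval_mul, eval_prod, Finset.prod_eq_zero (Finset.mem_univ j) (by simp), mul_zero]
  have hQd : Q.natDegree = d := le_antisymm h.Qd (le_natDegree_of_ne_zero (by rw [h.Qc]; simp))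
  have hQm : Q.Monic := by rw [Monic, leadingCoeff, hQd, h.Qc]
  refine ⟨?_, hinj⟩
  refine
    { hd := h.hd
      Qm := hQm
      Qd := hQd
      Pd := h.Pd
      cop := ?_
      inf := ?_
      maps := ?_
      Wd := h.wd
      crit := ?_
      nfix := sub_ne_zero.mp h.nfix
      min := ?_ }
  · -- coprimality
    apply isCoprime_of_dvd
    · rintro ⟨-, h0⟩
      exact hQm.ne_zero h0
    · intro z hz hz0 hzP hzQ
      have hzd : z.degree ≠ 0 := fun h0 => hz (isUnit_iff_degree_eq_zero.mpr h0)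
      obtain ⟨x, hx⟩ := IsAlgClosed.exists_root z hzd
      obtain ⟨u, hu⟩ := hzP
      obtain ⟨v, hv⟩ := hzQ
      have h1 : P.eval x = 0 := by rw [hu, eval_mul, hx, zero_mul]
      have h2 : Q.eval x = 0 := by rw [hv, eval_mul, hx, zero_mul]
      obtain ⟨j, rfl⟩ := hW0 x (by rw [Wr_eval, h1, h2]; ring)
      exact h.critQ j h2
  · intro z hz
    obtain ⟨i, _, rfl⟩ := Finset.mem_image.mp hz
    exact sub_ne_zero.mp (h.inf i)
  · intro z hz
    obtain ⟨i, _, rfl⟩ := Finset.mem_image.mp hz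
    refine ⟨h.mapsQ i, ?_⟩
    obtain ⟨j, _, hj⟩ := Finset.prod_eq_zero_iff.mp (h.maps i)
    refine Finset.mem_image.mpr ⟨j, Finset.mem_univ j, ?_⟩
    rw [eq_div_iff (h.mapsQ i)]
    linear_combination -hj
  · intro x hx
    obtain ⟨j, rfl⟩ := hW0 x hx
    refine ⟨h.critQ j, ?_⟩
    obtain ⟨i, _, hi⟩ := Finset.prod_eq_zero_iff.mp (h.crit j)
    refine Finset.mem_image.mpr ⟨i, Finset.mem_univ i, ?_⟩
    rw [eq_div_iff (h.critQ j)]
    linear_combination -hi
  · intro A' hA' h1 h2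
    set I := Finset.univ.filter (fun i => a i ∈ A') with hI
    have hIA : I.image a = A' := by
      ext z
      constructor
      · intro hz
        obtain ⟨i, hi, rfl⟩ := Finset.mem_image.mp hz
        exact (Finset.mem_filter.mp hi).2
      · intro hz
        obtain ⟨i, _, rfl⟩ := Finset.mem_image.mp (hA' hz)
        exact Finset.mem_image.mpr ⟨i, by simp [hI, hz], rfl⟩
    by_cases hIu : I = Finset.univ
    · rw [← hIA, hIu]
    · exfalso
      rcases h.min I hIu with ⟨j, hj⟩ | ⟨⟨l, hl⟩, hj⟩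
      · have h3 := h1 _ (hW0' j)
        rw [← hIA] at h3
        obtain ⟨i, hi, h4⟩ := Finset.mem_image.mp h3
        apply hj
        refine Finset.prod_eq_zero hi ?_
        rw [h4]
        field_simp [h.critQ j]
        ring
      · have h3 := h2 _ (Finset.mem_filter.mp hl).2
        rw [← hIA] at h3
        obtain ⟨i, hi, h4⟩ := Finset.mem_image.mp h3
        apply hj
        refine Finset.prod_eq_zero hi ?_
        rw [h4]
        field_simp [h.mapsQ l]
        ring

theorem NL.of {d n : ℕ} {P Q : ℂ[X]} {A : Finset ℂ} (h : Good d P Q A) {a : Fin n → ℂ}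
    (ha : Function.Injective a) (haA : Finset.univ.image a = A) (hL : ¬ LattesLike P Q A) :
    NL d n P Q a := by
  classical
  intro hn4
  have hcard : A.card = 4 := by
    rw [← haA, Finset.card_image_of_injective _ ha, Finset.card_univ, Fintype.card_fin, hn4]
  have hmemA : ∀ x, x ∈ A ↔ ∃ l, x = a l := by
    intro x
    rw [← haA, Finset.mem_image]
    constructor
    · rintro ⟨i, _, hi⟩; exact ⟨i, hi.symm⟩
    · rintro ⟨i, hi⟩; exact ⟨i, Finset.mem_univ _, hi.symm⟩
  have h1 : ¬ ∀ x, Q.eval x ≠ 0 → P.eval x / Q.eval x ∈ A →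
      rootMultiplicity x (Fp P Q (P.eval x / Q.eval x)) = if x ∈ A then 1 else 2 :=
    fun h0 => hL ⟨hcard, by
      intro x hx hxA
      have := h0 x hx hxA
      convert this⟩
  push Not at h1
  obtain ⟨x, hx, hxA, hne⟩ := h1
  obtain ⟨i, hi⟩ := (hmemA _).mp hxA
  have hroot : (Fp P Q (a i)).eval x = 0 := h.mem_fib.mpr ⟨hx, hi⟩
  obtain ⟨u, hpos, hu, hux⟩ := h.local_data (hi ▸ hxA) hroot
  set m := rootMultiplicity x (Fp P Q (a i)) with hm
  have hu0 : u ≠ 0 := by
    rintro rfl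
    simp at hux
  have hdeg : m + u.natDegree ≤ d := by
    have h2 := h.Fp_natDegree_le (a i)
    rw [hu, natDegree_mul (pow_ne_zero _ (X_sub_C_ne_zero x)) hu0, natDegree_pow,
      natDegree_X_sub_C] at h2
    omega
  refine ⟨i, ⟨m, by omega⟩, x, u, hpos.ne', by omega, hx, hu, hux, ?_⟩
  rw [hi, ← hm] at hne
  by_cases hxa : x ∈ A
  · left
    refine ⟨(hmemA x).mp hxa, ?_⟩
    simpa [hxa] using hne
  · right
    refine ⟨fun l hl => hxa ((hmemA x).mpr ⟨l, hl⟩), ?_⟩
    simpa [hxa] using hne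

theorem NL.not_lattes {d n : ℕ} {P Q : ℂ[X]} {a : Fin n → ℂ} {c : Fin (2 * d - 2) → ℂ}
    (h : Lab d n P Q a c) (hNL : NL d n P Q a) : ¬ LattesLike P Q (Finset.univ.image a) := by
  classical
  obtain ⟨hG, hinj⟩ := h.good
  rintro ⟨hcard, hL⟩
  rw [Finset.card_image_of_injective _ hinj, Finset.card_univ, Fintype.card_fin] at hcard
  obtain ⟨i, m, x, u, hm0, hud, hQ, hF, hux, hcase⟩ := hNL hcard
  have hmult : rootMultiplicity x (Fp P Q (a i)) = m := rootMultiplicity_of_factor hF hux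
  have hroot : (Fp P Q (a i)).eval x = 0 := by
    rw [hF, eval_mul, eval_pow, eval_sub, eval_X, eval_C, sub_self, zero_pow hm0, zero_mul]
  have hfib := hG.mem_fib.mp hroot
  have h3 := hL x hQ (by rw [hfib.2]; exact Finset.mem_image_of_mem a (Finset.mem_univ i))
  rw [hfib.2, hmult] at h3
  rcases hcase with ⟨⟨l, hl⟩, h4⟩ | ⟨h4, h5⟩
  · have : x ∈ Finset.univ.image a := Finset.mem_image.mpr ⟨l, Finset.mem_univ l, hl.symm⟩
    rw [if_pos this] at h3
    exact h4 h3
  · have : x ∉ Finset.univ.image a := by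
      intro h6
      obtain ⟨l, _, hl⟩ := Finset.mem_image.mp h6
      exact h4 l hl.symm
    rw [if_neg this] at h3
    exact h5 h3

end Pool.Agent.H22
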