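import Pool.Agent.H22.Alg4

/-!
A quadratic differential whose pull-back is a multiple of itself: the orbifold is `(2,2,2,2)`.
-/

set_option autoImplicit false
open Polynomial

namespace Pool.Agent.H22

noncomputable section

/-- the numerator of `N (P / Q)` -/
def Nh (P Q : ℂ[X]) (m : ℕ) (N : ℂ[X]) : ℂ[X] :=
  C N.leadingCoeff * (N.roots.map fun z => Fp P Q z).prod * Q ^ (m - N.natDegree)

namespace Good

variable {d : ℕ} {P Q : ℂ[X]} {A : Finset ℂ}

lemma Fp_ne' (h : Good d P Q A) (y : ℂ) : Fp P Q y ≠ 0 := by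
  intro h0
  have h1 : P = C y * Q := sub_eq_zero.mp h0
  have h2 : IsUnit Q := by
    have h3 := h.cop
    rw [h1] at h3
    exact isCoprime_self.mp (h3.of_mul_left_right)
  have h3 := natDegree_eq_zero_of_isUnit h2
  have := h.Qd
  have := h.hd
  omega

lemma Fp_natDegree_ge (h : Good d P Q A) (y : ℂ) : d - 1 ≤ (Fp P Q y).natDegree := by
  by_contra hcon
  push Not at hcon
  have hd := h.hd
  apply h.Wd
  apply coeff_eq_zero_of_natDegree_lt
  rw [Wr_eq P Q y]
  refine lt_of_le_of_lt (natDegree_sub_le _ _) (max_lt ?_ ?_)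
  · by_cases h0 : (Fp P Q y).natDegree = 0
    · have : derivative (Fp P Q y) = 0 := by
        rw [eq_C_of_natDegree_eq_zero h0]; simp
      rw [this, zero_mul, natDegree_zero]; omega
    · refine lt_of_le_of_lt natDegree_mul_le ?_
      have := natDegree_derivative_lt h0
      have := h.Qd
      omega
  · refine lt_of_le_of_lt natDegree_mul_le ?_
    have := natDegree_derivative_le Q
    have := h.Qd
    omega

lemma Q_eval_fib (h : Good d P Q A) {x y : ℂ} (hx : (Fp P Q y).eval x = 0) :
    Q.eval x ≠ 0 ∧ P.eval x / Q.eval x = y := h.mem_fib.mp hx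

/-- multiplicity of the product of the fibre polynomials -/
lemma mult_prod (h : Good d P Q A) {x : ℂ} (hQ : Q.eval x ≠ 0) :
    rootMultiplicity x (∏ a ∈ A, Fp P Q a) = if P.eval x / Q.eval x ∈ A then
      rootMultiplicity x (Fp P Q (P.eval x / Q.eval x)) else 0 := by
  set y := P.eval x / Q.eval x with hy
  have hother : ∀ a, a ≠ y → (Fp P Q a).eval x ≠ 0 := by
    intro a ha h0
    exact ha (h.mem_fib.mp h0).2.symm
  split_ifs with hyA
  · rw [← Finset.mul_prod_erase _ _ hyA, rootMultiplicity_mul]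
    · rw [rootMultiplicity_eq_zero (p := ∏ b ∈ A.erase y, Fp P Q b), add_zero]
      rw [IsRoot.def, eval_prod]
      exact Finset.prod_ne_zero_iff.mpr fun b hb => hother b (Finset.ne_of_mem_erase hb)
    · rw [Finset.mul_prod_erase _ _ hyA]
      exact h.prod_ne
  · rw [rootMultiplicity_eq_zero]
    rw [IsRoot.def, eval_prod]
    exact Finset.prod_ne_zero_iff.mpr fun b hb => hother b fun h1 => hyA (h1 ▸ hb)

lemma prod_Fp_ne (h : Good d P Q A) (s : Multiset ℂ) : (s.map fun z => Fp P Q z).prod ≠ 0 := by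
  apply Multiset.prod_ne_zero
  intro h0
  rw [Multiset.mem_map] at h0
  obtain ⟨z, _, hz⟩ := h0
  exact h.Fp_ne' z hz

lemma Nh_ne (h : Good d P Q A) {N : ℂ[X]} (hN0 : N ≠ 0) (m : ℕ) : Nh P Q m N ≠ 0 := by
  unfold Nh
  refine mul_ne_zero (mul_ne_zero ?_ ?_) (pow_ne_zero _ h.Q_ne)
  · exact C_ne_zero.mpr (leadingCoeff_ne_zero.mpr hN0)
  · exact h.prod_Fp_ne _

lemma mult_Nh (h : Good d P Q A) {N : ℂ[X]} (hN0 : N ≠ 0) (m : ℕ) {x : ℂ} (hQ : Q.eval x ≠ 0) :
    rootMultiplicity x (Nh P Q m N) = rootMultiplicity (P.eval x / Q.eval x) N *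
      rootMultiplicity x (Fp P Q (P.eval x / Q.eval x)) := by
  classical
  have h1 := h.Nh_ne hN0 m
  unfold Nh at h1 ⊢
  rw [rootMultiplicity_mul h1, rootMultiplicity_mul (left_ne_zero_of_mul h1), rootMultiplicity_C,
    zero_add]
  have h2 : rootMultiplicity x (Q ^ (m - N.natDegree)) = 0 := by
    apply rootMultiplicity_eq_zero
    rw [IsRoot.def, eval_pow]
    exact pow_ne_zero _ hQ
  rw [h2, add_zero]
  set y := P.eval x / Q.eval x with hy
  have hgen : ∀ s : Multiset ℂ, rootMultiplicity x ((s.map fun z => Fp P Q z).prod) =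
      s.count y * rootMultiplicity x (Fp P Q y) := by
    intro s
    induction s using Multiset.induction_on with
    | empty => simp
    | cons z s ih =>
      have hne := h.prod_Fp_ne (z ::ₘ s)
      rw [Multiset.map_cons, Multiset.prod_cons] at hne ⊢
      rw [rootMultiplicity_mul hne, ih, Multiset.count_cons]
      split_ifs with hzy
      · rw [← hzy]; ring
      · have : (Fp P Q z).eval x ≠ 0 := by
          intro h0
          exact hzy (h.mem_fib.mp h0).2
        rw [rootMultiplicity_eq_zero this]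
        ring
  rw [hgen, count_roots]


open Classical in
/-- The combinatorial part of the characterisation of the exceptional maps. -/
theorem lattes_alg (h : Good d P Q A) (hn : 4 ≤ A.card) {N : ℂ[X]} (hN0 : N ≠ 0)
    (hN : N.natDegree ≤ A.card - 4) {c : ℂ} (hc : c ≠ 0)
    (hid : N * ∏ a ∈ A, Fp P Q a = C c * (Wr P Q ^ 2 * Nh P Q (A.card - 4) N * DA A)) :
    LattesLike P Q A := by
  have hd := h.hd
  have hD : DA A ≠ 0 := (DA_monic A).ne_zero
  have hNh := h.Nh_ne hN0 (A.card - 4)
  have hrhs : Wr P Q ^ 2 * Nh P Q (A.card - 4) N * DA A ≠ 0 :=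
    mul_ne_zero (mul_ne_zero (pow_ne_zero _ h.Wr_ne) hNh) hD
  set m : ℂ → ℕ := fun x => rootMultiplicity x N with hm
  set i : ℂ → ℕ := fun x => if x ∈ A then 1 else 0 with hi
  have hDA : ∀ x, rootMultiplicity x (DA A) = i x := by
    intro x
    rw [← count_roots]
    unfold DA
    rw [roots_prod_X_sub_C, hi]
    dsimp only
    split_ifs with hx
    · exact Multiset.count_eq_one_of_mem A.nodup hx
    · exact Multiset.count_eq_zero_of_notMem hx
  -- the general order equation
  have hord : ∀ x, m x + rootMultiplicity x (∏ a ∈ A, Fp P Q a) =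
      2 * rootMultiplicity x (Wr P Q) + rootMultiplicity x (Nh P Q (A.card - 4) N) + i x := by
    intro x
    have h1 := congrArg (rootMultiplicity x) hid
    rw [rootMultiplicity_mul (mul_ne_zero hN0 h.prod_ne),
      rootMultiplicity_mul (mul_ne_zero (C_ne_zero.mpr hc) hrhs), rootMultiplicity_C, zero_add,
      rootMultiplicity_mul hrhs, rootMultiplicity_mul (left_ne_zero_of_mul hrhs), hDA, pow_two,
      rootMultiplicity_mul (mul_ne_zero h.Wr_ne h.Wr_ne)] at h1
    rw [hm]
    dsimp only
    rw [h1]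
    ring
  -- (O1)
  have O1 : ∀ x, Q.eval x ≠ 0 → P.eval x / Q.eval x ∈ A →
      m x + 2 = rootMultiplicity x (Fp P Q (P.eval x / Q.eval x)) *
        (m (P.eval x / Q.eval x) + 1) + i x := by
    intro x hQ hy
    have h1 := hord x
    have hx : (Fp P Q (P.eval x / Q.eval x)).eval x = 0 := h.mem_fib.mpr ⟨hQ, rfl⟩
    have he : 0 < rootMultiplicity x (Fp P Q (P.eval x / Q.eval x)) :=
      (rootMultiplicity_pos (h.Fp_ne' _)).mpr hx
    rw [h.mult_prod hQ, if_pos hy, h.Wr_mult hy hx, h.mult_Nh hN0 _ hQ] at h1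
    obtain ⟨e, he'⟩ : ∃ e, rootMultiplicity x (Fp P Q (P.eval x / Q.eval x)) = e + 1 :=
      ⟨rootMultiplicity x (Fp P Q (P.eval x / Q.eval x)) - 1, by omega⟩
    rw [he'] at h1 ⊢
    have e1 : rootMultiplicity (P.eval x / Q.eval x) N = m (P.eval x / Q.eval x) := rfl
    rw [e1, Nat.add_sub_cancel] at h1
    nlinarith
  -- (O2)
  have O2 : ∀ x, Q.eval x ≠ 0 → P.eval x / Q.eval x ∉ A → m x = m (P.eval x / Q.eval x) ∧
      x ∉ A ∧ rootMultiplicity x (Fp P Q (P.eval x / Q.eval x)) = 1 := by
    intro x hQ hy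
    have h1 := hord x
    have hx : (Fp P Q (P.eval x / Q.eval x)).eval x = 0 := h.mem_fib.mpr ⟨hQ, rfl⟩
    have hxA : x ∉ A := fun h2 => hy (h.maps x h2).2
    have hW := (h.regular hy hx).1
    have h3 : rootMultiplicity x (Fp P Q (P.eval x / Q.eval x)) = 1 := by
      have he : 0 < rootMultiplicity x (Fp P Q (P.eval x / Q.eval x)) :=
        (rootMultiplicity_pos (h.Fp_ne' _)).mpr hx
      by_contra hcon
      have h4 := (one_lt_rootMultiplicity_iff_isRoot (h.Fp_ne' (P.eval x / Q.eval x))).mp
        (by omega : 1 < rootMultiplicity x (Fp P Q (P.eval x / Q.eval x)))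
      have h5 := (h.regular hy hx).2
      rw [h4.2.eq_zero, zero_mul] at h5
      exact hW h5.symm
    rw [h.mult_prod hQ, if_neg hy, rootMultiplicity_eq_zero hW, h.mult_Nh hN0 _ hQ, h3] at h1
    have h6 : i x = 0 := by rw [hi]; dsimp only; rw [if_neg hxA]
    rw [h6] at h1
    refine ⟨?_, hxA, h3⟩
    have e1 : rootMultiplicity (P.eval x / Q.eval x) N = m (P.eval x / Q.eval x) := rfl
    rw [e1] at h1
    omega
  have hmroot : ∀ x, 0 < m x ↔ x ∈ N.roots.toFinset := by
    intro x
    rw [Multiset.mem_toFinset, mem_roots hN0, hm]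
    dsimp only
    rw [rootMultiplicity_pos hN0]
  -- Step A: `m x ≤ i x`
  have stepA : ∀ x, m x ≤ i x := by
    by_contra hcon
    push Not at hcon
    obtain ⟨x₀, hx₀⟩ := hcon
    -- the points with `i x < m x`
    set Z := N.roots.toFinset.filter (fun x => i x < m x) with hZ
    have hx₀Z : x₀ ∈ Z := by
      rw [hZ, Finset.mem_filter]
      exact ⟨(hmroot x₀).mp (by omega), hx₀⟩
    obtain ⟨x₁, hx₁, hmax⟩ := Finset.exists_max_image Z (fun x => m x - i x) ⟨x₀, hx₀Z⟩
    set M := m x₁ - i x₁ with hM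
    have hM1 : 1 ≤ M := by
      rw [hZ, Finset.mem_filter] at hx₁
      omega
    have hmax' : ∀ x, m x ≤ M + i x := by
      intro x
      by_cases hx : i x < m x
      · have : x ∈ Z := by
          rw [hZ, Finset.mem_filter]
          exact ⟨(hmroot x).mp (by omega), hx⟩
        have := hmax x this
        omega
      · omega
    set Z₁ := Z.filter (fun x => m x = M + i x) with hZ₁
    have hx₁Z : x₁ ∈ Z₁ := by
      rw [hZ₁, Finset.mem_filter]
      refine ⟨hx₁, ?_⟩
      rw [hZ, Finset.mem_filter] at hx₁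
      omega
    have hZ₁mem : ∀ x, m x = M + i x → x ∈ Z₁ := by
      intro x hx
      rw [hZ₁, Finset.mem_filter, hZ, Finset.mem_filter]
      exact ⟨⟨(hmroot x).mp (by omega), by omega⟩, hx⟩
    -- fibres of points of Z₁
    have hfib : ∀ y ∈ Z₁, ∀ x, (Fp P Q y).eval x = 0 → x ∈ Z₁ ∧ rootMultiplicity x (Fp P Q y) = 1 := by
      intro y hy x hx
      rw [hZ₁, Finset.mem_filter] at hy
      obtain ⟨hQ, hPQ⟩ := h.mem_fib.mp hx
      have he : 0 < rootMultiplicity x (Fp P Q y) := (rootMultiplicity_pos (h.Fp_ne' _)).mpr hx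
      by_cases hyA : y ∈ A
      · have h1 := O1 x hQ (by rw [hPQ]; exact hyA)
        rw [hPQ] at h1
        have hiy : i y = 1 := by rw [hi]; dsimp only; rw [if_pos hyA]
        rw [hy.2, hiy] at h1
        have h2 := hmax' x
        obtain ⟨e, he'⟩ : ∃ e, rootMultiplicity x (Fp P Q y) = e + 1 :=
          ⟨rootMultiplicity x (Fp P Q y) - 1, by omega⟩
        rw [he'] at h1 ⊢
        have h3 : e = 0 := by
          by_contra h0
          have : 1 ≤ e := Nat.one_le_iff_ne_zero.mpr h0
          nlinarith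
        refine ⟨hZ₁mem x ?_, by omega⟩
        rw [h3] at h1
        omega
      · have h1 := O2 x hQ (by rw [hPQ]; exact hyA)
        rw [hPQ] at h1
        have hiy : i y = 0 := by rw [hi]; dsimp only; rw [if_neg hyA]
        have hix : i x = 0 := by rw [hi]; dsimp only; rw [if_neg h1.2.1]
        refine ⟨hZ₁mem x ?_, h1.2.2⟩
        rw [h1.1, hy.2, hiy, hix]
    -- counting
    have hcard : ∀ y ∈ Z₁, (Fp P Q y).roots.toFinset.card = (Fp P Q y).natDegree := by
      intro y hy
      rw [Multiset.toFinset_card_of_nodup, IsAlgClosed.card_roots_eq_natDegree]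
      rw [Multiset.nodup_iff_count_le_one]
      intro x
      rw [count_roots]
      by_cases hx : (Fp P Q y).eval x = 0
      · exact (hfib y hy x hx).2.le
      · rw [rootMultiplicity_eq_zero hx]; exact Nat.zero_le _
    have hsub : Z₁.biUnion (fun y => (Fp P Q y).roots.toFinset) ⊆ Z₁ := by
      intro x hx
      rw [Finset.mem_biUnion] at hx
      obtain ⟨y, hy, hx⟩ := hx
      rw [Multiset.mem_toFinset, mem_roots (h.Fp_ne' y)] at hx
      exact (hfib y hy x hx).1
    have hdisj : (Z₁.biUnion (fun y => (Fp P Q y).roots.toFinset)).card =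
        ∑ y ∈ Z₁, (Fp P Q y).natDegree := by
      rw [Finset.card_biUnion]
      · exact Finset.sum_congr rfl hcard
      · intro y _ y' _ hyy'
        rw [Function.onFun, Finset.disjoint_left]
        intro x hx hx'
        rw [Multiset.mem_toFinset, mem_roots (h.Fp_ne' _)] at hx hx'
        exact hyy' ((h.mem_fib.mp hx).2.symm.trans (h.mem_fib.mp hx').2)
    have hle := Finset.card_le_card hsub
    rw [hdisj] at hle
    have hpos : 0 < Z₁.card := Finset.card_pos.mpr ⟨x₁, hx₁Z⟩
    by_cases hp : P.coeff d ∈ Z₁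
    · rw [← Finset.add_sum_erase _ _ hp] at hle
      have h1 : ∑ y ∈ Z₁.erase (P.coeff d), (Fp P Q y).natDegree = (Z₁.card - 1) * d := by
        rw [Finset.sum_congr rfl fun y hy => h.Fp_natDegree (Finset.ne_of_mem_erase hy).symm]
        simp [Finset.card_erase_of_mem hp]
      rw [h1] at hle
      have h2 := h.Fp_natDegree_ge (P.coeff d)
      -- (Z₁.card - 1) * d + (d - 1) ≤ Z₁.card
      obtain ⟨k, hk⟩ : ∃ k, Z₁.card = k + 1 := ⟨Z₁.card - 1, by omega⟩
      rw [hk, Nat.add_sub_cancel] at hle
      have h3 : k = 0 := by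
        by_contra h0
        have : 1 ≤ k := Nat.one_le_iff_ne_zero.mpr h0
        have := Nat.mul_le_mul_left k hd
        omega
      have h4 : Z₁ = {P.coeff d} := by
        rw [h3, zero_add, Finset.card_eq_one] at hk
        obtain ⟨z, hz⟩ := hk
        rw [hz] at hp ⊢
        rw [Finset.mem_singleton.mp hp]
      have h5 : 0 < (Fp P Q (P.coeff d)).natDegree := by omega
      obtain ⟨x, hx⟩ := IsAlgClosed.exists_root (Fp P Q (P.coeff d))
        (by rw [degree_eq_natDegree (h.Fp_ne' _)]; exact_mod_cast h5.ne')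
      have h6 := (hfib _ hp x hx).1
      rw [h4, Finset.mem_singleton] at h6
      rw [h6] at hx
      obtain ⟨h7, h8⟩ := h.mem_fib.mp hx
      rw [div_eq_iff h7] at h8
      exact h.nfix h8
    · rw [Finset.sum_congr rfl fun y hy => h.Fp_natDegree (fun h1 => hp (h1 ▸ hy))] at hle
      simp only [Finset.sum_const, smul_eq_mul] at hle
      nlinarith
  -- Step B
  have stepB : N.natDegree = A.card - 4 := by
    by_contra hne
    have hlt : 1 ≤ A.card - 4 - N.natDegree := by omega
    have hQd : Q.degree ≠ 0 := by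
      rw [degree_eq_natDegree h.Q_ne, h.Qd]
      exact_mod_cast (by omega : d ≠ 0)
    obtain ⟨x, hx⟩ := IsAlgClosed.exists_root Q hQd
    have hx' : Q.eval x = 0 := hx
    have h1 := hord x
    have hxA : x ∉ A := fun h2 => (h.maps x h2).1 hx'
    have h2 : rootMultiplicity x (∏ a ∈ A, Fp P Q a) = 0 := by
      rw [rootMultiplicity_eq_zero]
      rw [IsRoot.def, eval_prod]
      exact Finset.prod_ne_zero_iff.mpr fun b _ h0 => (h.mem_fib.mp h0).1 hx'
    have h3 : 0 < rootMultiplicity x (Nh P Q (A.card - 4) N) := by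
      rw [rootMultiplicity_pos hNh, IsRoot.def, Nh, eval_mul, eval_pow, hx', zero_pow (by omega),
        mul_zero]
    have h4 := stepA x
    have h5 : i x = 0 := by rw [hi]; dsimp only; rw [if_neg hxA]
    omega
  -- Step C
  set A' := A.filter (fun a => m a = 0) with hA'
  have hA'card : A'.card = 4 := by
    have h1 : N.roots.toFinset.card = A.card - 4 := by
      rw [Multiset.toFinset_card_of_nodup, IsAlgClosed.card_roots_eq_natDegree, stepB]
      rw [Multiset.nodup_iff_count_le_one]
      intro x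
      rw [count_roots]
      refine (stepA x).trans ?_
      rw [hi]
      dsimp only
      split_ifs <;> omega
    have h2 : N.roots.toFinset = A.filter (fun a => ¬ m a = 0) := by
      ext x
      rw [← hmroot, Finset.mem_filter]
      constructor
      · intro h3
        refine ⟨?_, by omega⟩
        by_contra hxA
        have h4 := stepA x
        rw [hi] at h4
        dsimp only at h4
        rw [if_neg hxA] at h4
        omega
      · intro h3
        omega
    have h3 := Finset.card_filter_add_card_filter_not (s := A) (fun a => m a = 0)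
    rw [← h2, h1, ← hA'] at h3
    omega
  -- Step D
  have hAA : A' = A := by
    refine h.min A' (Finset.filter_subset _ _) ?_ ?_
    · intro x hx
      obtain ⟨hQ, hy⟩ := h.crit x hx
      have hx0 : (Fp P Q (P.eval x / Q.eval x)).eval x = 0 := h.mem_fib.mpr ⟨hQ, rfl⟩
      have h1 := O1 x hQ hy
      have h2 := stepA x
      have h3 : 0 < rootMultiplicity x (Wr P Q) := (rootMultiplicity_pos h.Wr_ne).mpr hx
      rw [h.Wr_mult hy hx0] at h3
      rw [hA', Finset.mem_filter]
      refine ⟨hy, ?_⟩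
      by_contra hne
      have h4 : 1 ≤ m (P.eval x / Q.eval x) := Nat.one_le_iff_ne_zero.mpr hne
      have h5 : 2 ≤ rootMultiplicity x (Fp P Q (P.eval x / Q.eval x)) := by omega
      nlinarith
    · intro a ha
      rw [hA', Finset.mem_filter] at ha ⊢
      obtain ⟨hQ, hy⟩ := h.maps a ha.1
      have h1 := O1 a hQ hy
      refine ⟨hy, ?_⟩
      have hia : i a = 1 := by rw [hi]; dsimp only; rw [if_pos ha.1]
      have hx0 : (Fp P Q (P.eval a / Q.eval a)).eval a = 0 := h.mem_fib.mpr ⟨hQ, rfl⟩
      have he : 0 < rootMultiplicity a (Fp P Q (P.eval a / Q.eval a)) :=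
        (rootMultiplicity_pos (h.Fp_ne' _)).mpr hx0
      rw [ha.2, hia] at h1
      by_contra hne
      have h4 : 1 ≤ m (P.eval a / Q.eval a) := Nat.one_le_iff_ne_zero.mpr hne
      nlinarith
  refine ⟨hAA ▸ hA'card, ?_⟩
  intro x hQ hy
  have h1 := O1 x hQ hy
  have hmy : m (P.eval x / Q.eval x) = 0 := by
    have := hy
    rw [← hAA, hA', Finset.mem_filter] at this
    exact this.2
  have hmx : m x = 0 := by
    by_cases hxA : x ∈ A
    · have := hxA
      rw [← hAA, hA', Finset.mem_filter] at this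
      exact this.2
    · have h4 := stepA x
      rw [hi] at h4
      dsimp only at h4
      rw [if_neg hxA] at h4
      omega
  rw [hmy, hmx] at h1
  by_cases hxA : x ∈ A
  · have hia : i x = 1 := by rw [hi]; dsimp only; rw [if_pos hxA]
    rw [if_pos hxA]
    omega
  · have hia : i x = 0 := by rw [hi]; dsimp only; rw [if_neg hxA]
    rw [if_neg hxA]
    omega

end Good

end

end Pool.Agent.H22
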