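import Pool.Agent.H22.Thurston

/-!
Invariance of the pullback relation under Thurston equivalence.
-/

set_option autoImplicit false
open Set Topology

namespace Pool.Agent.H22

lemma isCurve_image (h : Sph ≃ₜ Sph) {P C : Set Sph} (hC : IsCurve P C) :
    IsCurve (h '' P) (h '' C) := by
  obtain ⟨h1, c, hc, hci, hr⟩ := hC
  refine ⟨(disjoint_image_iff h.injective).mpr h1, fun z => h (c z), h.continuous.comp hc,
    h.injective.comp hci, ?_⟩
  rw [← hr, ← range_comp]
  rfl

lemma comp_image (h : Sph ≃ₜ Sph) {C : Set Sph} {x : Sph} (hx : x ∈ Cᶜ) :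
    connectedComponentIn (h '' C)ᶜ (h x) = h '' connectedComponentIn Cᶜ x := by
  rw [h.image_connectedComponentIn hx, image_compl_eq h.bijective]

lemma essential_image (h : Sph ≃ₜ Sph) {P C : Set Sph} (hC : Essential P C) :
    Essential (h '' P) (h '' C) := by
  obtain ⟨x, hx, y, hy, hne, h1, h2⟩ := hC
  have hcard : ∀ A : Set Sph, (h '' A ∩ h '' P).encard = (A ∩ P).encard := by
    intro A
    rw [← image_inter h.injective, h.injective.injOn.encard_image]
  refine ⟨h x, ?_, h y, ?_, ?_, ?_, ?_⟩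
  · rintro ⟨z, hz, hzx⟩
    exact hx (h.injective hzx ▸ hz)
  · rintro ⟨z, hz, hzx⟩
    exact hy (h.injective hzx ▸ hz)
  · rw [comp_image h hx, comp_image h hy]
    exact fun h3 => hne (h.injective.image_injective h3)
  · rw [comp_image h hx, hcard]; exact h1
  · rw [comp_image h hy, hcard]; exact h2

lemma symm_image_image (h : Sph ≃ₜ Sph) (A : Set Sph) : h.symm '' (h '' A) = A := by
  rw [← image_comp]
  simp

lemma image_symm_image (h : Sph ≃ₜ Sph) (A : Set Sph) : h '' (h.symm '' A) = A := by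
  rw [← image_comp]
  simp

lemma essential_image_iff (h : Sph ≃ₜ Sph) {P C : Set Sph} :
    Essential (h '' P) (h '' C) ↔ Essential P C := by
  refine ⟨fun h1 => ?_, essential_image h⟩
  have := essential_image h.symm h1
  rwa [symm_image_image, symm_image_image] at this

lemma isotopic_image (h : Sph ≃ₜ Sph) {P C C' : Set Sph} (hC : Isotopic P C C') :
    Isotopic (h '' P) (h '' C) (h '' C') := by
  obtain ⟨H, h1, h2, h3, h4, h5⟩ := hC
  refine ⟨fun p => h (H p), h.continuous.comp h1, fun t => h.injective.comp (h2 t), ?_, ?_, ?_⟩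
  · rintro p ⟨z, hz, hzx⟩
    exact h3 p (h.injective hzx ▸ hz)
  · rw [← h4, ← range_comp]; rfl
  · rw [← h5, ← range_comp]; rfl

/-- the map on essential curves -/
def essMap (h : Sph ≃ₜ Sph) {P P' : Set Sph} (hP : h '' P = P') (C : Ess P) : Ess P' :=
  ⟨h '' C.1, hP ▸ isCurve_image h C.2.1, hP ▸ essential_image h C.2.2⟩

/-- the map on classes of curves -/
def clMap (h : Sph ≃ₜ Sph) {P P' : Set Sph} (hP : h '' P = P') :
    CurveClass P → CurveClass P' :=
  Option.map (Quot.map (essMap h hP) fun C C' hC => by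
    subst hP
    exact isotopic_image h hC)

lemma clMap_none (h : Sph ≃ₜ Sph) {P P' : Set Sph} (hP : h '' P = P') :
    clMap h hP Option.none = Option.none := rfl

lemma clMap_some (h : Sph ≃ₜ Sph) {P P' : Set Sph} (hP : h '' P = P') (C : Ess P) :
    clMap h hP (Option.some (Quot.mk _ C)) = Option.some (Quot.mk _ (essMap h hP C)) := rfl

lemma clMap_symm (h : Sph ≃ₜ Sph) {P P' : Set Sph} (hP : h '' P = P') (hP' : h.symm '' P' = P)
    (γ : CurveClass P) : clMap h.symm hP' (clMap h hP γ) = γ := by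
  rcases γ with _ | γ
  · rfl
  · induction γ using Quot.ind with
    | mk C =>
      change Option.some (Quot.mk _ _) = Option.some (Quot.mk _ _)
      congr 2
      exact Subtype.ext (symm_image_image h C.1)

lemma clMap_symm' (h : Sph ≃ₜ Sph) {P P' : Set Sph} (hP : h '' P = P') (hP' : h.symm '' P' = P)
    (γ : CurveClass P') : clMap h hP (clMap h.symm hP' γ) = γ := by
  rcases γ with _ | γ
  · rfl
  · induction γ using Quot.ind with
    | mk C =>
      change Option.some (Quot.mk _ _) = Option.some (Quot.mk _ _)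
      congr 2
      exact Subtype.ext (image_symm_image h C.1)

/-- the bijection on classes of curves -/
noncomputable def clEquiv (h : Sph ≃ₜ Sph) {P P' : Set Sph} (hP : h '' P = P') :
    CurveClass P ≃ CurveClass P' where
  toFun := clMap h hP
  invFun := clMap h.symm (by rw [← hP, symm_image_image])
  left_inv := clMap_symm h hP _
  right_inv := clMap_symm' h hP _

section

variable {F G : Sph → Sph} {h₀ h₁ : Sph ≃ₜ Sph}

lemma crit_image (hFG : ∀ x, h₀ (F x) = G (h₁ x)) (x : Sph) : h₁ x ∈ Crit G ↔ x ∈ Crit F := by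
  constructor
  · intro h U hU hinj
    have h1 : h₁ '' U ∈ 𝓝 (h₁ x) := by
      rw [← h₁.map_nhds_eq]
      exact Filter.image_mem_map hU
    refine h _ h1 ?_
    rintro _ ⟨z1, hz1, rfl⟩ _ ⟨z2, hz2, rfl⟩ h12
    rw [← hFG, ← hFG] at h12
    exact congrArg h₁ (hinj hz1 hz2 (h₀.injective h12))
  · intro h U hU hinj
    refine h (h₁ ⁻¹' U) (h₁.continuous.continuousAt.preimage_mem_nhds hU) ?_
    intro z1 hz1 z2 hz2 h12
    apply h₁.injective
    refine hinj hz1 hz2 ?_
    rw [← hFG, ← hFG, h12]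

lemma post_image (hFG : ∀ x, h₀ (F x) = G (h₁ x)) (hrel : ∀ x ∈ Post F, h₁ x = h₀ x) :
    h₀ '' Post F = Post G := by
  have key : ∀ n ≥ 1, ∀ x ∈ Crit F, h₀ (F^[n] x) = G^[n] (h₁ x) := by
    intro n hn x hx
    induction n, hn using Nat.le_induction with
    | base => simpa using hFG x
    | succ n hn ih =>
      rw [Function.iterate_succ_apply', Function.iterate_succ_apply', hFG, ← ih]
      congr 1
      exact hrel _ ⟨n, hn, x, hx, rfl⟩
  ext y
  constructor
  · rintro ⟨_, ⟨n, hn, x, hx, rfl⟩, rfl⟩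
    exact ⟨n, hn, h₁ x, (crit_image hFG x).mpr hx, (key n hn x hx).symm⟩
  · rintro ⟨n, hn, x, hx, rfl⟩
    have hx' : h₁.symm x ∈ Crit F := by
      rw [← crit_image hFG]
      simpa using hx
    refine ⟨F^[n] (h₁.symm x), ⟨n, hn, _, hx', rfl⟩, ?_⟩
    rw [key n hn _ hx']
    simp

lemma preim_image (hFG : ∀ x, h₀ (F x) = G (h₁ x)) (C : Set Sph) :
    G ⁻¹' (h₀ '' C) = h₁ '' (F ⁻¹' C) := by
  ext y
  obtain ⟨x, rfl⟩ := h₁.surjective y
  constructor
  · rintro ⟨z, hz, hzx⟩
    rw [← hFG] at hzx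
    exact ⟨x, by rw [mem_preimage, ← h₀.injective hzx]; exact hz, rfl⟩
  · rintro ⟨z, hz, hzx⟩
    have := h₁.injective hzx
    subst this
    exact ⟨F z, hz, hFG z⟩

lemma component_image (hFG : ∀ x, h₀ (F x) = G (h₁ x)) {C : Set Sph} {x : Sph} (hx : F x ∈ C) :
    connectedComponentIn (G ⁻¹' (h₀ '' C)) (h₁ x) = h₁ '' connectedComponentIn (F ⁻¹' C) x := by
  rw [preim_image hFG, h₁.image_connectedComponentIn (show x ∈ F ⁻¹' C from hx)]

/-- the isotopy between the two images of a curve -/
lemma isotopic_images {P : Set Sph} {H : unitInterval × Sph → Sph} (hH : Continuous H)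
    (hbij : ∀ t, Function.Bijective fun x => H (t, x)) (h0 : ∀ x, H (0, x) = h₀ x)
    (h1 : ∀ x, H (1, x) = h₁ x) (hrel : ∀ t, ∀ x ∈ P, H (t, x) = h₀ x) {C : Set Sph}
    (hC : IsCurve P C) : Isotopic (h₀ '' P) (h₀ '' C) (h₁ '' C) := by
  obtain ⟨hdis, c, hc, hci, hr⟩ := hC
  refine ⟨fun p => H (p.1, c p.2), hH.comp (continuous_fst.prodMk (hc.comp continuous_snd)),
    fun t => (hbij t).1.comp hci, ?_, ?_, ?_⟩
  · rintro ⟨t, z⟩ ⟨x, hx, hxz⟩
    rw [← hrel t x hx] at hxz
    have := (hbij t).1 hxz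
    subst this
    exact disjoint_left.mp hdis (hr ▸ mem_range_self z) hx
  · simp only [h0]
    rw [← hr, ← range_comp]
    rfl
  · simp only [h1]
    rw [← hr, ← range_comp]
    rfl

theorem pull_iff (hFG : ∀ x, h₀ (F x) = G (h₁ x)) {H : unitInterval × Sph → Sph}
    (hH : Continuous H) (hbij : ∀ t, Function.Bijective fun x => H (t, x))
    (h0 : ∀ x, H (0, x) = h₀ x) (h1 : ∀ x, H (1, x) = h₁ x)
    (hrel : ∀ t, ∀ x ∈ Post F, H (t, x) = h₀ x) (hP : h₀ '' Post F = Post G)
    (γ δ : CurveClass (Post F)) :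
    Pull F γ δ ↔ Pull G (clEquiv h₀ hP γ) (clEquiv h₀ hP δ) := by
  have hP1 : h₁ '' Post F = Post G := by
    rw [← hP]
    apply image_congr
    intro x hx
    rw [← h1, hrel 1 x hx]
  -- the class of the image by `h₁`
  have hcls : ∀ K : Ess (Post F), (Option.some (Quot.mk _ (essMap h₁ hP1 K)) : CurveClass (Post G)) =
      clEquiv h₀ hP (Option.some (Quot.mk _ K)) := by
    intro K
    change _ = Option.some (Quot.mk _ (essMap h₀ hP K))
    congr 1
    symm
    apply Quot.sound
    change Isotopic (Post G) (h₀ '' K.1) (h₁ '' K.1)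
    rw [← hP]
    exact isotopic_images hH hbij h0 h1 hrel K.2.1
  have hess : ∀ K : Set Sph, Essential (Post G) (h₁ '' K) ↔ Essential (Post F) K := by
    intro K
    rw [← hP1]
    exact essential_image_iff h₁
  constructor
  · rintro (⟨rfl, rfl⟩ | ⟨C, rfl, x, hx, hcase⟩)
    · left
      exact ⟨rfl, rfl⟩
    · right
      refine ⟨essMap h₀ hP C, rfl, h₁ x, ?_, ?_⟩
      · rw [← hFG]
        exact mem_image_of_mem h₀ hx
      · have hcomp : connectedComponentIn (G ⁻¹' (essMap h₀ hP C).1) (h₁ x) =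
            h₁ '' connectedComponentIn (F ⁻¹' C.1) x := component_image hFG hx
        rw [hcomp]
        rcases hcase with ⟨h2, rfl⟩ | ⟨K, hK, rfl⟩
        · left
          exact ⟨fun h3 => h2 ((hess _).mp h3), rfl⟩
        · right
          refine ⟨essMap h₁ hP1 K, ?_, ?_⟩
          · rw [← hK]; rfl
          · exact (hcls K).symm
  · rintro (⟨h2, h3⟩ | ⟨C', hC', y, hy, hcase⟩)
    · left
      have hn : clEquiv h₀ hP Option.none = Option.none := rfl
      rw [← hn] at h2 h3
      exact ⟨(clEquiv h₀ hP).injective h2, (clEquiv h₀ hP).injective h3⟩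
    · right
      -- pull back the curve
      obtain ⟨C, hC⟩ : ∃ C : Ess (Post F), essMap h₀ hP C = C' :=
        ⟨essMap h₀.symm (by rw [← hP, symm_image_image]) C',
          Subtype.ext (image_symm_image h₀ C'.1)⟩
      subst hC
      obtain ⟨x, rfl⟩ := h₁.surjective y
      have hx : F x ∈ C.1 := by
        rw [← hFG] at hy
        obtain ⟨z, hz, hzx⟩ := hy
        rw [← h₀.injective hzx]
        exact hz
      have hcomp : connectedComponentIn (G ⁻¹' (essMap h₀ hP C).1) (h₁ x) =
          h₁ '' connectedComponentIn (F ⁻¹' C.1) x := component_image hFG hx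
      rw [hcomp] at hcase
      refine ⟨C, (clEquiv h₀ hP).injective hC', x, hx, ?_⟩
      rcases hcase with ⟨h2, h3⟩ | ⟨K', hK', hδ⟩
      · left
        have hn : clEquiv h₀ hP Option.none = Option.none := rfl
        rw [← hn] at h3
        exact ⟨fun h4 => h2 ((hess _).mpr h4), (clEquiv h₀ hP).injective h3⟩
      · right
        obtain ⟨K, hK⟩ : ∃ K : Ess (Post F), essMap h₁ hP1 K = K' :=
          ⟨essMap h₁.symm (by rw [← hP1, symm_image_image]) K',
            Subtype.ext (image_symm_image h₁ K'.1)⟩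
        subst hK
        refine ⟨K, ?_, ?_⟩
        · have h5 : h₁ '' K.1 = h₁ '' connectedComponentIn (F ⁻¹' C.1) x := hK'
          exact h₁.injective.image_injective h5
        · apply (clEquiv h₀ hP).injective
          rw [hδ]
          exact hcls K

end

/-- the conclusion of this file -/
theorem ThurstonEquiv.transfer {F G : Sph → Sph} (h : ThurstonEquiv F G) :
    (∃ E : CurveClass (Post F) ≃ CurveClass (Post G), ∀ γ δ, Pull F γ δ ↔ Pull G (E γ) (E δ)) ∧
    (Post F).ncard = (Post G).ncard ∧ Deg F = Deg G := by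
  obtain ⟨h₀, h₁, hFG, H, hH, hbij, h0, h1, hrel⟩ := h
  have hP : h₀ '' Post F = Post G := by
    refine post_image hFG fun x hx => ?_
    rw [← h1, hrel 1 x hx]
  refine ⟨⟨clEquiv h₀ hP, pull_iff hFG hH hbij h0 h1 hrel hP⟩, ?_, ?_⟩
  · rw [← hP, ncard_image_of_injective _ h₀.injective]
  · unfold Deg
    congr 1
    have key : ∀ y, (F ⁻¹' {y}).ncard = (G ⁻¹' {h₀ y}).ncard := by
      intro y
      have h2 := preim_image hFG {y}
      rw [image_singleton] at h2
      rw [h2, ncard_image_of_injective _ h₁.injective]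
    ext k
    constructor
    · rintro ⟨y, rfl⟩
      exact ⟨h₀ y, (key y).symm⟩
    · rintro ⟨y, rfl⟩
      obtain ⟨x, rfl⟩ := h₀.surjective y
      exact ⟨x, key x⟩

/-- conjugation by a homeomorphism -/
theorem ThurstonEquiv.conj {F G G' : Sph → Sph} (h : ThurstonEquiv F G) (M : Sph ≃ₜ Sph)
    (hM : ∀ x, M (G x) = G' (M x)) : ThurstonEquiv F G' := by
  obtain ⟨h₀, h₁, hFG, H, hH, hbij, h0, h1, hrel⟩ := h
  refine ⟨h₀.trans M, h₁.trans M, fun x => ?_, fun p => M (H p), M.continuous.comp hH,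
    fun t => M.bijective.comp (hbij t), fun x => ?_, fun x => ?_, fun t x hx => ?_⟩
  · simp only [Homeomorph.trans_apply]
    rw [hFG, hM]
  · simp [h0]
  · simp [h1]
  · simp [hrel t x hx]

/-! ### Attractors -/

lemma chain_iff {F G : Sph → Sph} {E : CurveClass (Post F) ≃ CurveClass (Post G)}
    (hE : ∀ γ δ, Pull F γ δ ↔ Pull G (E γ) (E δ)) (n : ℕ) (γ δ : CurveClass (Post F)) :
    Chain F n γ δ ↔ Chain G n (E γ) (E δ) := by
  constructor
  · rintro ⟨f, h1, h2, h3⟩
    exact ⟨fun i => E (f i), congrArg E h1, congrArg E h2, fun i hi => (hE _ _).mp (h3 i hi)⟩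
  · rintro ⟨f, h1, h2, h3⟩
    refine ⟨fun i => E.symm (f i), (congrArg E.symm h1).trans (E.symm_apply_apply γ),
      (congrArg E.symm h2).trans (E.symm_apply_apply δ), fun i hi => ?_⟩
    rw [hE, E.apply_symm_apply, E.apply_symm_apply]
    exact h3 i hi

lemma attractor_iff {F G : Sph → Sph} {E : CurveClass (Post F) ≃ CurveClass (Post G)}
    (hE : ∀ γ δ, Pull F γ δ ↔ Pull G (E γ) (E δ)) (A : Set (CurveClass (Post F))) :
    IsAttractor F A ↔ IsAttractor G (E '' A) := by
  unfold IsAttractor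
  rw [finite_image_iff E.injective.injOn]
  refine and_congr_right fun _ => ?_
  constructor
  · intro h γ
    obtain ⟨N, hN⟩ := h (E.symm γ)
    refine ⟨N, fun n hn δ hδ => ?_⟩
    refine ⟨E.symm δ, hN n hn _ ?_, E.apply_symm_apply δ⟩
    rw [chain_iff hE, E.apply_symm_apply, E.apply_symm_apply]
    exact hδ
  · intro h γ
    obtain ⟨N, hN⟩ := h (E γ)
    refine ⟨N, fun n hn δ hδ => ?_⟩
    obtain ⟨δ', h1, h2⟩ := hN n hn (E δ) ((chain_iff hE n γ δ).mp hδ)
    rwa [← E.injective h2]

lemma IsAttractor.inter {F : Sph → Sph} {A B : Set (CurveClass (Post F))} (hA : IsAttractor F A)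
    (hB : IsAttractor F B) : IsAttractor F (A ∩ B) := by
  refine ⟨hA.1.subset inter_subset_left, fun γ => ?_⟩
  obtain ⟨N, hN⟩ := hA.2 γ
  obtain ⟨M, hM⟩ := hB.2 γ
  exact ⟨max N M, fun n hn δ hδ => ⟨hN n (le_trans (le_max_left _ _) hn) δ hδ,
    hM n (le_trans (le_max_right _ _) hn) δ hδ⟩⟩

lemma minimal_unique {F : Sph → Sph} {A B : Set (CurveClass (Post F))}
    (hA : Minimal (IsAttractor F) A) (hB : Minimal (IsAttractor F) B) : A = B := by
  have h1 := hA.1.inter hB.1
  have h2 : A ≤ A ∩ B := hA.2 h1 inter_subset_left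
  have h3 : B ≤ A ∩ B := hB.2 h1 inter_subset_right
  exact subset_antisymm (h2.trans inter_subset_right) (h3.trans inter_subset_left)

lemma minimal_image {F G : Sph → Sph} {E : CurveClass (Post F) ≃ CurveClass (Post G)}
    (hE : ∀ γ δ, Pull F γ δ ↔ Pull G (E γ) (E δ)) {A : Set (CurveClass (Post F))}
    (hA : Minimal (IsAttractor F) A) : Minimal (IsAttractor G) (E '' A) := by
  refine ⟨(attractor_iff hE A).mp hA.1, fun B hB hBA => ?_⟩
  have h1 : E '' (E.symm '' B) = B := by rw [← image_comp]; simp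
  have h2 : IsAttractor F (E.symm '' B) := by rw [attractor_iff hE, h1]; exact hB
  have h3 : E.symm '' B ≤ A := by
    rintro _ ⟨b, hb, rfl⟩
    obtain ⟨a, ha, rfl⟩ := hBA hb
    rwa [E.symm_apply_apply]
  have h4 := hA.2 h2 h3
  rw [← h1]
  exact image_mono h4

open Classical in
/-- the size of the minimal attractor, zero if there is none -/
noncomputable def attSize (F : Sph → Sph) : ℕ :=
  if h : ∃ A, Minimal (IsAttractor F) A then (Classical.choose h).ncard else 0

lemma attSize_eq {F : Sph → Sph} {A : Set (CurveClass (Post F))}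
    (hA : Minimal (IsAttractor F) A) : A.ncard = attSize F := by
  have h : ∃ A, Minimal (IsAttractor F) A := ⟨A, hA⟩
  unfold attSize
  rw [dif_pos h, minimal_unique hA (Classical.choose_spec h)]

theorem ThurstonEquiv.attSize {F G : Sph → Sph} (h : ThurstonEquiv F G)
    {A : Set (CurveClass (Post F))} (hA : Minimal (IsAttractor F) A) :
    A.ncard = attSize G := by
  obtain ⟨⟨E, hE⟩, -, -⟩ := h.transfer
  rw [← attSize_eq (minimal_image hE hA), ncard_image_of_injective _ E.injective]

/-- with at most three postcritical points all the curves are trivial -/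
lemma ncard_le_one {F : Sph → Sph} (hfin : (Post F).Finite) (hF : (Post F).ncard ≤ 3)
    (A : Set (CurveClass (Post F))) : A.ncard ≤ 1 := by
  have hE : IsEmpty (Ess (Post F)) := by
    constructor
    rintro ⟨C, -, x, hx, y, hy, hne, h1, h2⟩
    have hdisj : Disjoint (connectedComponentIn Cᶜ x ∩ Post F) (connectedComponentIn Cᶜ y ∩ Post F) := by
      rw [disjoint_left]
      rintro z ⟨hz1, -⟩ ⟨hz2, -⟩
      exact hne ((connectedComponentIn_eq hz1).trans (connectedComponentIn_eq hz2).symm)
    have h3 := encard_union_eq hdisj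
    have h4 : (connectedComponentIn Cᶜ x ∩ Post F ∪ connectedComponentIn Cᶜ y ∩ Post F).encard ≤
        (Post F).encard := encard_le_encard (union_subset inter_subset_right inter_subset_right)
    rw [h3, ← hfin.cast_ncard_eq] at h4
    have h5 : (4 : ℕ∞) ≤ (3 : ℕ∞) := by
      calc (4 : ℕ∞) = 2 + 2 := by norm_num
        _ ≤ _ := add_le_add h1 h2
        _ ≤ _ := h4
        _ ≤ 3 := by exact_mod_cast hF
    exact absurd h5 (by norm_num)
  have hsub : Subsingleton (CurveClass (Post F)) := by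
    constructor
    have hn : ∀ γ : CurveClass (Post F), γ = Option.none := by
      intro γ
      rcases γ with _ | γ
      · rfl
      · induction γ using Quot.ind with
        | mk C => exact hE.elim C
    intro γ δ
    rw [hn γ, hn δ]
  exact ncard_le_one_of_subsingleton A

end Pool.Agent.H22
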