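import Pool.Agent.H22.Crit
import Pool.Agent.H22.Topo

/-!
Good maps whose orbifold has signature `(2, 2, 2, 2)` are Lattès maps.
-/

set_option autoImplicit false
open Polynomial Filter Set Topology OnePoint

namespace Pool.Agent.H22

lemma AtMost.comp {X Y Z : Type*} [TopologicalSpace X] [TopologicalSpace Y] {F : X → Y}
    {G : Y → Z} {x : X} {m k : ℕ} (hF : AtMost F x m) (hG : AtMost G (F x) k)
    (hc : ContinuousAt F x) : AtMost (fun z => G (F z)) x (m * k) := by
  classical
  obtain ⟨U, hU, h1⟩ := hF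
  obtain ⟨V, hV, h2⟩ := hG
  refine ⟨U ∩ F ⁻¹' V, inter_mem hU (hc.preimage_mem_nhds hV), fun y => ?_⟩
  set T := G ⁻¹' {y} ∩ V with hT
  have hTfin : T.Finite := finite_of_encard_le_coe (h2 y)
  have hsub : (fun z => G (F z)) ⁻¹' {y} ∩ (U ∩ F ⁻¹' V) ⊆ ⋃ w ∈ T, (F ⁻¹' {w} ∩ U) := by
    rintro z ⟨hz1, hz2, hz3⟩
    simp only [mem_iUnion]
    exact ⟨F z, ⟨hz1, hz3⟩, rfl, hz2⟩
  have hSfin : (⋃ w ∈ T, (F ⁻¹' {w} ∩ U)).Finite :=
    hTfin.biUnion fun w _ => finite_of_encard_le_coe (h1 w)
  have hSfin' := hSfin.subset hsub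
  rw [← hSfin'.cast_ncard_eq, ncard_eq_toFinset_card _ hSfin']
  have h3 : hSfin'.toFinset.card ≤ m * (hSfin'.toFinset.image F).card := by
    refine Finset.card_le_mul_card_image _ _ fun w _ => ?_
    have h4 : ((hSfin'.toFinset.filter fun z => F z = w : Finset X) : Set X).encard ≤ m := by
      refine le_trans (encard_le_encard ?_) (h1 w)
      intro z hz
      simp only [Finset.coe_filter, Finite.mem_toFinset, mem_ofPred_eq] at hz
      exact ⟨hz.2, hz.1.2.1⟩
    rw [encard_coe_eq_coe_finsetCard] at h4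
    exact_mod_cast h4
  have h5 : (hSfin'.toFinset.image F).card ≤ k := by
    have h6 : ((hSfin'.toFinset.image F : Finset Y) : Set Y).encard ≤ k := by
      refine le_trans (encard_le_encard ?_) (h2 y)
      intro w hw
      simp only [Finset.coe_image, Finite.coe_toFinset, mem_image] at hw
      obtain ⟨z, ⟨hz1, hz2, hz3⟩, rfl⟩ := hw
      exact ⟨hz1, hz3⟩
    rw [encard_coe_eq_coe_finsetCard] at h6
    exact_mod_cast h6
  exact_mod_cast h3.trans (Nat.mul_le_mul_left m h5)

lemma AtMost.mono {X Y : Type*} [TopologicalSpace X] {F : X → Y} {x : X} {m k : ℕ}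
    (h : AtMost F x m) (hmk : m ≤ k) : AtMost F x k := by
  obtain ⟨U, hU, h1⟩ := h
  exact ⟨U, hU, fun y => (h1 y).trans (by exact_mod_cast hmk)⟩

lemma atMost_id {X : Type*} [TopologicalSpace X] (x : X) : AtMost (id : X → X) x 1 := by
  refine ⟨univ, univ_mem, fun y => ?_⟩
  simp

lemma not_atMost_zero {X Y : Type*} [TopologicalSpace X] {F : X → Y} {x : X} :
    ¬ AtMost F x 0 := by
  rintro ⟨U, hU, h1⟩
  have h2 := h1 (F x)
  simp only [Nat.cast_zero, nonpos_iff_eq_zero, encard_eq_zero] at h2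
  have h3 : x ∈ F ⁻¹' {F x} ∩ U := ⟨rfl, mem_of_mem_nhds hU⟩
  rw [h2] at h3
  exact h3

lemma localDeg_dvd_two {F : Sph → Sph} {x : Sph} (h : AtMost F x 2) : LocalDeg F x ∣ 2 := by
  have h1 : LocalDeg F x ≤ 2 := Nat.sInf_le h
  have hne : {m : ℕ | ∃ U ∈ 𝓝 x, ∀ y, (F ⁻¹' {y} ∩ U).encard ≤ m}.Nonempty := ⟨2, h⟩
  have h2 : AtMost F x (LocalDeg F x) := Nat.sInf_mem hne
  have h3 : LocalDeg F x ≠ 0 := by
    intro h0
    rw [h0] at h2
    exact not_atMost_zero h2
  have : LocalDeg F x = 1 ∨ LocalDeg F x = 2 := by omega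
  rcases this with h4 | h4 <;> rw [h4] <;> norm_num

lemma localDeg_ne_one {F : Sph → Sph} {x : Sph} (h : ¬ AtMost F x 1) : LocalDeg F x ≠ 1 := by
  intro h1
  have hne : {m : ℕ | ∃ U ∈ 𝓝 x, ∀ y, (F ⁻¹' {y} ∩ U).encard ≤ m}.Nonempty := by
    by_contra h0
    rw [not_nonempty_iff_eq_empty] at h0
    unfold LocalDeg at h1
    rw [h0, Nat.sInf_empty] at h1
    exact absurd h1 (by norm_num)
  have h2 : AtMost F x (LocalDeg F x) := Nat.sInf_mem hne
  rw [h1] at h2
  exact h h2

lemma Good.nd {d : ℕ} {P Q : ℂ[X]} {A : Finset ℂ} (h : Good d P Q A) : Nd d P Q where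
  Pd := h.Pd
  Qd := h.Qd.le
  fin := by
    intro x
    by_contra hcon
    push Not at hcon
    exact h.no_common hcon.1 hcon.2
  inf := Or.inr (by rw [h.Qcoeff]; exact one_ne_zero)

lemma post_maps {F : Sph → Sph} {x : Sph} (hx : x ∈ Post F) : F x ∈ Post F := by
  obtain ⟨n, hn, z, hz, rfl⟩ := hx
  refine ⟨n + 1, by omega, z, hz, ?_⟩
  rw [Function.iterate_succ_apply']

lemma Nd.isRational {d : ℕ} {P Q : ℂ[X]} (h : Nd d P Q) (hd : 1 ≤ d) :
    IsRational d (RM d P Q) := by
  refine ⟨P, Q, ?_, ?_, ?_, ?_⟩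
  · apply isCoprime_of_dvd
    · rintro ⟨h1, h2⟩
      rcases h.inf with h3 | h3
      · rw [h1] at h3; simp at h3
      · rw [h2] at h3; simp at h3
    · intro z hz hz0 hzP hzQ
      have hzd : z.degree ≠ 0 := fun h0 => hz (isUnit_iff_degree_eq_zero.mpr h0)
      obtain ⟨x, hx⟩ := IsAlgClosed.exists_root z hzd
      obtain ⟨u, hu⟩ := hzP
      obtain ⟨v, hv⟩ := hzQ
      have hx' : z.eval x = 0 := hx
      have h1 : P.eval x = 0 := by rw [hu, eval_mul, hx', zero_mul]
      have h2 : Q.eval x = 0 := by rw [hv, eval_mul, hx', zero_mul]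
      rcases h.fin x with h3 | h3
      · exact h3 h1
      · exact h3 h2
  · apply le_antisymm (max_le h.Pd h.Qd)
    rcases h.inf with h1 | h1
    · exact (le_natDegree_of_ne_zero h1).trans (le_max_left _ _)
    · exact (le_natDegree_of_ne_zero h1).trans (le_max_right _ _)
  · intro x
    rw [RM_coe]
    rfl
  · rw [RM_infty]
    rfl

theorem lattes_of {d : ℕ} {P Q : ℂ[X]} {A : Finset ℂ} (h : Good d P Q A)
    (hL : LattesLike P Q A) (hpost : (fun z : ℂ => (z : Sph)) '' A = Post (RM d P Q)) :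
    IsLattes (RM d P Q) := by
  classical
  have hnd := h.nd
  have hd := h.hd
  set F := RM d P Q with hF
  have hcont : Continuous F := RM_continuous hnd
  have hpostA : ∀ z : ℂ, (z : Sph) ∈ Post F ↔ z ∈ A := by
    intro z
    rw [← hpost]
    constructor
    · rintro ⟨w, hw, hwz⟩
      rwa [← OnePoint.coe_injective hwz]
    · intro hz
      exact ⟨z, hz, rfl⟩
  have hinfp : (∞ : Sph) ∉ Post F := by
    rw [← hpost]
    rintro ⟨w, hw, hwz⟩
    exact OnePoint.coe_ne_infty w hwz
  have hFinf : F ∞ ∉ Post F := by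
    rw [hF, RM_infty, h.Qcoeff, pt_one, hpostA]
    intro h1
    exact h.inf _ h1 rfl
  -- local multiplicity one away from the critical points
  have hone : ∀ x, F x ∉ Post F → AtMost F x 1 := by
    intro x hx
    have hxc : x ∉ Crit F := fun h1 => hx ⟨1, le_rfl, x, h1, rfl⟩
    induction x using OnePoint.rec with
    | infty =>
      rcases crit_infty_aux hnd hd with ⟨_, h2⟩ | ⟨_, h2⟩
      · exact absurd h2 hxc
      · exact h2
    | coe z =>
      rcases crit_coe_aux' hnd (by omega) z with ⟨_, h2⟩ | ⟨_, h2⟩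
      · exact absurd h2 hxc
      · exact h2
  -- local multiplicities over the postcritical set
  have hfib : ∀ x, F x ∈ Post F → ∃ z : ℂ, x = z ∧ Q.eval z ≠ 0 ∧ P.eval z / Q.eval z ∈ A := by
    intro x hx
    induction x using OnePoint.rec with
    | infty => exact absurd hx hFinf
    | coe z =>
      have hQ : Q.eval z ≠ 0 := by
        intro h0
        rw [hF, RM_coe, h0, pt_zero] at hx
        exact hinfp hx
      refine ⟨z, rfl, hQ, ?_⟩
      rw [hF, RM_coe_of_ne hQ, hpostA] at hx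
      exact hx
  have hmul : ∀ x, F x ∈ Post F → AtMost F x (if x ∈ Post F then 1 else 2) := by
    intro x hx
    obtain ⟨z, rfl, hQ, hzA⟩ := hfib x hx
    have h1 := hL.2 z hQ hzA
    obtain ⟨u, hpos, hu, hux⟩ := hnd.local_data (by omega) hQ
    rw [h1] at hu
    have e : (if (z : Sph) ∈ Post F then 1 else 2) = if z ∈ A then 1 else 2 := by
      by_cases hz : z ∈ A
      · rw [if_pos hz, if_pos ((hpostA z).mpr hz)]
      · rw [if_neg hz, if_neg (fun h2 => hz ((hpostA z).mp h2))]
    rw [e]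
    apply atMost_coe hQ
    exact local_atMost (by split_ifs <;> norm_num) hQ hu hux
  have hiter : ∀ k x, F^[k] x ∈ Post F → AtMost F^[k] x 2 ∧ (x ∈ Post F → AtMost F^[k] x 1) := by
    intro k
    induction k with
    | zero =>
      intro x _
      exact ⟨(atMost_id x).mono (by norm_num), fun _ => atMost_id x⟩
    | succ k ih =>
      intro x hx
      rw [Function.iterate_succ_apply] at hx
      obtain ⟨h1, h2⟩ := ih (F x) hx
      have e : F^[k + 1] = fun z => F^[k] (F z) := by
        funext z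
        rw [Function.iterate_succ_apply]
      rw [e]
      constructor
      · by_cases hy : F x ∈ Post F
        · have h3 : AtMost F x 2 := (hmul x hy).mono (by split_ifs <;> norm_num)
          have := h3.comp (h2 hy) hcont.continuousAt
          simpa using this
        · have := (hone x hy).comp h1 hcont.continuousAt
          simpa using this
      · intro hxP
        have hy := post_maps hxP
        have h3 := hmul x hy
        rw [if_pos hxP] at h3
        have := h3.comp (h2 hy) hcont.continuousAt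
        simpa using this
  refine ⟨⟨d, hd, hnd.isRational (by omega)⟩, ?_, ?_⟩
  · rw [← hpost, ncard_image_of_injective _ OnePoint.coe_injective, ncard_coe_finset, hL.1]
  · intro a ha
    have h2mem : 2 ∈ {m : ℕ | 0 < m ∧ ∀ k x, F^[k] x = a → LocalDeg F^[k] x ∣ m} := by
      refine ⟨by norm_num, fun k x hx => ?_⟩
      exact localDeg_dvd_two (hiter k x (hx ▸ ha)).1
    have h1 : Weight F a ≤ 2 := Nat.sInf_le h2mem
    have h3 : Weight F a ∈ {m : ℕ | 0 < m ∧ ∀ k x, F^[k] x = a → LocalDeg F^[k] x ∣ m} :=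
      Nat.sInf_mem ⟨2, h2mem⟩
    have h4 : Weight F a ≠ 1 := by
      intro h5
      rw [h5] at h3
      obtain ⟨n, hn, x, hx, hxa⟩ := ha
      have h6 := h3.2 n x hxa
      have h7 : LocalDeg F^[n] x = 1 := Nat.dvd_one.mp h6
      refine localDeg_ne_one ?_ h7
      intro h8
      obtain ⟨U, hU, hinj⟩ := h8.injOn
      refine hx U hU ?_
      intro z1 hz1 z2 hz2 h12
      refine hinj hz1 hz2 ?_
      obtain ⟨m, rfl⟩ : ∃ m, n = m + 1 := ⟨n - 1, by omega⟩
      rw [Function.iterate_succ_apply, Function.iterate_succ_apply, h12]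
    have h5 := h3.1
    omega

end Pool.Agent.H22
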