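import Mathlib

/-!
A ring homomorphism from sequences of complex numbers to the complex numbers which only depends on
the germ along a non-principal ultrafilter, and derivations of the complex numbers.
-/

set_option autoImplicit false
open Filter Cardinal TensorProduct

namespace Pool.Agent.H22

theorem exists_theta : ∃ θ : (ℕ → ℂ) →+* ℂ, ∀ f : ℕ → ℂ,
    θ f = 0 ↔ ∀ᶠ k in (hyperfilter ℕ : Filter ℕ), f k = 0 := by
  let 𝕂 := Germ (hyperfilter ℕ : Filter ℕ) ℂ
  let κ : ℂ →+* 𝕂 := (Germ.coeRingHom (hyperfilter ℕ : Filter ℕ)).comp (Pi.constRingHom ℕ ℂ)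
  have hchar : CharZero 𝕂 := charZero_of_injective_ringHom κ.injective
  have hcardK : #𝕂 ≤ 𝔠 := by
    have h1 : #𝕂 ≤ #(ℕ → ℂ) := mk_le_of_surjective (f := (fun f : ℕ → ℂ => (f : 𝕂)))
      (fun x => Quotient.inductionOn' x fun f => ⟨f, rfl⟩)
    refine h1.trans ?_
    simp
  have h2 : #(AlgebraicClosure 𝕂) ≤ 𝔠 := by
    refine (Algebra.IsAlgebraic.cardinalMk_le_max 𝕂 (AlgebraicClosure 𝕂)).trans ?_
    exact max_le hcardK aleph0_le_continuum
  have h3 : 𝔠 ≤ #(AlgebraicClosure 𝕂) := by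
    rw [← Cardinal.mk_complex]
    exact mk_le_of_injective ((algebraMap 𝕂 (AlgebraicClosure 𝕂)).comp κ).injective
  have h4 : #(AlgebraicClosure 𝕂) = 𝔠 := le_antisymm h2 h3
  have hcz : CharZero (AlgebraicClosure 𝕂) :=
    charZero_of_injective_algebraMap (algebraMap 𝕂 (AlgebraicClosure 𝕂)).injective
  obtain ⟨e⟩ := IsAlgClosed.ringEquiv_of_equiv_of_charZero (K := AlgebraicClosure 𝕂) (L := ℂ)
    (by rw [h4]; exact aleph0_lt_continuum) (Cardinal.eq.mp (by rw [h4, Cardinal.mk_complex]))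
  refine ⟨(e : AlgebraicClosure 𝕂 →+* ℂ).comp ((algebraMap 𝕂 (AlgebraicClosure 𝕂)).comp
    (Germ.coeRingHom (hyperfilter ℕ : Filter ℕ))), fun f => ?_⟩
  simp only [RingHom.comp_apply, RingHom.coe_coe]
  rw [EmbeddingLike.map_eq_zero_iff, map_eq_zero_iff _ (algebraMap 𝕂 (AlgebraicClosure 𝕂)).injective,
    Germ.coe_coeRingHom]
  exact Germ.coe_eq

/-- a derivation that moves a given transcendental number -/
theorem exists_derivation {t : ℂ} (ht : Transcendental ℚ t) :
    ∃ D : Derivation ℤ ℂ ℂ, D t ≠ 0 := by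
  classical
  have h0 : AlgebraicIndepOn ℚ id ({t} : Set ℂ) := by
    rw [AlgebraicIndepOn]
    refine (algebraicIndependent_unique_type_iff (ι := ({t} : Set ℂ))).mpr ?_
    simpa using ht
  obtain ⟨B, hB, hBt⟩ := exists_isTranscendenceBasis_superset h0
  have htB : t ∈ B := hB rfl
  set x : B → ℂ := fun b => (b : ℂ) with hx
  set S := Algebra.adjoin ℚ (Set.range x) with hS
  have hBt' : IsTranscendenceBasis ℚ x := hBt
  have halg : Algebra.IsAlgebraic S ℂ := hBt'.isAlgebraic
  let e : MvPolynomial B ℚ ≃ₐ[ℚ] S := hBt'.1.aevalEquiv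
  let b0 : B := ⟨t, htB⟩
  let L : S →ₗ[ℚ] ℂ := (S.val.toLinearMap).comp (e.toLinearMap.comp
    ((MvPolynomial.pderiv (R := ℚ) b0).toLinearMap.comp e.symm.toLinearMap))
  let DS : Derivation ℚ S ℂ := Derivation.mk' L (by
    intro a b
    have hL : ∀ s : S, L s = (e (MvPolynomial.pderiv b0 (e.symm s)) : ℂ) := fun s => rfl
    rw [hL, hL, hL, map_mul, Derivation.leibniz, map_add]
    simp only [smul_eq_mul, map_mul, AlgEquiv.apply_symm_apply, Subalgebra.smul_def]
    push_cast
    ring)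
  have hDS : DS (e (MvPolynomial.X b0)) = 1 := by
    change L (e (MvPolynomial.X b0)) = 1
    have hL : ∀ s : S, L s = (e (MvPolynomial.pderiv b0 (e.symm s)) : ℂ) := fun s => rfl
    rw [hL, AlgEquiv.symm_apply_apply, MvPolynomial.pderiv_X_self, map_one]
    rfl
  have het : Algebra.FormallyEtale S ℂ := by
    have h1 : Algebra.FormallyEtale S (FractionRing S) :=
      Algebra.FormallyEtale.of_isLocalization (nonZeroDivisors S)
    have hinj : FaithfulSMul S ℂ := inferInstance
    let _ : Algebra (FractionRing S) ℂ := FractionRing.liftAlgebra S ℂ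
    have h2 : IsScalarTower S (FractionRing S) ℂ := FractionRing.isScalarTower_liftAlgebra S ℂ
    have h3 : Algebra.IsAlgebraic (FractionRing S) ℂ :=
      (IsFractionRing.comap_isAlgebraic_iff (A := S) (K := FractionRing S) (C := ℂ)).mp halg
    have hcz : CharZero (FractionRing S) := by
      refine charZero_of_injective_algebraMap (R := ℚ) (algebraMap ℚ (FractionRing S)).injective
    have h4 : Algebra.FormallyEtale (FractionRing S) ℂ := Algebra.FormallyEtale.of_isSeparable _ _
    exact Algebra.FormallyEtale.comp S (FractionRing S) ℂ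
  let φ : Ω[ℂ⁄ℚ] →ₗ[ℂ] ℂ := (LinearMap.liftBaseChange ℂ DS.liftKaehlerDifferential).comp
    (KaehlerDifferential.tensorKaehlerEquivOfFormallyEtale ℚ S ℂ).symm.toLinearMap
  let D : Derivation ℚ ℂ ℂ := φ.compDer (KaehlerDifferential.D ℚ ℂ)
  refine ⟨D.restrictScalars ℤ, ?_⟩
  have h5 : D t = 1 := by
    have h6 : t = algebraMap S ℂ (e (MvPolynomial.X b0)) := by
      have h10 := AlgebraicIndependent.algebraMap_aevalEquiv hBt'.1 (MvPolynomial.X b0)
      rw [MvPolynomial.aeval_X] at h10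
      exact h10.symm
    have h7 : D t = φ (KaehlerDifferential.D ℚ ℂ t) := rfl
    rw [h7, h6]
    simp only [φ, LinearMap.comp_apply]
    have h8 := KaehlerDifferential.tensorKaehlerEquivOfFormallyEtale_symm_D_algebraMap ℚ S ℂ
      (e (MvPolynomial.X b0))
    rw [LinearEquiv.coe_coe, h8, LinearMap.liftBaseChange_tmul, Derivation.liftKaehlerDifferential_comp_D,
      hDS, smul_eq_mul, mul_one]
  have h9 : (D.restrictScalars ℤ) t = D t := rfl
  rw [h9, h5]
  exact one_ne_zero

end Pool.Agent.H22
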