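import Pool.Agent.H22.Ana2
import Pool.Agent.H22.Theta

/-!
Limits of sequences of polynomials along an ultrafilter.
-/

set_option autoImplicit false
open Polynomial Filter

namespace Pool.Agent.H22

/-- the property of the ring homomorphism that we use -/
def IsLimit (θ : (ℕ → ℂ) →+* ℂ) : Prop :=
  ∀ f : ℕ → ℂ, θ f = 0 ↔ ∀ᶠ k in (hyperfilter ℕ : Filter ℕ), f k = 0

/-- coefficientwise limit -/
def Lm (θ : (ℕ → ℂ) →+* ℂ) (p : ℕ → ℂ[X]) (q : ℂ[X]) : Prop :=
  ∀ i, q.coeff i = θ (fun k => (p k).coeff i)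

variable {θ : (ℕ → ℂ) →+* ℂ}

lemma IsLimit.eq0 (hθ : IsLimit θ) {f : ℕ → ℂ} (h : ∀ k, f k = 0) : θ f = 0 :=
  (hθ f).mpr (Eventually.of_forall h)

lemma IsLimit.ne0' (hθ : IsLimit θ) {f : ℕ → ℂ}
    (h : ∀ᶠ k in (hyperfilter ℕ : Filter ℕ), f k ≠ 0) : θ f ≠ 0 := by
  intro h0
  have h1 := (hθ f).mp h0
  obtain ⟨k, hk1, hk2⟩ := (h.and h1).exists
  exact hk1 hk2

lemma IsLimit.ne0 (hθ : IsLimit θ) {f : ℕ → ℂ} (h : ∀ k, f k ≠ 0) : θ f ≠ 0 :=
  hθ.ne0' (Eventually.of_forall h)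

lemma ultra_exists {ι : Type*} [Finite ι] {p : ι → ℕ → Prop}
    (h : ∀ᶠ k in (hyperfilter ℕ : Filter ℕ), ∃ i, p i k) :
    ∃ i, ∀ᶠ k in (hyperfilter ℕ : Filter ℕ), p i k := by
  by_contra hcon
  push Not at hcon
  have h2 := Filter.eventually_all.mpr hcon
  obtain ⟨k, ⟨i, hk1⟩, hk2⟩ := (h.and h2).exists
  exact hk2 i hk1

lemma Lm.exists {p : ℕ → ℂ[X]} {D : ℕ} (hD : ∀ k, (p k).natDegree ≤ D) (θ : (ℕ → ℂ) →+* ℂ) :
    ∃ q, Lm θ p q ∧ q.natDegree ≤ D := by
  refine ⟨∑ i ∈ Finset.range (D + 1), monomial i (θ fun k => (p k).coeff i), fun i => ?_, ?_⟩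
  · rw [finsetSum_coeff]
    simp only [coeff_monomial]
    rw [Finset.sum_ite_eq' (Finset.range (D + 1)) i (fun i => θ fun k => (p k).coeff i)]
    split_ifs with h
    · rfl
    · have : (fun k => (p k).coeff i) = 0 := by
        funext k
        apply coeff_eq_zero_of_natDegree_lt
        have := hD k
        simp at h
        omega
      rw [this, map_zero]
  · refine natDegree_sum_le_of_forall_le _ _ fun i hi => ?_
    refine (natDegree_monomial_le _).trans ?_
    have := Finset.mem_range.mp hi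
    omega

lemma Lm.congr {p : ℕ → ℂ[X]} {q q' : ℂ[X]} (h : Lm θ p q) (h' : Lm θ p q') : q = q' := by
  ext i
  rw [h i, h' i]

lemma Lm.natDegree_le {p : ℕ → ℂ[X]} {q : ℂ[X]} (h : Lm θ p q) {D : ℕ}
    (hD : ∀ k, (p k).natDegree ≤ D) : q.natDegree ≤ D := by
  obtain ⟨q', h1, h2⟩ := Lm.exists hD θ
  rwa [h.congr h1]

lemma Lm.mul {p p' : ℕ → ℂ[X]} {q q' : ℂ[X]} (h : Lm θ p q) (h' : Lm θ p' q') :
    Lm θ (fun k => p k * p' k) (q * q') := by
  intro i
  have : (fun k => (p k * p' k).coeff i) = ∑ x ∈ Finset.HasAntidiagonal.antidiagonal i,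
      (fun k => (p k).coeff x.1) * (fun k => (p' k).coeff x.2) := by
    funext k
    rw [coeff_mul, Finset.sum_apply]
    rfl
  rw [this, map_sum, coeff_mul]
  refine Finset.sum_congr rfl fun x _ => ?_
  rw [map_mul, h, h']

lemma Lm.add {p p' : ℕ → ℂ[X]} {q q' : ℂ[X]} (h : Lm θ p q) (h' : Lm θ p' q') :
    Lm θ (fun k => p k + p' k) (q + q') := by
  intro i
  have : (fun k => (p k + p' k).coeff i) =
      (fun k => (p k).coeff i) + (fun k => (p' k).coeff i) := by
    funext k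
    simp
  rw [this, map_add, coeff_add, h, h']

lemma Lm.sub {p p' : ℕ → ℂ[X]} {q q' : ℂ[X]} (h : Lm θ p q) (h' : Lm θ p' q') :
    Lm θ (fun k => p k - p' k) (q - q') := by
  intro i
  have : (fun k => (p k - p' k).coeff i) =
      (fun k => (p k).coeff i) - (fun k => (p' k).coeff i) := by
    funext k
    simp
  rw [this, map_sub, coeff_sub, h, h']

lemma Lm.C (c : ℕ → ℂ) : Lm θ (fun k => Polynomial.C (c k)) (Polynomial.C (θ c)) := by
  intro i
  rcases Nat.eq_zero_or_pos i with rfl | hi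
  · simp
  · have : (fun k => (Polynomial.C (c k)).coeff i) = 0 := by
      funext k
      rw [coeff_C, if_neg hi.ne']
      rfl
    rw [this, map_zero, coeff_C, if_neg hi.ne']

lemma Lm.const_X : Lm θ (fun _ => X) X := by
  intro i
  by_cases hi : i = 1
  · subst hi
    have : (fun _ : ℕ => (X : ℂ[X]).coeff 1) = 1 := by
      funext k
      simp
    rw [this, map_one]
    simp
  · have : (fun _ : ℕ => (X : ℂ[X]).coeff i) = 0 := by
      funext k
      rw [coeff_X, if_neg (fun h => hi h.symm)]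
      rfl
    rw [this, map_zero, coeff_X, if_neg (fun h => hi h.symm)]

lemma Lm.one : Lm θ (fun _ => 1) 1 := by
  have := Lm.C (θ := θ) (fun _ => 1)
  have h1 : θ (fun _ => 1) = 1 := map_one θ
  rw [h1] at this
  simpa using this

lemma Lm.X_sub_C (c : ℕ → ℂ) : Lm θ (fun k => X - Polynomial.C (c k)) (X - Polynomial.C (θ c)) :=
  Lm.const_X.sub (Lm.C c)

lemma Lm.prod {ι : Type*} (s : Finset ι) {p : ι → ℕ → ℂ[X]} {q : ι → ℂ[X]}
    (h : ∀ i ∈ s, Lm θ (p i) (q i)) : Lm θ (fun k => ∏ i ∈ s, p i k) (∏ i ∈ s, q i) := by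
  classical
  induction s using Finset.induction_on with
  | empty => simpa using Lm.one
  | insert a s ha ih =>
    rw [Finset.prod_insert ha]
    have h1 := (h a (Finset.mem_insert_self a s)).mul (ih fun i hi => h i
      (Finset.mem_insert_of_mem hi))
    have : (fun k => ∏ i ∈ insert a s, p i k) = fun k => p a k * ∏ i ∈ s, p i k := by
      funext k
      rw [Finset.prod_insert ha]
    rw [this]
    exact h1

lemma Lm.pow {p : ℕ → ℂ[X]} {q : ℂ[X]} (h : Lm θ p q) (m : ℕ) :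
    Lm θ (fun k => p k ^ m) (q ^ m) := by
  induction m with
  | zero => simpa using Lm.one
  | succ m ih =>
    simp only [pow_succ]
    exact ih.mul h

lemma Lm.derivative {p : ℕ → ℂ[X]} {q : ℂ[X]} (h : Lm θ p q) :
    Lm θ (fun k => Polynomial.derivative (p k)) (Polynomial.derivative q) := by
  intro i
  have : (fun k => (Polynomial.derivative (p k)).coeff i) =
      (fun k => (p k).coeff (i + 1)) * ((i + 1 : ℕ) : ℕ → ℂ) := by
    funext k
    rw [coeff_derivative]
    simp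
  rw [this, map_mul, map_natCast, coeff_derivative, h]
  push_cast
  ring

lemma Lm.eval {p : ℕ → ℂ[X]} {q : ℂ[X]} (h : Lm θ p q) {D : ℕ} (hD : ∀ k, (p k).natDegree ≤ D)
    (x : ℕ → ℂ) : q.eval (θ x) = θ (fun k => (p k).eval (x k)) := by
  have h1 := h.natDegree_le hD
  rw [eval_eq_sum_range' (Nat.lt_succ_of_le h1)]
  have : (fun k => (p k).eval (x k)) = ∑ i ∈ Finset.range (D + 1),
      (fun k => (p k).coeff i) * x ^ i := by
    funext k
    rw [eval_eq_sum_range' (Nat.lt_succ_of_le (hD k)), Finset.sum_apply]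
    rfl
  rw [this, map_sum]
  refine Finset.sum_congr rfl fun i _ => ?_
  rw [map_mul, map_pow, h]

lemma theta_mul (f g : ℕ → ℂ) : θ (fun k => f k * g k) = θ f * θ g := map_mul θ f g
lemma theta_sub (f g : ℕ → ℂ) : θ (fun k => f k - g k) = θ f - θ g := map_sub θ f g
lemma theta_prod {ι : Type*} (s : Finset ι) (f : ι → ℕ → ℂ) :
    θ (fun k => ∏ i ∈ s, f i k) = ∏ i ∈ s, θ (f i) := by
  rw [← map_prod]
  congr 1
  funext k
  rw [Finset.prod_apply]

end Pool.Agent.H22
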