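import Pool.Agent.H22.Fin

/-!
Local normal form of a quotient of polynomials.
-/

set_option autoImplicit false
open Polynomial Filter Set Topology

namespace Pool.Agent.H22

/-- the map is at most `m` to one near `x` -/
def AtMost {X Y : Type*} [TopologicalSpace X] (F : X → Y) (x : X) (m : ℕ) : Prop :=
  ∃ U ∈ 𝓝 x, ∀ y, (F ⁻¹' {y} ∩ U).encard ≤ m

theorem local_form {P Q : ℂ[X]} {z0 a : ℂ} {m : ℕ} (hm : m ≠ 0) {u : ℂ[X]} (hQ : Q.eval z0 ≠ 0)
    (hF : P - C a * Q = (X - C z0) ^ m * u) (hu : u.eval z0 ≠ 0) :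
    ∃ (h : ℂ → ℂ) (h' : ℂ), HasStrictDerivAt h h' z0 ∧ h' ≠ 0 ∧ h z0 = 0 ∧
      ∀ᶠ z in 𝓝 z0, P.eval z / Q.eval z = a + h z ^ m := by
  set v0 := u.eval z0 / Q.eval z0 with hv0
  have hv0' : v0 ≠ 0 := div_ne_zero hu hQ
  obtain ⟨c, hc⟩ := IsAlgClosed.exists_pow_nat_eq v0 (Nat.pos_of_ne_zero hm)
  have hc0 : c ≠ 0 := by
    rintro rfl
    rw [zero_pow hm] at hc
    exact hv0' hc.symm
  set g : ℂ → ℂ := fun z => (u.eval z / Q.eval z / v0) ^ ((m : ℂ)⁻¹) with hg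
  have h1 : HasStrictDerivAt (fun z => u.eval z / Q.eval z / v0) _ z0 :=
    ((u.hasStrictDerivAt z0).fun_div (Q.hasStrictDerivAt z0) hQ).div_const v0
  have h2 : u.eval z0 / Q.eval z0 / v0 = 1 := div_self hv0'
  have h3 := h1.cpow_const (c := (m : ℂ)⁻¹) (by rw [h2]; exact Complex.one_mem_slitPlane)
  have hgz : g z0 = 1 := by
    rw [hg]
    simp only
    rw [h2, Complex.one_cpow]
  have h4 : HasStrictDerivAt (fun z => z - z0) 1 z0 := (hasStrictDerivAt_id z0).sub_const z0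
  have h5 := h4.fun_mul (h3.const_mul c)
  refine ⟨fun z => (z - z0) * (c * g z), _, h5, ?_, ?_, ?_⟩
  · rw [sub_self, zero_mul, add_zero, one_mul]
    change c * g z0 ≠ 0
    rw [hgz, mul_one]
    exact hc0
  · simp
  · have hQe : ∀ᶠ z in 𝓝 z0, Q.eval z ≠ 0 := (Q.continuous.continuousAt).eventually_ne hQ
    filter_upwards [hQe] with z hz
    have h6 : P.eval z - a * Q.eval z = (z - z0) ^ m * u.eval z := by
      have := congrArg (eval z) hF
      simpa using this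
    have h7 : g z ^ m = u.eval z / Q.eval z / v0 := Complex.cpow_nat_inv_pow _ hm
    rw [mul_pow, mul_pow, h7, hc]
    field_simp
    linear_combination h6

/-- (C2) -/
theorem local_atMost {P Q : ℂ[X]} {z0 a : ℂ} {m : ℕ} (hm : m ≠ 0) {u : ℂ[X]}
    (hQ : Q.eval z0 ≠ 0) (hF : P - C a * Q = (X - C z0) ^ m * u) (hu : u.eval z0 ≠ 0) :
    AtMost (fun z => P.eval z / Q.eval z) z0 m := by
  classical
  obtain ⟨h, h', hd, hne, h0, hev⟩ := local_form hm hQ hF hu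
  obtain ⟨O, hO, hzO, hinj⟩ := locally_inj hd hne
  refine ⟨O ∩ {z | P.eval z / Q.eval z = a + h z ^ m}, inter_mem (hO.mem_nhds hzO) hev, ?_⟩
  intro y
  have h1 : MapsTo h ((fun z => P.eval z / Q.eval z) ⁻¹' {y} ∩ (O ∩ {z | P.eval z / Q.eval z = a + h z ^ m}))
      ((nthRoots m (y - a)).toFinset : Set ℂ) := by
    rintro z ⟨hz1, hz2, hz3⟩
    have hz1' : P.eval z / Q.eval z = y := hz1
    have hz3' : P.eval z / Q.eval z = a + h z ^ m := hz3
    simp only [Finset.mem_coe, Multiset.mem_toFinset]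
    rw [mem_nthRoots (Nat.pos_of_ne_zero hm), ← hz1', hz3']
    ring
  refine (encard_le_encard_of_injOn h1 (hinj.mono fun z hz => hz.2.1)).trans ?_
  rw [Set.encard_coe_eq_coe_finsetCard]
  exact_mod_cast (Multiset.toFinset_card_le _).trans (card_nthRoots m (y - a))

/-- (C1) -/
theorem local_not_inj {P Q : ℂ[X]} {z0 a : ℂ} {m : ℕ} (hm : 2 ≤ m) {u : ℂ[X]}
    (hQ : Q.eval z0 ≠ 0) (hF : P - C a * Q = (X - C z0) ^ m * u) (hu : u.eval z0 ≠ 0)
    (U : Set ℂ) (hU : U ∈ 𝓝 z0) : ¬ InjOn (fun z => P.eval z / Q.eval z) U := by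
  obtain ⟨h, h', hd, hne, h0, hev⟩ := local_form (by omega) hQ hF hu
  intro hinj
  have h1 : h '' (U ∩ {z | P.eval z / Q.eval z = a + h z ^ m}) ∈ 𝓝 (0 : ℂ) := by
    rw [← h0, ← hd.map_nhds_eq hne]
    exact image_mem_map (inter_mem hU hev)
  obtain ⟨ε, hε, hball⟩ := Metric.mem_nhds_iff.mp h1
  set ζ : ℂ := Complex.exp (2 * Real.pi * Complex.I / m) with hζ
  have hprim : IsPrimitiveRoot ζ m := Complex.isPrimitiveRoot_exp m (by omega)
  have hζ1 : ζ ≠ 1 := hprim.ne_one (by omega)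
  have hζn : ‖ζ‖ = 1 := hprim.norm'_eq_one (by omega)
  set w : ℂ := ((ε / 2 : ℝ) : ℂ) with hw
  have hwn : ‖w‖ = ε / 2 := by
    rw [hw, Complex.norm_real, Real.norm_of_nonneg (by positivity)]
  have hw0 : w ≠ 0 := by
    rw [← norm_pos_iff, hwn]; positivity
  have hw1 : w ∈ Metric.ball (0 : ℂ) ε := by
    rw [mem_ball_zero_iff, hwn]; linarith
  have hw2 : ζ * w ∈ Metric.ball (0 : ℂ) ε := by
    rw [mem_ball_zero_iff, norm_mul, hζn, hwn]; linarith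
  obtain ⟨z1, ⟨hz1U, hz1⟩, hz1w⟩ := hball hw1
  obtain ⟨z2, ⟨hz2U, hz2⟩, hz2w⟩ := hball hw2
  have hz1' : P.eval z1 / Q.eval z1 = a + h z1 ^ m := hz1
  have hz2' : P.eval z2 / Q.eval z2 = a + h z2 ^ m := hz2
  have h2 : P.eval z1 / Q.eval z1 = P.eval z2 / Q.eval z2 := by
    rw [hz1', hz2', hz1w, hz2w, mul_pow, hprim.pow_eq_one, one_mul]
  have h3 : z1 = z2 := hinj hz1U hz2U h2
  rw [h3, hz2w] at hz1w
  apply hζ1
  have h4 : (ζ - 1) * w = 0 := by linear_combination hz1w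
  rcases mul_eq_zero.mp h4 with h5 | h5
  · exact sub_eq_zero.mp h5
  · exact absurd h5 hw0

lemma AtMost.injOn {X Y : Type*} [TopologicalSpace X] {F : X → Y} {x : X} (h : AtMost F x 1) :
    ∃ U ∈ 𝓝 x, InjOn F U := by
  obtain ⟨U, hU, h1⟩ := h
  refine ⟨U, hU, fun z1 hz1 z2 hz2 h2 => ?_⟩
  have h3 := h1 (F z2)
  have h4 : (F ⁻¹' {F z2} ∩ U).encard ≤ 1 := by simpa using h3
  rw [encard_le_one_iff] at h4
  exact h4 z1 z2 ⟨h2, hz1⟩ ⟨rfl, hz2⟩

end Pool.Agent.H22
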