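import Pool.Agent.H22.Latt

/-!
Normalization of a postcritically finite rational map.
-/

set_option autoImplicit false
open Polynomial Filter Set Topology OnePoint

namespace Pool.Agent.H22

noncomputable section

lemma IsRational.exists_nd {d : ℕ} (hd : 1 ≤ d) {G : Sph → Sph} (h : IsRational d G) :
    ∃ P Q : ℂ[X], Nd d P Q ∧ G = RM d P Q := by
  classical
  obtain ⟨P, Q, hcop, hmax, h1, h2⟩ := h
  have hPd : P.natDegree ≤ d := hmax ▸ le_max_left _ _
  have hQd : Q.natDegree ≤ d := hmax ▸ le_max_right _ _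
  refine ⟨P, Q, ⟨hPd, hQd, ?_, ?_⟩, ?_⟩
  · intro x
    by_contra hcon
    push Not at hcon
    obtain ⟨u, v, huv⟩ := hcop
    have := congrArg (eval x) huv
    simp [hcon.1, hcon.2] at this
  · by_contra hcon
    push Not at hcon
    rcases max_choice P.natDegree Q.natDegree with h3 | h3
    · rw [hmax] at h3
      have h4 : P.leadingCoeff = 0 := by rw [leadingCoeff, ← h3]; exact hcon.1
      rw [leadingCoeff_eq_zero] at h4
      rw [h4, natDegree_zero] at h3
      omega
    · rw [hmax] at h3
      have h4 : Q.leadingCoeff = 0 := by rw [leadingCoeff, ← h3]; exact hcon.2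
      rw [leadingCoeff_eq_zero] at h4
      rw [h4, natDegree_zero] at h3
      omega
  · funext z
    induction z using OnePoint.rec with
    | infty =>
      rw [RM_infty, h2]
      unfold pt
      split_ifs <;> rfl
    | coe x =>
      rw [RM_coe, h1]
      unfold pt
      split_ifs <;> rfl

/-- the zeros of a binary form -/
def Zs (D : ℕ) (R : ℂ[X]) : Set Sph := {z | z.elim (R.coeff D = 0) (fun x => R.eval x = 0)}

lemma Zs_coe (D : ℕ) (R : ℂ[X]) (x : ℂ) : (x : Sph) ∈ Zs D R ↔ R.eval x = 0 := Iff.rfl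
lemma Zs_infty (D : ℕ) (R : ℂ[X]) : (∞ : Sph) ∈ Zs D R ↔ R.coeff D = 0 := Iff.rfl

lemma Zs_encard {D : ℕ} {R : ℂ[X]} (hR : R ≠ 0) (hD : R.natDegree ≤ D) : (Zs D R).encard ≤ D := by
  classical
  have hsub : Zs D R ⊆ ((R.roots.toFinset.image (fun x : ℂ => (x : Sph)) ∪
      (if R.coeff D = 0 then {∞} else ∅) : Finset Sph) : Set Sph) := by
    intro z hz
    induction z using OnePoint.rec with
    | infty =>
      rw [Zs_infty] at hz
      simp [hz]
    | coe x =>
      rw [Zs_coe] at hz
      simp only [Finset.coe_union, Finset.coe_image, mem_union, mem_image, Finset.mem_coe,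
        Multiset.mem_toFinset]
      exact Or.inl ⟨x, (mem_roots hR).mpr hz, rfl⟩
  refine (encard_le_encard hsub).trans ?_
  rw [encard_coe_eq_coe_finsetCard]
  have h1 : (R.roots.toFinset.image (fun x : ℂ => (x : Sph))).card ≤ R.natDegree :=
    Finset.card_image_le.trans ((Multiset.toFinset_card_le _).trans (card_roots' R))
  have h2 : (R.roots.toFinset.image (fun x : ℂ => (x : Sph)) ∪
      (if R.coeff D = 0 then {∞} else ∅) : Finset Sph).card ≤ D := by
    refine (Finset.card_union_le _ _).trans ?_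
    by_cases h3 : R.coeff D = 0
    · rw [if_pos h3, Finset.card_singleton]
      have h4 : R.natDegree ≠ D := by
        rintro rfl
        exact hR (leadingCoeff_eq_zero.mp h3)
      omega
    · rw [if_neg h3, Finset.card_empty]
      omega
  exact_mod_cast h2

lemma Nd.comb_ne {d : ℕ} {P Q : ℂ[X]} (h : Nd d P Q) (hd : 1 ≤ d) {s t : ℂ}
    (hst : s ≠ 0 ∨ t ≠ 0) : C t * P - C s * Q ≠ 0 := by
  by_cases ht : t = 0
  · subst ht
    have hs : s ≠ 0 := by tauto
    rw [C_0, zero_mul, zero_sub, neg_ne_zero]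
    refine mul_ne_zero (by simpa using hs) ?_
    rintro rfl
    exact h.symm.not_const hd 0 (by simp)
  · intro h0
    apply h.not_const hd (s / t)
    have h1 : C t * (P - C (s / t) * Q) = C t * P - C s * Q := by
      rw [mul_sub, ← mul_assoc, ← C_mul, mul_div_cancel₀ _ ht]
    have h2 : C t * (P - C (s / t) * Q) = 0 := by rw [h1, h0]
    rcases mul_eq_zero.mp h2 with h3 | h3
    · exact absurd (by simpa using h3) ht
    · exact h3

lemma fibre_encard {d : ℕ} {P Q : ℂ[X]} (h : Nd d P Q) (hd : 1 ≤ d) (y : Sph) :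
    (RM d P Q ⁻¹' {y}).encard ≤ d := by
  obtain ⟨s, t, hst, rfl⟩ := exists_pt y
  have hdeg : (C t * P - C s * Q).natDegree ≤ d := (natDegree_sub_le _ _).trans
    (max_le ((natDegree_C_mul_le _ _).trans h.Pd) ((natDegree_C_mul_le _ _).trans h.Qd))
  refine le_trans (encard_le_encard ?_) (Zs_encard (h.comb_ne hd hst) hdeg)
  intro z hz
  induction z using OnePoint.rec with
  | infty =>
    have h1 : pt (P.coeff d) (Q.coeff d) = pt s t := hz
    rw [pt_eq_pt h.inf hst] at h1
    rw [Zs_infty, coeff_sub, coeff_C_mul, coeff_C_mul]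
    linear_combination h1
  | coe x =>
    have h1 : pt (P.eval x) (Q.eval x) = pt s t := hz
    rw [pt_eq_pt (h.fin x) hst] at h1
    rw [Zs_coe]
    simp only [eval_sub, eval_mul, eval_C]
    linear_combination h1

lemma fixed_encard {d : ℕ} {P Q : ℂ[X]} (h : Nd d P Q) (hd : 2 ≤ d) :
    {z : Sph | RM d P Q z = z}.encard ≤ d + 1 := by
  have hne : P - X * Q ≠ 0 := by
    intro h0
    have h1 : P = X * Q := sub_eq_zero.mp h0
    have hQ0 : Q ≠ 0 := by
      rintro rfl
      rw [mul_zero] at h1
      rcases h.fin 0 with h2 | h2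
      · rw [h1] at h2; simp at h2
      · simp at h2
    have h2 : P.natDegree = Q.natDegree + 1 := by rw [h1, natDegree_X_mul hQ0]
    have h3 := h.Pd
    have h4 : Q.coeff d = 0 := coeff_eq_zero_of_natDegree_lt (by omega)
    have h5 : P.coeff d ≠ 0 := by
      rcases h.inf with h6 | h6
      · exact h6
      · exact absurd h4 h6
    have h6 := le_natDegree_of_ne_zero h5
    have hdeg : Q.degree ≠ 0 := by
      intro h7
      have : Q.natDegree = 0 := natDegree_eq_of_degree_eq_some h7
      omega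
    obtain ⟨x, hx⟩ := IsAlgClosed.exists_root Q hdeg
    have hx' : Q.eval x = 0 := hx
    rcases h.fin x with h7 | h7
    · apply h7
      rw [h1, eval_mul, hx', mul_zero]
    · exact h7 hx'
  have hdeg : (P - X * Q).natDegree ≤ d + 1 := by
    refine (natDegree_sub_le _ _).trans (max_le (h.Pd.trans (Nat.le_succ d)) ?_)
    refine natDegree_mul_le.trans ?_
    have := h.Qd
    rw [natDegree_X]
    omega
  have h1 := Zs_encard hne hdeg
  refine le_trans (encard_le_encard ?_) (h1.trans (by push_cast; exact le_rfl))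
  intro z hz
  induction z using OnePoint.rec with
  | infty =>
    have h2 : pt (P.coeff d) (Q.coeff d) = ∞ := hz
    rw [pt_eq_infty] at h2
    rw [Zs_infty, coeff_sub, coeff_X_mul, h2, coeff_eq_zero_of_natDegree_lt (by
      have := h.Pd; omega), sub_zero]
  | coe x =>
    have h2 : pt (P.eval x) (Q.eval x) = (x : Sph) := hz
    rw [pt_eq_coe] at h2
    have h3 := h2.2
    rw [div_eq_iff h2.1] at h3
    rw [Zs_coe, eval_sub, eval_mul, eval_X, h3, sub_self]

/-- from the topological conditions to the algebraic ones -/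
theorem good_of {d : ℕ} (hd : 2 ≤ d) {P Q : ℂ[X]} (h : Nd d P Q) (hq : Q.coeff d = 1)
    {A : Finset ℂ} (hpost : (fun z : ℂ => (z : Sph)) '' A = Post (RM d P Q))
    (hinf : RM d P Q ∞ ∉ Post (RM d P Q))
    (hfix : RM d P Q (RM d P Q ∞) ≠ RM d P Q ∞) : Good d P Q A := by
  classical
  set F := RM d P Q with hF
  have hpostA : ∀ z : ℂ, (z : Sph) ∈ Post F ↔ z ∈ A := by
    intro z
    rw [← hpost]
    constructor
    · rintro ⟨w, hw, hwz⟩
      rwa [← OnePoint.coe_injective hwz]
    · intro hz
      exact ⟨z, hz, rfl⟩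
  have hinfp : (∞ : Sph) ∉ Post F := by
    rw [← hpost]
    rintro ⟨w, hw, hwz⟩
    exact OnePoint.coe_ne_infty w hwz
  have hFinf : F ∞ = ((P.coeff d : ℂ) : Sph) := by rw [hF, RM_infty, hq, pt_one]
  have hval : ∀ z : ℂ, F z ∈ Post F → Q.eval z ≠ 0 ∧ P.eval z / Q.eval z ∈ A := by
    intro z hz
    have hQ : Q.eval z ≠ 0 := by
      intro h0
      rw [hF, RM_coe, h0, pt_zero] at hz
      exact hinfp hz
    rw [hF, RM_coe_of_ne hQ, hpostA] at hz
    exact ⟨hQ, hz⟩
  have hQd : Q.natDegree = d := le_antisymm h.Qd (le_natDegree_of_ne_zero (by rw [hq]; simp))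
  have hWd : (Wr P Q).coeff (2 * d - 2) ≠ 0 := by
    intro h0
    have h1 : ∞ ∈ critSet F := (crit_infty_iff h hd).mpr h0
    exact hinf ⟨1, le_rfl, ∞, h1, rfl⟩
  have hcrit : ∀ x, (Wr P Q).eval x = 0 → Q.eval x ≠ 0 ∧ P.eval x / Q.eval x ∈ A := by
    intro x hx
    have h1 : (x : Sph) ∈ critSet F := (crit_coe_iff h (by omega) x).mpr hx
    exact hval x ⟨1, le_rfl, x, h1, rfl⟩
  have hmaps : ∀ a ∈ A, Q.eval a ≠ 0 ∧ P.eval a / Q.eval a ∈ A := by
    intro a ha
    exact hval a (post_maps ((hpostA a).mpr ha))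
  refine
    { hd := hd
      Qm := by rw [Monic, leadingCoeff, hQd, hq]
      Qd := hQd
      Pd := h.Pd
      cop := ?_
      inf := ?_
      maps := hmaps
      Wd := hWd
      crit := hcrit
      nfix := ?_
      min := ?_ }
  · apply isCoprime_of_dvd
    · rintro ⟨h1, h2⟩
      rw [h2] at hq
      simp at hq
    · intro z hz hz0 hzP hzQ
      have hzd : z.degree ≠ 0 := fun h0 => hz (isUnit_iff_degree_eq_zero.mpr h0)
      obtain ⟨x, hx⟩ := IsAlgClosed.exists_root z hzd
      obtain ⟨u, hu⟩ := hzP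
      obtain ⟨v, hv⟩ := hzQ
      have hx' : z.eval x = 0 := hx
      have h1 : P.eval x = 0 := by rw [hu, eval_mul, hx', zero_mul]
      have h2 : Q.eval x = 0 := by rw [hv, eval_mul, hx', zero_mul]
      rcases h.fin x with h3 | h3
      · exact h3 h1
      · exact h3 h2
  · intro a ha h0
    apply hinf
    rw [hFinf, hpostA, h0]
    exact ha
  · intro h0
    apply hfix
    rw [hFinf]
    have hQ : Q.eval (P.coeff d) ≠ 0 := by
      intro h1
      rw [h1, mul_zero] at h0
      rcases h.fin (P.coeff d) with h2 | h2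
      · exact h2 h0
      · exact h2 h1
    rw [hF, RM_coe_of_ne hQ, h0, mul_div_assoc, div_self hQ, mul_one]
  · intro A' hA' h1 h2
    refine Finset.Subset.antisymm hA' ?_
    have key : ∀ n ≥ 1, ∀ x ∈ Crit F, ∃ a ∈ A', F^[n] x = ((a : ℂ) : Sph) := by
      intro n hn x hx
      induction n, hn using Nat.le_induction with
      | base =>
        induction x using OnePoint.rec with
        | infty => exact absurd ((crit_infty_iff h hd).mp hx) hWd
        | coe z =>
          have h3 := (crit_coe_iff h (by omega) z).mp hx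
          refine ⟨_, h1 z h3, ?_⟩
          rw [Function.iterate_one, hF, RM_coe_of_ne (hcrit z h3).1]
      | succ n hn ih =>
        obtain ⟨a, ha, hax⟩ := ih
        refine ⟨_, h2 a ha, ?_⟩
        rw [Function.iterate_succ_apply', hax, hF, RM_coe_of_ne (hmaps a (hA' ha)).1]
    intro a ha
    obtain ⟨n, hn, x, hx, hxa⟩ := (hpostA a).mpr ha
    obtain ⟨b, hb, hbx⟩ := key n hn x hx
    rw [hxa] at hbx
    rwa [OnePoint.coe_injective hbx]

end

end Pool.Agent.H22
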