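import Pool.Agent.H22.Norm

/-!
Every postcritically finite rational map with at least three postcritical points is conjugate to
a good one with postcritical set containing `0`, `1` and a bounded natural number.
-/

set_option autoImplicit false
open Polynomial Filter Set Topology OnePoint

namespace Pool.Agent.H22

noncomputable section

lemma bad_bound {d n : ℕ} (hd : 2 ≤ d) {P Q : ℂ[X]} (h : Nd d P Q)
    (hfin : (Post (RM d P Q)).Finite) (hcard : (Post (RM d P Q)).ncard = n) :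
    (RM d P Q ⁻¹' (Post (RM d P Q) ∪ {z | RM d P Q z = z})).encard ≤
      (d * (n + (d + 1)) : ℕ) := by
  classical
  set G := RM d P Q with hG
  have hfix := fixed_encard h hd
  have hfixfin : {z : Sph | G z = z}.Finite :=
    finite_of_encard_le_coe (k := d + 1) (by push_cast; exact hfix)
  have hfibfin : ∀ y, (G ⁻¹' {y}).Finite := fun y =>
    finite_of_encard_le_coe (fibre_encard h (by omega) y)
  set T := hfin.toFinset ∪ hfixfin.toFinset with hT
  have hTcard : T.card ≤ n + (d + 1) := by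
    refine (Finset.card_union_le _ _).trans (Nat.add_le_add ?_ ?_)
    · rw [← ncard_eq_toFinset_card _ hfin, hcard]
    · have h1 : (hfixfin.toFinset.card : ℕ∞) ≤ (d + 1 : ℕ) := by
        rw [← encard_coe_eq_coe_finsetCard, Finite.coe_toFinset]
        push_cast
        exact hfix
      exact_mod_cast h1
  have hsub : G ⁻¹' (Post G ∪ {z | G z = z}) ⊆
      ((T.biUnion fun y => (hfibfin y).toFinset : Finset Sph) : Set Sph) := by
    intro z hz
    simp only [Finset.coe_biUnion, Finite.coe_toFinset, mem_iUnion, Finset.mem_coe]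
    refine ⟨G z, ?_, rfl⟩
    rw [hT]
    simp only [Finset.mem_union, Finite.mem_toFinset]
    exact hz
  refine (encard_le_encard hsub).trans ?_
  rw [encard_coe_eq_coe_finsetCard]
  have h2 : (T.biUnion fun y => (hfibfin y).toFinset).card ≤ T.card * d := by
    refine Finset.card_biUnion_le_card_mul _ _ _ fun y _ => ?_
    have h3 : ((hfibfin y).toFinset.card : ℕ∞) ≤ (d : ℕ) := by
      rw [← encard_coe_eq_coe_finsetCard, Finite.coe_toFinset]
      exact fibre_encard h (by omega) y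
    exact_mod_cast h3
  have h4 : (T.biUnion fun y => (hfibfin y).toFinset).card ≤ d * (n + (d + 1)) := by
    refine h2.trans ?_
    rw [mul_comm]
    exact Nat.mul_le_mul_left d hTcard
  exact_mod_cast h4

theorem normalize {d n : ℕ} (hd : 2 ≤ d) (hn : 3 ≤ n) {G : Sph → Sph} (hG : IsRational d G)
    (hfin : (Post G).Finite) (hcard : (Post G).ncard = n) :
    ∃ r : ℕ, 2 ≤ r ∧ r ≤ d * (n + (d + 1)) + 2 ∧ ∃ (P Q : ℂ[X]) (A : Finset ℂ) (M : Sph ≃ₜ Sph),
      (∀ x, M (G x) = RM d P Q (M x)) ∧ Good d P Q A ∧ A.card = n ∧ (0 : ℂ) ∈ A ∧ (1 : ℂ) ∈ A ∧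
      (r : ℂ) ∈ A ∧ (fun z : ℂ => (z : Sph)) '' A = Post (RM d P Q) := by
  classical
  obtain ⟨P0, Q0, hnd0, rfl⟩ := hG.exists_nd (by omega)
  set G := RM d P0 Q0 with hG'
  set Bad : Set Sph := G ⁻¹' (Post G ∪ {z | G z = z}) with hBad
  have hBadc : Bad.encard ≤ (d * (n + (d + 1)) : ℕ) := bad_bound hd hnd0 hfin hcard
  have hBadfin : Bad.Finite := finite_of_encard_le_coe hBadc
  have hBadn : hBadfin.toFinset.card ≤ d * (n + (d + 1)) := by
    have : (hBadfin.toFinset.card : ℕ∞) ≤ (d * (n + (d + 1)) : ℕ) := by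
      rw [← encard_coe_eq_coe_finsetCard, Finite.coe_toFinset]
      exact hBadc
    exact_mod_cast this
  obtain ⟨b0, b1, b2, hb0, hb1, hb2, h01, h02, h12⟩ := (two_lt_ncard_iff hfin).mp (by omega)
  obtain ⟨u0, v0, huv0, rfl⟩ := exists_pt b0
  obtain ⟨u1, v1, huv1, rfl⟩ := exists_pt b1
  obtain ⟨u2, v2, huv2, rfl⟩ := exists_pt b2
  set α : ℂ := u1 * v2 - u2 * v1 with hα
  set β : ℂ := u1 * v0 - u0 * v1 with hβ
  set γ : ℂ := u0 * v2 - u2 * v0 with hγ
  have hα0 : α ≠ 0 := fun h0 => h12 ((pt_eq_pt huv1 huv2).mpr (sub_eq_zero.mp h0))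
  have hβ0 : β ≠ 0 := fun h0 => h01 ((pt_eq_pt huv0 huv1).mpr (sub_eq_zero.mp h0).symm)
  have hγ0 : γ ≠ 0 := fun h0 => h02 ((pt_eq_pt huv0 huv2).mpr (sub_eq_zero.mp h0))
  set U : ℕ → ℂ := fun r => α * u0 + ((r : ℂ) - 1) * β * u2 with hU
  set V : ℕ → ℂ := fun r => α * v0 + ((r : ℂ) - 1) * β * v2 with hV
  have hUV : ∀ r, U r ≠ 0 ∨ V r ≠ 0 := by
    intro r
    by_contra hcon
    push Not at hcon
    obtain ⟨h1, h2⟩ := hcon
    have h3 : α * γ = 0 := by
      have h1' : α * u0 + ((r : ℂ) - 1) * β * u2 = 0 := h1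
      have h2' : α * v0 + ((r : ℂ) - 1) * β * v2 = 0 := h2
      rw [hγ]
      linear_combination v2 * h1' - u2 * h2'
    rcases mul_eq_zero.mp h3 with h4 | h4
    · exact hα0 h4
    · exact hγ0 h4
  -- choice of `r`
  obtain ⟨r, hr, hrBad⟩ : ∃ r ∈ Finset.Icc 2 (d * (n + (d + 1)) + 2), pt (U r) (V r) ∉ Bad := by
    by_contra hcon
    push Not at hcon
    have h1 : (Finset.Icc 2 (d * (n + (d + 1)) + 2)).card ≤ hBadfin.toFinset.card := by
      refine Finset.card_le_card_of_injOn (fun r => pt (U r) (V r)) ?_ ?_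
      · intro r hr
        rw [Finset.mem_coe, Finite.mem_toFinset]
        exact hcon r hr
      · intro r _ s _ hrs
        have hrs' : pt (U r) (V r) = pt (U s) (V s) := hrs
        rw [pt_eq_pt (hUV r) (hUV s)] at hrs'
        have h2 : ((s : ℂ) - r) * (α * β * γ) = 0 := by
          have h3 : (α * u0 + ((r : ℂ) - 1) * β * u2) * (α * v0 + ((s : ℂ) - 1) * β * v2) =
              (α * u0 + ((s : ℂ) - 1) * β * u2) * (α * v0 + ((r : ℂ) - 1) * β * v2) := hrs'
          rw [hγ]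
          linear_combination h3
        have h3 : α * β * γ ≠ 0 := mul_ne_zero (mul_ne_zero hα0 hβ0) hγ0
        have h4 : (s : ℂ) - r = 0 := (mul_eq_zero.mp h2).resolve_right h3
        have h5 : (s : ℂ) = r := sub_eq_zero.mp h4
        exact_mod_cast h5.symm
    rw [Nat.card_Icc] at h1
    omega
  rw [Finset.mem_Icc] at hr
  have hr0 : (r : ℂ) ≠ 0 := by exact_mod_cast (by omega : r ≠ 0)
  have hr1 : (r : ℂ) - 1 ≠ 0 := by
    rw [sub_ne_zero]
    exact_mod_cast (by omega : r ≠ 1)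
  set a : ℂ := r * α * v0 with ha
  set b : ℂ := -(r * α * u0) with hb
  set c : ℂ := V r with hc
  set e : ℂ := - U r with he
  have hdet : a * e - b * c ≠ 0 := by
    have h1 : a * e - b * c = r * ((r : ℂ) - 1) * (α * β * γ) := by
      have h2 : c = α * v0 + ((r : ℂ) - 1) * β * v2 := rfl
      have h3 : e = -(α * u0 + ((r : ℂ) - 1) * β * u2) := rfl
      rw [ha, hb, h2, h3, hγ]
      ring
    rw [h1]
    exact mul_ne_zero (mul_ne_zero hr0 hr1) (mul_ne_zero (mul_ne_zero hα0 hβ0) hγ0)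
  set M : Sph ≃ₜ Sph := mobH a b c e hdet with hM
  have hMpt : ∀ u v : ℂ, (u ≠ 0 ∨ v ≠ 0) → M (pt u v) = pt (a * u + b * v) (c * u + e * v) :=
    fun u v huv => mob_pt huv
  have hMb0 : M (pt u0 v0) = ((0 : ℂ) : Sph) := by
    rw [hMpt _ _ huv0]
    have h1 : a * u0 + b * v0 = 0 := by rw [ha, hb]; ring
    have h2 : c * u0 + e * v0 = ((r : ℂ) - 1) * β * γ := by
      have h2 : c = α * v0 + ((r : ℂ) - 1) * β * v2 := rfl
      have h3 : e = -(α * u0 + ((r : ℂ) - 1) * β * u2) := rfl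
      rw [h2, h3, hγ]
      ring
    rw [h1, h2, pt_ne (mul_ne_zero (mul_ne_zero hr1 hβ0) hγ0), zero_div]
  have hMb1 : M (pt u1 v1) = ((1 : ℂ) : Sph) := by
    rw [hMpt _ _ huv1]
    have h1 : a * u1 + b * v1 = r * α * β := by rw [ha, hb, hβ]; ring
    have h2 : c * u1 + e * v1 = r * α * β := by
      have h2 : c = α * v0 + ((r : ℂ) - 1) * β * v2 := rfl
      have h3 : e = -(α * u0 + ((r : ℂ) - 1) * β * u2) := rfl
      rw [h2, h3]
      have h4 : (u1 * v2 - u2 * v1) = α := rfl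
      have h5 : (u1 * v0 - u0 * v1) = β := rfl
      linear_combination α * h5 + ((r : ℂ) - 1) * β * h4
    rw [h1, h2]
    have h3 : (r : ℂ) * α * β ≠ 0 := mul_ne_zero (mul_ne_zero hr0 hα0) hβ0
    rw [pt_ne h3, div_self h3]
  have hMb2 : M (pt u2 v2) = ((r : ℂ) : Sph) := by
    rw [hMpt _ _ huv2]
    have h1 : a * u2 + b * v2 = - (r * (α * γ)) := by rw [ha, hb, hγ]; ring
    have h2 : c * u2 + e * v2 = - (α * γ) := by
      have h2 : c = α * v0 + ((r : ℂ) - 1) * β * v2 := rfl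
      have h3 : e = -(α * u0 + ((r : ℂ) - 1) * β * u2) := rfl
      rw [h2, h3, hγ]
      ring
    have h3 : α * γ ≠ 0 := mul_ne_zero hα0 hγ0
    rw [h1, h2, pt_ne (neg_ne_zero.mpr h3)]
    congr 1
    field_simp
  have hMω : M (pt (U r) (V r)) = ∞ := by
    rw [hMpt _ _ (hUV r), pt_eq_infty]
    have h2 : c = V r := rfl
    have h3 : e = - U r := rfl
    rw [h2, h3]
    ring
  set ω := pt (U r) (V r) with hω
  have hω1 : G ω ∉ Post G := fun h0 => hrBad (Or.inl h0)
  have hω2 : G (G ω) ≠ G ω := fun h0 => hrBad (Or.inr h0)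
  have hω3 : ω ∉ Post G := fun h0 => hω1 (post_maps h0)
  have hω4 : G ω ≠ ω := fun h0 => hω2 (by rw [h0, h0])
  -- the conjugate map
  set P1 := C a * P0 + C b * Q0 with hP1
  set Q1 := C c * P0 + C e * Q0 with hQ1
  have hnd1 : Nd d P1 Q1 := hnd0.lin hdet
  have hdet' : e * a - (-b) * (-c) ≠ 0 := by
    have : e * a - (-b) * (-c) = a * e - b * c := by ring
    rwa [this]
  set P2 := Sb d P1 e (-b) (-c) a with hP2
  set Q2 := Sb d Q1 e (-b) (-c) a with hQ2
  have hnd2 : Nd d P2 Q2 := hnd1.Sb hdet'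
  have hconj2 : ∀ x, M (G x) = RM d P2 Q2 (M x) := by
    intro x
    rw [← RM_mob hnd1 hdet']
    have h1 : mob e (-b) (-c) a (M x) = x := M.symm_apply_apply x
    rw [h1]
    exact mob_RM hnd0 x
  have hq : Q2.coeff d ≠ 0 := by
    intro h0
    have h1 := hconj2 ω
    rw [hMω, RM_infty, h0, pt_zero, ← hMω] at h1
    exact hω4 (M.injective h1)
  set l := (Q2.coeff d)⁻¹ with hl
  have hl0 : l ≠ 0 := inv_ne_zero hq
  have hdl : l * l - 0 * 0 ≠ 0 := by simpa using hl0
  set P3 := C l * P2 + C 0 * Q2 with hP3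
  set Q3 := C 0 * P2 + C l * Q2 with hQ3
  have hnd3 : Nd d P3 Q3 := hnd2.lin hdl
  have hQ3 : Q3.coeff d = 1 := by
    rw [hQ3, C_0, zero_mul, zero_add, coeff_C_mul, hl, inv_mul_cancel₀ hq]
  have hconj : ∀ x, M (G x) = RM d P3 Q3 (M x) := by
    intro x
    rw [hconj2, ← mob_RM hnd2, mob_id hl0]
  have hpost : M '' Post G = Post (RM d P3 Q3) := post_image hconj fun _ _ => rfl
  have hinfp : (∞ : Sph) ∉ Post (RM d P3 Q3) := by
    rw [← hpost, ← hMω]
    rintro ⟨z, hz, hzω⟩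
    exact hω3 (M.injective hzω ▸ hz)
  have hfin3 : (Post (RM d P3 Q3)).Finite := hpost ▸ hfin.image M
  have hAfin : ((fun z : ℂ => (z : Sph)) ⁻¹' Post (RM d P3 Q3)).Finite :=
    hfin3.preimage OnePoint.coe_injective.injOn
  set A : Finset ℂ := hAfin.toFinset with hA
  have hApost : (fun z : ℂ => (z : Sph)) '' A = Post (RM d P3 Q3) := by
    rw [hA, Finite.coe_toFinset]
    ext y
    constructor
    · rintro ⟨z, hz, rfl⟩
      exact hz
    · intro hy
      induction y using OnePoint.rec with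
      | infty => exact absurd hy hinfp
      | coe z => exact ⟨z, hy, rfl⟩
  have hmemA : ∀ z : ℂ, z ∈ A ↔ (z : Sph) ∈ Post (RM d P3 Q3) := by
    intro z
    rw [hA, Finite.mem_toFinset]
    rfl
  have hcardA : A.card = n := by
    have h1 : ((fun z : ℂ => (z : Sph)) '' A).ncard = A.card := by
      rw [ncard_image_of_injective _ OnePoint.coe_injective, ncard_coe_finset]
    rw [← h1, hApost, ← hpost, ncard_image_of_injective _ M.injective, hcard]
  have hRinf : RM d P3 Q3 ∞ = M (G ω) := by rw [hconj, hMω]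
  refine ⟨r, hr.1, hr.2, P3, Q3, A, M, hconj, ?_, hcardA, ?_, ?_, ?_, hApost⟩
  · refine good_of hd hnd3 hQ3 hApost ?_ ?_
    · rw [hRinf, ← hpost]
      rintro ⟨z, hz, hzω⟩
      exact hω1 (M.injective hzω ▸ hz)
    · rw [hRinf, ← hconj]
      exact fun h0 => hω2 (M.injective h0)
  · rw [hmemA, ← hMb0, ← hpost]
    exact mem_image_of_mem M hb0
  · rw [hmemA, ← hMb1, ← hpost]
    exact mem_image_of_mem M hb1
  · rw [hmemA, ← hMb2, ← hpost]
    exact mem_image_of_mem M hb2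

end

end Pool.Agent.H22
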