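import Pool.Agent.H22.Local

/-!
Rational maps of the Riemann sphere given by pairs of polynomials.
-/

set_option autoImplicit false
open Polynomial Filter Set Topology OnePoint

namespace Pool.Agent.H22

noncomputable section

open Classical in
/-- the point with homogeneous coordinates `u : v` -/
def pt (u v : ℂ) : OnePoint ℂ := if v = 0 then ∞ else ((u / v : ℂ) : OnePoint ℂ)

lemma pt_zero (u : ℂ) : pt u 0 = ∞ := by simp [pt]
lemma pt_ne {u v : ℂ} (hv : v ≠ 0) : pt u v = ((u / v : ℂ) : OnePoint ℂ) := by simp [pt, hv]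
lemma pt_one (u : ℂ) : pt u 1 = (u : OnePoint ℂ) := by simp [pt]
lemma pt_eq_infty {u v : ℂ} : pt u v = ∞ ↔ v = 0 := by
  unfold pt
  split_ifs with h <;> simp [h]

lemma pt_eq_coe {u v z : ℂ} : pt u v = (z : OnePoint ℂ) ↔ v ≠ 0 ∧ u / v = z := by
  unfold pt
  split_ifs with h <;> simp [h]

lemma pt_mul {l : ℂ} (hl : l ≠ 0) (u v : ℂ) : pt (l * u) (l * v) = pt u v := by
  by_cases hv : v = 0
  · simp [hv, pt_zero]
  · rw [pt_ne hv, pt_ne (mul_ne_zero hl hv), mul_div_mul_left _ _ hl]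

lemma exists_pt (z : OnePoint ℂ) : ∃ u v : ℂ, (u ≠ 0 ∨ v ≠ 0) ∧ z = pt u v := by
  induction z using OnePoint.rec with
  | infty => exact ⟨1, 0, Or.inl one_ne_zero, (pt_zero 1).symm⟩
  | coe x => exact ⟨x, 1, Or.inr one_ne_zero, (pt_one x).symm⟩

lemma pt_eq_pt {u v u' v' : ℂ} (h : u ≠ 0 ∨ v ≠ 0) (h' : u' ≠ 0 ∨ v' ≠ 0) :
    pt u v = pt u' v' ↔ u * v' = u' * v := by
  by_cases hv : v = 0
  · subst hv
    rw [pt_zero, eq_comm, pt_eq_infty]
    have hu : u ≠ 0 := by tauto
    constructor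
    · rintro rfl; simp
    · intro h1
      simpa [hu] using h1
  · rw [pt_ne hv, eq_comm, pt_eq_coe]
    constructor
    · rintro ⟨h1, h2⟩
      rw [div_eq_div_iff h1 hv] at h2
      exact h2.symm
    · intro h1
      have hv' : v' ≠ 0 := by
        rintro rfl
        have : u' * v = 0 := by rw [← h1, mul_zero]
        rcases mul_eq_zero.mp this with h2 | h2
        · simp [h2] at h'
        · exact hv h2
      refine ⟨hv', ?_⟩
      rw [div_eq_div_iff hv' hv]
      exact h1.symm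

lemma pt_continuousAt {u v : ℂ} (h : u ≠ 0 ∨ v ≠ 0) :
    ContinuousAt (fun z : ℂ × ℂ => pt z.1 z.2) (u, v) := by
  by_cases hv : v = 0
  · subst hv
    have hu : u ≠ 0 := by tauto
    rw [ContinuousAt]
    simp only [pt_zero]
    rw [nhds_infty_eq, coclosedCompact_eq_cocompact, ← Metric.cobounded_eq_cocompact]
    -- split
    intro s hs
    rw [mem_sup, mem_map] at hs
    obtain ⟨hs1, hs2⟩ := hs
    have hs2' : (∞ : OnePoint ℂ) ∈ s := hs2
    have h1 : Tendsto (fun z : ℂ × ℂ => ‖z.1‖) (𝓝 (u, 0)) (𝓝 ‖u‖) :=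
      (continuous_fst.norm).tendsto (u, (0 : ℂ))
    have h2 : Tendsto (fun z : ℂ × ℂ => ‖z.2‖) (𝓝 (u, (0 : ℂ))) (𝓝 0) := by
      have := (continuous_snd.norm).tendsto (u, (0 : ℂ))
      simpa using this
    have hu' : 0 < ‖u‖ := norm_pos_iff.mpr hu
    obtain ⟨R, hR0, hR⟩ : ∃ R : ℝ, 0 < R ∧ ∀ x : ℂ, R ≤ ‖x‖ → (x : OnePoint ℂ) ∈ s := by
      rw [← comap_norm_atTop, mem_comap] at hs1
      obtain ⟨t, ht, hts⟩ := hs1
      obtain ⟨R, hR⟩ := mem_atTop_sets.mp ht
      exact ⟨max R 1, by positivity, fun x hx => hts (hR _ ((le_max_left _ _).trans hx))⟩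
    have h3 : ∀ᶠ z : ℂ × ℂ in 𝓝 (u, (0 : ℂ)), ‖u‖ / 2 < ‖z.1‖ :=
      h1.eventually_const_lt (by linarith)
    have h4 : ∀ᶠ z : ℂ × ℂ in 𝓝 (u, (0 : ℂ)), ‖z.2‖ < ‖u‖ / 2 / R :=
      h2.eventually_lt_const (by positivity)
    rw [mem_map]
    filter_upwards [h3, h4] with z hz1 hz2
    by_cases hz : z.2 = 0
    · simp only [mem_preimage, hz, pt_zero]
      exact hs2'
    · simp only [mem_preimage]
      rw [pt_ne hz]
      apply hR
      rw [norm_div, le_div_iff₀ (norm_pos_iff.mpr hz)]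
      rw [lt_div_iff₀ hR0] at hz2
      nlinarith
  · have h1 : (fun z : ℂ × ℂ => pt z.1 z.2) =ᶠ[𝓝 (u, v)] fun z => ((z.1 / z.2 : ℂ) : OnePoint ℂ) := by
      have : ∀ᶠ z : ℂ × ℂ in 𝓝 (u, v), z.2 ≠ 0 := continuous_snd.continuousAt.eventually_ne hv
      filter_upwards [this] with z hz
      exact pt_ne hz
    refine ContinuousAt.congr ?_ h1.symm
    refine OnePoint.continuous_coe.continuousAt.comp ?_
    exact continuousAt_fst.div continuousAt_snd hv

/-- homogeneous evaluation -/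
def hom (D : ℕ) (p : ℂ[X]) (u v : ℂ) : ℂ :=
  ∑ i ∈ Finset.range (D + 1), p.coeff i * u ^ i * v ^ (D - i)

lemma hom_one {D : ℕ} {p : ℂ[X]} (hp : p.natDegree ≤ D) (x : ℂ) : hom D p x 1 = p.eval x := by
  rw [hom, eval_eq_sum_range' (Nat.lt_succ_of_le hp)]
  simp

lemma hom_inf (D : ℕ) (p : ℂ[X]) (u : ℂ) : hom D p u 0 = u ^ D * p.coeff D := by
  rw [hom, Finset.sum_eq_single D]
  · simp; ring
  · intro i hi hne
    have := Finset.mem_range.mp hi
    rw [zero_pow (by omega), mul_zero]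
  · simp

lemma hom_mul (D : ℕ) (p : ℂ[X]) (l u v : ℂ) : hom D p (l * u) (l * v) = l ^ D * hom D p u v := by
  rw [hom, hom, Finset.mul_sum]
  refine Finset.sum_congr rfl fun i hi => ?_
  have h1 : l ^ D = l ^ i * l ^ (D - i) := by
    rw [← pow_add]
    congr 1
    have := Finset.mem_range.mp hi
    omega
  rw [mul_pow, mul_pow, h1]
  ring

lemma hom_ne {D : ℕ} {p : ℂ[X]} (hp : p.natDegree ≤ D) {u v : ℂ} (hv : v ≠ 0) :
    hom D p u v = v ^ D * p.eval (u / v) := by
  have h1 := hom_mul D p v (u / v) 1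
  rw [hom_one hp, mul_one] at h1
  rw [← h1]
  congr 1
  field_simp

lemma hom_add (D : ℕ) (p q : ℂ[X]) (u v : ℂ) : hom D (p + q) u v = hom D p u v + hom D q u v := by
  rw [hom, hom, hom, ← Finset.sum_add_distrib]
  refine Finset.sum_congr rfl fun i _ => ?_
  rw [coeff_add]
  ring

lemma hom_C_mul (D : ℕ) (c : ℂ) (p : ℂ[X]) (u v : ℂ) :
    hom D (C c * p) u v = c * hom D p u v := by
  rw [hom, hom, Finset.mul_sum]
  refine Finset.sum_congr rfl fun i _ => ?_
  rw [coeff_C_mul]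
  ring

/-- a pair of polynomials without common zero on the projective line -/
structure Nd (d : ℕ) (P Q : ℂ[X]) : Prop where
  Pd : P.natDegree ≤ d
  Qd : Q.natDegree ≤ d
  fin : ∀ x, P.eval x ≠ 0 ∨ Q.eval x ≠ 0
  inf : P.coeff d ≠ 0 ∨ Q.coeff d ≠ 0

/-- the map of the sphere -/
def RM (d : ℕ) (P Q : ℂ[X]) (z : OnePoint ℂ) : OnePoint ℂ :=
  z.elim (pt (P.coeff d) (Q.coeff d)) (fun x => pt (P.eval x) (Q.eval x))

lemma RM_infty (d : ℕ) (P Q : ℂ[X]) : RM d P Q ∞ = pt (P.coeff d) (Q.coeff d) := rfl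
lemma RM_coe (d : ℕ) (P Q : ℂ[X]) (x : ℂ) : RM d P Q x = pt (P.eval x) (Q.eval x) := rfl

lemma Nd.hom {d : ℕ} {P Q : ℂ[X]} (h : Nd d P Q) {u v : ℂ} (huv : u ≠ 0 ∨ v ≠ 0) :
    hom d P u v ≠ 0 ∨ hom d Q u v ≠ 0 := by
  by_cases hv : v = 0
  · subst hv
    have hu : u ≠ 0 := by tauto
    rw [hom_inf, hom_inf]
    have hu' := pow_ne_zero d hu
    exact h.inf.imp (mul_ne_zero hu') (mul_ne_zero hu')
  · rw [hom_ne h.Pd hv, hom_ne h.Qd hv]
    have hv' := pow_ne_zero d hv
    exact (h.fin _).imp (mul_ne_zero hv') (mul_ne_zero hv')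

lemma RM_pt {d : ℕ} {P Q : ℂ[X]} (h : Nd d P Q) {u v : ℂ} (huv : u ≠ 0 ∨ v ≠ 0) :
    RM d P Q (pt u v) = pt (hom d P u v) (hom d Q u v) := by
  by_cases hv : v = 0
  · subst hv
    have hu : u ≠ 0 := by tauto
    rw [pt_zero, RM_infty, hom_inf, hom_inf, pt_mul (pow_ne_zero d hu)]
  · rw [pt_ne hv, RM_coe, hom_ne h.Pd hv, hom_ne h.Qd hv, pt_mul (pow_ne_zero d hv)]

/-- substitution of a linear fraction -/
def Sb (D : ℕ) (p : ℂ[X]) (a b c e : ℂ) : ℂ[X] :=
  ∑ i ∈ Finset.range (D + 1), C (p.coeff i) * (C a * X + C b) ^ i * (C c * X + C e) ^ (D - i)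

lemma Sb_eval (D : ℕ) (p : ℂ[X]) (a b c e x : ℂ) :
    (Sb D p a b c e).eval x = hom D p (a * x + b) (c * x + e) := by
  rw [Sb, hom, eval_finsetSum]
  simp

lemma lin_natDegree (a b : ℂ) (i : ℕ) : ((C a * X + C b : ℂ[X]) ^ i).natDegree ≤ i := by
  refine natDegree_pow_le.trans ?_
  calc i * (C a * X + C b : ℂ[X]).natDegree ≤ i * 1 := Nat.mul_le_mul_left _ natDegree_linear_le
    _ = i := mul_one i

lemma lin_coeff (a b : ℂ) (i : ℕ) : ((C a * X + C b : ℂ[X]) ^ i).coeff i = a ^ i := by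
  have := coeff_pow_of_natDegree_le (p := (C a * X + C b : ℂ[X])) (n := 1) (m := i)
    natDegree_linear_le
  simpa using this

lemma Sb_natDegree (D : ℕ) (p : ℂ[X]) (a b c e : ℂ) : (Sb D p a b c e).natDegree ≤ D := by
  refine natDegree_sum_le_of_forall_le _ _ fun i hi => ?_
  have := Finset.mem_range.mp hi
  refine natDegree_mul_le.trans ?_
  have h1 : (C (p.coeff i) * (C a * X + C b : ℂ[X]) ^ i).natDegree ≤ i :=
    (natDegree_C_mul_le _ _).trans (lin_natDegree a b i)
  have h2 := lin_natDegree c e (D - i)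
  omega

lemma Sb_coeff (D : ℕ) (p : ℂ[X]) (a b c e : ℂ) : (Sb D p a b c e).coeff D = hom D p a c := by
  rw [Sb, hom, finsetSum_coeff]
  refine Finset.sum_congr rfl fun i hi => ?_
  have := Finset.mem_range.mp hi
  have h1 : (C (p.coeff i) * (C a * X + C b : ℂ[X]) ^ i).natDegree ≤ i :=
    (natDegree_C_mul_le _ _).trans (lin_natDegree a b i)
  have h2 := coeff_mul_add_eq_of_natDegree_le h1 (lin_natDegree c e (D - i))
  rw [show i + (D - i) = D by omega] at h2
  rw [h2, coeff_C_mul, lin_coeff, lin_coeff]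

/-- the linear fraction `(a z + b) / (c z + e)` -/
def mob (a b c e : ℂ) (z : OnePoint ℂ) : OnePoint ℂ :=
  z.elim (pt a c) (fun x => pt (a * x + b) (c * x + e))

lemma lin_ne {a b c e u v : ℂ} (hdet : a * e - b * c ≠ 0) (huv : u ≠ 0 ∨ v ≠ 0) :
    a * u + b * v ≠ 0 ∨ c * u + e * v ≠ 0 := by
  by_contra hcon
  push Not at hcon
  obtain ⟨h1, h2⟩ := hcon
  have h3 : (a * e - b * c) * u = 0 := by linear_combination e * h1 - b * h2
  have h4 : (a * e - b * c) * v = 0 := by linear_combination a * h2 - c * h1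
  have hu : u = 0 := (mul_eq_zero.mp h3).resolve_left hdet
  have hv : v = 0 := (mul_eq_zero.mp h4).resolve_left hdet
  simp [hu, hv] at huv

lemma mob_pt {a b c e : ℂ} {u v : ℂ} (huv : u ≠ 0 ∨ v ≠ 0) :
    mob a b c e (pt u v) = pt (a * u + b * v) (c * u + e * v) := by
  by_cases hv : v = 0
  · subst hv
    have hu : u ≠ 0 := by tauto
    rw [pt_zero]
    change pt a c = _
    rw [mul_zero, mul_zero, add_zero, add_zero, mul_comm a u, mul_comm c u, pt_mul hu]
  · rw [pt_ne hv]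
    change pt (a * (u / v) + b) (c * (u / v) + e) = _
    rw [← pt_mul hv]
    congr 1 <;> field_simp

/-- precomposition with a linear fraction -/
lemma RM_mob {d : ℕ} {P Q : ℂ[X]} (h : Nd d P Q) {a b c e : ℂ} (hdet : a * e - b * c ≠ 0)
    (z : OnePoint ℂ) :
    RM d P Q (mob a b c e z) = RM d (Sb d P a b c e) (Sb d Q a b c e) z := by
  induction z using OnePoint.rec with
  | infty =>
    change RM d P Q (pt a c) = pt _ _
    rw [Sb_coeff, Sb_coeff, RM_pt h]
    have := lin_ne hdet (u := 1) (v := 0) (Or.inl one_ne_zero)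
    simpa using this
  | coe x =>
    change RM d P Q (pt (a * x + b) (c * x + e)) = pt _ _
    rw [Sb_eval, Sb_eval, RM_pt h]
    have := lin_ne hdet (u := x) (v := 1) (Or.inr one_ne_zero)
    simpa using this

lemma Nd.Sb {d : ℕ} {P Q : ℂ[X]} (h : Nd d P Q) {a b c e : ℂ} (hdet : a * e - b * c ≠ 0) :
    Nd d (Sb d P a b c e) (Sb d Q a b c e) where
  Pd := Sb_natDegree _ _ _ _ _ _
  Qd := Sb_natDegree _ _ _ _ _ _
  fin := by
    intro x
    rw [Sb_eval, Sb_eval]
    apply h.hom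
    have := lin_ne hdet (u := x) (v := 1) (Or.inr one_ne_zero)
    simpa using this
  inf := by
    rw [Sb_coeff, Sb_coeff]
    apply h.hom
    have := lin_ne hdet (u := 1) (v := 0) (Or.inl one_ne_zero)
    simpa using this

/-- postcomposition with a linear fraction -/
lemma mob_RM {d : ℕ} {P Q : ℂ[X]} (h : Nd d P Q) {a b c e : ℂ} (z : OnePoint ℂ) :
    mob a b c e (RM d P Q z) = RM d (C a * P + C b * Q) (C c * P + C e * Q) z := by
  induction z using OnePoint.rec with
  | infty =>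
    rw [RM_infty, RM_infty, mob_pt h.inf]
    simp
  | coe x =>
    rw [RM_coe, RM_coe, mob_pt (h.fin x)]
    simp

lemma Nd.lin {d : ℕ} {P Q : ℂ[X]} (h : Nd d P Q) {a b c e : ℂ} (hdet : a * e - b * c ≠ 0) :
    Nd d (C a * P + C b * Q) (C c * P + C e * Q) where
  Pd := (natDegree_add_le _ _).trans (max_le ((natDegree_C_mul_le _ _).trans h.Pd)
    ((natDegree_C_mul_le _ _).trans h.Qd))
  Qd := (natDegree_add_le _ _).trans (max_le ((natDegree_C_mul_le _ _).trans h.Pd)
    ((natDegree_C_mul_le _ _).trans h.Qd))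
  fin := by
    intro x
    simpa using lin_ne hdet (h.fin x)
  inf := by
    simpa using lin_ne hdet h.inf

lemma mob_comp {a b c e a' b' c' e' : ℂ} (hdet : a' * e' - b' * c' ≠ 0) (z : OnePoint ℂ) :
    mob a b c e (mob a' b' c' e' z) =
      mob (a * a' + b * c') (a * b' + b * e') (c * a' + e * c') (c * b' + e * e') z := by
  obtain ⟨u, v, huv, rfl⟩ := exists_pt z
  rw [mob_pt huv, mob_pt (lin_ne hdet huv), mob_pt huv]
  congr 1 <;> ring

lemma mob_id {l : ℂ} (hl : l ≠ 0) (z : OnePoint ℂ) : mob l 0 0 l z = z := by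
  obtain ⟨u, v, huv, rfl⟩ := exists_pt z
  rw [mob_pt huv, zero_mul, zero_mul, add_zero, zero_add, pt_mul hl]

lemma continuousAt_coe_pt {f g : ℂ → ℂ} {x : ℂ} (hf : ContinuousAt f x) (hg : ContinuousAt g x)
    (h : f x ≠ 0 ∨ g x ≠ 0) : ContinuousAt (fun x => pt (f x) (g x)) x := by
  have h1 := pt_continuousAt h
  have h2 : ContinuousAt (fun x => (f x, g x)) x := hf.prodMk hg
  exact ContinuousAt.comp (f := fun x => (f x, g x)) (g := fun z : ℂ × ℂ => pt z.1 z.2) h1 h2

/-- the inversion is continuous -/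
lemma continuous_inv : Continuous (mob 0 1 1 0) := by
  rw [continuous_iff_continuousAt]
  intro z
  induction z using OnePoint.rec with
  | infty =>
    rw [continuousAt_infty']
    rw [coclosedCompact_eq_cocompact, ← Metric.cobounded_eq_cocompact]
    have h0 : mob 0 1 1 0 ∞ = ((0 : ℂ) : OnePoint ℂ) := by
      change pt 0 1 = _
      exact pt_one 0
    rw [h0]
    have h1 : Tendsto (fun x : ℂ => ((x⁻¹ : ℂ) : OnePoint ℂ)) (Bornology.cobounded ℂ)
        (𝓝 ((0 : ℂ) : OnePoint ℂ)) :=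
      (OnePoint.continuous_coe.tendsto 0).comp tendsto_inv₀_cobounded
    refine h1.congr' ?_
    have h2 : ∀ᶠ x : ℂ in Bornology.cobounded ℂ, x ≠ 0 := Bornology.eventually_ne_cobounded 0
    filter_upwards [h2] with x hx
    change _ = pt (0 * x + 1) (1 * x + 0)
    rw [zero_mul, zero_add, one_mul, add_zero, pt_ne hx, one_div]
  | coe x =>
    rw [continuousAt_coe]
    change ContinuousAt (fun x : ℂ => pt (0 * x + 1) (1 * x + 0)) x
    exact continuousAt_coe_pt (by fun_prop) (by fun_prop) (by simp)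

lemma inv_inv_apply (z : OnePoint ℂ) : mob 0 1 1 0 (mob 0 1 1 0 z) = z := by
  rw [mob_comp (by simp)]
  simpa using mob_id one_ne_zero z

lemma RM_continuousAt_coe {d : ℕ} {P Q : ℂ[X]} (h : Nd d P Q) (x : ℂ) :
    ContinuousAt (RM d P Q) x := by
  rw [continuousAt_coe]
  change ContinuousAt (fun x : ℂ => pt (P.eval x) (Q.eval x)) x
  exact continuousAt_coe_pt P.continuous.continuousAt Q.continuous.continuousAt (h.fin x)

lemma RM_eq_inv {d : ℕ} {P Q : ℂ[X]} (h : Nd d P Q) (z : OnePoint ℂ) :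
    RM d P Q z = RM d (Sb d P 0 1 1 0) (Sb d Q 0 1 1 0) (mob 0 1 1 0 z) := by
  rw [← RM_mob h (by simp), inv_inv_apply]

lemma inv_infty : mob 0 1 1 0 ∞ = ((0 : ℂ) : OnePoint ℂ) := pt_one 0

lemma RM_continuous {d : ℕ} {P Q : ℂ[X]} (h : Nd d P Q) : Continuous (RM d P Q) := by
  rw [continuous_iff_continuousAt]
  intro z
  induction z using OnePoint.rec with
  | infty =>
    have h1 : RM d P Q = fun z => RM d (Sb d P 0 1 1 0) (Sb d Q 0 1 1 0) (mob 0 1 1 0 z) := by
      funext z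
      exact RM_eq_inv h z
    rw [h1]
    refine ContinuousAt.comp (g := RM d (Sb d P 0 1 1 0) (Sb d Q 0 1 1 0)) (f := mob 0 1 1 0) ?_
      continuous_inv.continuousAt
    rw [inv_infty]
    exact RM_continuousAt_coe (h.Sb (by simp)) 0
  | coe x => exact RM_continuousAt_coe h x

lemma mob_eq_RM (a b c e : ℂ) (z : OnePoint ℂ) :
    mob a b c e z = RM 1 (C a * X + C b) (C c * X + C e) z := by
  induction z using OnePoint.rec with
  | infty =>
    rw [RM_infty]
    change pt a c = _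
    simp
  | coe x =>
    rw [RM_coe]
    change pt (a * x + b) (c * x + e) = _
    simp

lemma Nd_lin {a b c e : ℂ} (hdet : a * e - b * c ≠ 0) : Nd 1 (C a * X + C b) (C c * X + C e) where
  Pd := natDegree_linear_le
  Qd := natDegree_linear_le
  fin := by
    intro x
    have := lin_ne hdet (u := x) (v := 1) (Or.inr one_ne_zero)
    simpa using this
  inf := by
    have := lin_ne hdet (u := 1) (v := 0) (Or.inl one_ne_zero)
    simpa using this

lemma mob_continuous {a b c e : ℂ} (hdet : a * e - b * c ≠ 0) : Continuous (mob a b c e) := by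
  have : mob a b c e = RM 1 (C a * X + C b) (C c * X + C e) := funext (mob_eq_RM a b c e)
  rw [this]
  exact RM_continuous (Nd_lin hdet)

/-- the homeomorphism given by a linear fraction -/
def mobH (a b c e : ℂ) (hdet : a * e - b * c ≠ 0) : OnePoint ℂ ≃ₜ OnePoint ℂ where
  toFun := mob a b c e
  invFun := mob e (-b) (-c) a
  left_inv z := by
    rw [mob_comp hdet]
    have h1 : mob (e * a + -b * c) (e * b + -b * e) (-c * a + a * c) (-c * b + a * e) z =
        mob (a * e - b * c) 0 0 (a * e - b * c) z := by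
      congr 1 <;> ring
    rw [h1, mob_id hdet]
  right_inv z := by
    rw [mob_comp (by simpa [mul_comm] using hdet)]
    have h1 : mob (a * e + b * -c) (a * -b + b * a) (c * e + e * -c) (c * -b + e * a) z =
        mob (a * e - b * c) 0 0 (a * e - b * c) z := by
      congr 1 <;> ring
    rw [h1, mob_id hdet]
  continuous_toFun := mob_continuous hdet
  continuous_invFun := mob_continuous (by simpa [mul_comm] using hdet)

end

end Pool.Agent.H22
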