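import Mathlib

/-!
Thurston maps of the sphere, Thurston equivalence, Lattès maps, isotopy classes of curves, the
pullback relation and its finite global attractors.
-/

set_option autoImplicit false
open Set Topology OnePoint

namespace Pool.Agent.H22

/-- The sphere, as the complex plane with a point at infinity. -/
abbrev Sph : Type := OnePoint ℂ

/-- The critical points of a self-map of the sphere: the points near which it is not injective. -/
def Crit (F : Sph → Sph) : Set Sph := {x | ∀ U ∈ 𝓝 x, ¬ InjOn F U}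

/-- The postcritical set: the images of critical points under the iterates of order at least
one. -/
def Post (F : Sph → Sph) : Set Sph := {y | ∃ n ≥ 1, ∃ x ∈ Crit F, F^[n] x = y}

/-- The degree: the largest number of points in a fibre. -/
noncomputable def Deg (F : Sph → Sph) : ℕ := sSup (range fun y => (F ⁻¹' {y}).ncard)

open Classical in
/-- `F` is the rational map `P / Q` of degree `d`, with `P` and `Q` coprime. -/
def IsRational (d : ℕ) (F : Sph → Sph) : Prop :=
  ∃ P Q : Polynomial ℂ, IsCoprime P Q ∧ max P.natDegree Q.natDegree = d ∧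
    (∀ x : ℂ, F x = if Q.eval x = 0 then ∞ else ((P.eval x / Q.eval x : ℂ) : Sph)) ∧
    F ∞ = if Q.coeff d = 0 then ∞ else ((P.coeff d / Q.coeff d : ℂ) : Sph)

/-- Thurston equivalence: `h₀ ∘ F = G ∘ h₁` for homeomorphisms `h₀`, `h₁` that are isotopic
relative to the postcritical set of `F`. -/
def ThurstonEquiv (F G : Sph → Sph) : Prop :=
  ∃ h₀ h₁ : Sph ≃ₜ Sph, (∀ x, h₀ (F x) = G (h₁ x)) ∧
    ∃ H : unitInterval × Sph → Sph, Continuous H ∧ (∀ t, Function.Bijective fun x => H (t, x)) ∧
      (∀ x, H (0, x) = h₀ x) ∧ (∀ x, H (1, x) = h₁ x) ∧ ∀ t, ∀ x ∈ Post F, H (t, x) = h₀ x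

/-- The local degree: the least `m` such that `F` is at most `m` to one near `x`. -/
noncomputable def LocalDeg (F : Sph → Sph) (x : Sph) : ℕ :=
  sInf {m : ℕ | ∃ U ∈ 𝓝 x, ∀ y, (F ⁻¹' {y} ∩ U).encard ≤ m}

/-- The weight of the orbifold of `F` at `a`: the least common multiple of the local degrees at
`x` of the iterates `F^[k]` with `F^[k] x = a`. -/
noncomputable def Weight (F : Sph → Sph) (a : Sph) : ℕ :=
  sInf {m : ℕ | 0 < m ∧ ∀ k x, F^[k] x = a → LocalDeg F^[k] x ∣ m}

/-- A Lattès map: a rational map of degree at least two whose orbifold has signature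
`(2, 2, 2, 2)`. -/
def IsLattes (L : Sph → Sph) : Prop :=
  (∃ d ≥ 2, IsRational d L) ∧ (Post L).ncard = 4 ∧ ∀ a ∈ Post L, Weight L a = 2

/-- `C` is a simple closed curve in the complement of `P`. -/
def IsCurve (P C : Set Sph) : Prop :=
  Disjoint C P ∧ ∃ c : Circle → Sph, Continuous c ∧ Function.Injective c ∧ range c = C

/-- Both complementary components of the curve `C` contain at least two points of `P`. -/
def Essential (P C : Set Sph) : Prop :=
  ∃ x ∈ Cᶜ, ∃ y ∈ Cᶜ, connectedComponentIn Cᶜ x ≠ connectedComponentIn Cᶜ y ∧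
    2 ≤ (connectedComponentIn Cᶜ x ∩ P).encard ∧ 2 ≤ (connectedComponentIn Cᶜ y ∩ P).encard

/-- Isotopy of simple closed curves in the complement of `P`. -/
def Isotopic (P C C' : Set Sph) : Prop :=
  ∃ H : unitInterval × Circle → Sph, Continuous H ∧ (∀ t, Function.Injective fun z => H (t, z)) ∧
    (∀ p, H p ∉ P) ∧ range (fun z => H (0, z)) = C ∧ range (fun z => H (1, z)) = C'

/-- The essential simple closed curves in the complement of `P`. -/
def Ess (P : Set Sph) : Type := {C : Set Sph // IsCurve P C ∧ Essential P C}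

/-- The isotopy classes of essential curves, and one more element `none` for all the trivial
curves. -/
def CurveClass (P : Set Sph) : Type := Option (Quot fun C C' : Ess P => Isotopic P C.1 C'.1)

/-- The pullback relation. -/
def Pull (F : Sph → Sph) (γ δ : CurveClass (Post F)) : Prop :=
  (γ = none ∧ δ = none) ∨
  ∃ C : Ess (Post F), γ = Option.some (Quot.mk _ C) ∧ ∃ x, F x ∈ C.1 ∧
    ((¬ Essential (Post F) (connectedComponentIn (F ⁻¹' C.1) x) ∧ δ = none) ∨
      ∃ K : Ess (Post F), K.1 = connectedComponentIn (F ⁻¹' C.1) x ∧ δ = Option.some (Quot.mk _ K))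

/-- Chains of length `n` of the pullback relation. -/
def Chain (F : Sph → Sph) (n : ℕ) (γ δ : CurveClass (Post F)) : Prop :=
  ∃ f : ℕ → CurveClass (Post F), f 0 = γ ∧ f n = δ ∧ ∀ i < n, Pull F (f i) (f (i + 1))

/-- Finite global attractors of the pullback relation. -/
def IsAttractor (F : Sph → Sph) (A : Set (CurveClass (Post F))) : Prop :=
  A.Finite ∧ ∀ γ, ∃ N, ∀ n ≥ N, ∀ δ, Chain F n γ δ → δ ∈ A

end Pool.Agent.H22
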